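import Pool.Agent.TateOdd.Dir1

/-!
# Simultaneous eigenvectors
-/

set_option autoImplicit false
set_option linter.unusedSectionVars false

universe u

namespace Pool.Agent.TateOdd

open Pool.Agent.OddRank (Stable Irreducible Semisimple Equiv Iso exists_proj exists_family schur
  lieSpan subset_lieSpan lieSpan_lie lieSpan_le stable_span comm_span simil_span stable_of_comm
  comm_of_equiv FormOn)
open Pool.Agent.TypeIV (derivedSpan pair_irr)
open Pool.Agent.TypeIV.MX (rst rst_apply rst_mul KSp KSl commutant_mixed)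
open Pool.Agent.GHCFull (AForm der der_apply der_add der_smul der_one der_der Idx finite_aform)

/-- Simultaneous eigenvectors of commuting operators. -/
theorem joint_eigen {ι X : Type*} [AddCommGroup X] [Module ℂ X] [FiniteDimensional ℂ X]
    (A : ι → Module.End ℂ X) (T : Submodule ℂ X) (hT : ∀ i, ∀ x ∈ T, A i x ∈ T)
    (hc : ∀ i j, ∀ x ∈ T, A i (A j x) = A j (A i x))
    (hint : ∀ i x (c : ℂ) (N : ℕ), ((A i - c • (1 : Module.End ℂ X)) ^ N) x = 0 →
      ∃ m : ℤ, A i x = (m : ℂ) • x) :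
    T ≤ Submodule.span ℂ {y | y ∈ T ∧ ∃ m : ι → ℤ, ∀ i, A i y = (m i : ℂ) • y} := by
  intro x hx
  let R : ι → Module.End ℂ T := fun i => (A i).restrict (hT i)
  have hR : ∀ i (y : T), (R i y : X) = A i y := fun i y => rfl
  have hRc : Pairwise fun i j => Commute (R i) (R j) := by
    intro i j _
    refine LinearMap.ext fun y => Subtype.ext ?_
    rw [Module.End.mul_apply, Module.End.mul_apply, hR, hR, hR, hR]
    exact hc i j y y.2
  have htop := Module.End.iSup_iInf_maxGenEigenspace_eq_top_of_iSup_maxGenEigenspace_eq_top_of_commute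
    R hRc fun i => Module.End.iSup_maxGenEigenspace_eq_top (R i)
  have hpow : ∀ i (c : ℂ) (N : ℕ) (y : T), (((R i - c • (1 : Module.End ℂ T)) ^ N) y : X) =
      ((A i - c • (1 : Module.End ℂ X)) ^ N) y := by
    intro i c N
    induction N with
    | zero => exact fun y => rfl
    | succ N ih =>
      intro y
      rw [pow_succ, pow_succ, Module.End.mul_apply, Module.End.mul_apply, ih]
      rfl
  have h1 : (⟨x, hx⟩ : T) ∈ ⨆ χ : ι → ℂ, ⨅ i, (R i).maxGenEigenspace (χ i) := by
    rw [htop]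
    exact Submodule.mem_top
  have h2 : (⨆ χ : ι → ℂ, ⨅ i, (R i).maxGenEigenspace (χ i)) ≤
      (Submodule.span ℂ {y | y ∈ T ∧ ∃ m : ι → ℤ, ∀ i, A i y = (m i : ℂ) • y}).comap
        T.subtype := by
    refine iSup_le fun χ y hy => ?_
    rw [Module.End.mem_iInf_maxGenEigenspace_iff] at hy
    refine Submodule.subset_span ⟨y.2, ?_⟩
    have h3 : ∀ i, ∃ m : ℤ, A i y = (m : ℂ) • (y : X) := by
      intro i
      obtain ⟨N, hN⟩ := hy i
      refine hint i y (χ i) N ?_
      rw [← hpow, hN]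
      rfl
    choose m hm using h3
    exact ⟨m, hm⟩
  exact h2 h1

/-- Derivations of diagonal operators. -/
theorem der_int {H K : Type*} [AddCommGroup H] [Module ℂ H] (B : Module.Basis K ℂ H)
    (l : K → ℤ) (E : Module.End ℂ H) (hE : ∀ κ, E (B κ) = (l κ : ℂ) • B κ) (k : ℕ)
    (f : AForm H k) (c : ℂ) (N : ℕ)
    (h : ((der E k - c • (1 : Module.End ℂ (AForm H k))) ^ N) f = 0) :
    ∃ m : ℤ, der E k f = (m : ℂ) • f := by
  have h1 : ∀ (g : AForm H k) (v : Fin k → K), der E k g (fun i => B (v i)) =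
      ((∑ i, l (v i) : ℤ) : ℂ) * g fun i => B (v i) := by
    intro g v
    rw [der_apply]
    push_cast
    rw [Finset.sum_mul]
    refine Finset.sum_congr rfl fun i _ => ?_
    rw [hE, AlternatingMap.map_update_smul, Function.update_eq_self, smul_eq_mul]
  have h2 : ∀ (N : ℕ) (g : AForm H k) (v : Fin k → K),
      ((der E k - c • (1 : Module.End ℂ (AForm H k))) ^ N) g (fun i => B (v i)) =
      (((∑ i, l (v i) : ℤ) : ℂ) - c) ^ N * g fun i => B (v i) := by
    intro N
    induction N with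
    | zero =>
      intro g v
      rw [pow_zero, pow_zero, Module.End.one_apply, one_mul]
    | succ N ih =>
      intro g v
      rw [pow_succ, pow_succ, Module.End.mul_apply, ih, LinearMap.sub_apply,
        AlternatingMap.sub_apply, h1, LinearMap.smul_apply, Module.End.one_apply,
        AlternatingMap.smul_apply, smul_eq_mul]
      ring
  have hext : ∀ g g' : AForm H k, (∀ v : Fin k → K, (g fun i => B (v i)) = g' fun i => B (v i)) →
      g = g' := by
    intro g g' hg
    apply AlternatingMap.coe_multilinearMap_injective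
    exact Module.Basis.ext_multilinear (fun _ => B) hg
  have hpz : ∀ (a : ℂ) (N : ℕ), a ^ N = 0 → a = 0 := by
    intro a N h
    by_contra ha
    exact pow_ne_zero N ha h
  by_cases hf : f = 0
  · exact ⟨0, by rw [hf, map_zero, smul_zero]⟩
  obtain ⟨v, hv⟩ : ∃ v : Fin k → K, (f fun i => B (v i)) ≠ 0 := by
    by_contra hcon
    push Not at hcon
    exact hf (hext f 0 fun v => by rw [hcon v]; rfl)
  have h3 : ((∑ i, l (v i) : ℤ) : ℂ) = c := by
    have h4 := h2 N f v
    rw [h] at h4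
    rcases mul_eq_zero.1 h4.symm with h5 | h5
    · exact sub_eq_zero.1 (hpz _ _ h5)
    · exact absurd h5 hv
  refine ⟨∑ i, l (v i), ?_⟩
  rw [h3]
  refine hext _ _ fun w => ?_
  rw [h1, AlternatingMap.smul_apply, smul_eq_mul]
  by_cases hw : (f fun i => B (w i)) = 0
  · rw [hw, mul_zero, mul_zero]
  · have h4 := h2 N f w
    rw [h] at h4
    rcases mul_eq_zero.1 h4.symm with h5 | h5
    · rw [sub_eq_zero.1 (hpz _ _ h5)]
    · exact absurd h5 hw

variable {V : Type u} [AddCommGroup V] [Module ℂ V] [FiniteDimensional ℂ V]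
  {G : Set (Module.End ℂ V)} {ψ : V →ₗ[ℂ] V →ₗ[ℂ] ℂ}

/-- The skew elements of the double commutant. -/
def Lf (ψ : V →ₗ[ℂ] V →ₗ[ℂ] ℂ) (G : Set (Module.End ℂ V)) : Submodule ℂ (Module.End ℂ V) where
  carrier := {D | (∀ x y, ψ (D x) y + ψ x (D y) = 0) ∧
    ∀ z : Module.End ℂ V, (∀ e ∈ G, e * z = z * e) → D * z = z * D}
  add_mem' := by
    rintro a b ⟨ha, ha'⟩ ⟨hb, hb'⟩
    refine ⟨fun u v => ?_, fun T hT => ?_⟩
    · simp only [LinearMap.add_apply, map_add]
      linear_combination ha u v + hb u v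
    · rw [add_mul, mul_add, ha' T hT, hb' T hT]
  zero_mem' := by simp
  smul_mem' := by
    rintro c a ⟨ha, ha'⟩
    refine ⟨fun u v => ?_, fun T hT => ?_⟩
    · simp only [LinearMap.smul_apply, map_smul, smul_eq_mul]
      linear_combination c * ha u v
    · rw [smul_mul_assoc, mul_smul_comm, ha' T hT]

/-- The assumptions. -/
structure Su (ψ : V →ₗ[ℂ] V →ₗ[ℂ] ℂ) (G : Set (Module.End ℂ V)) : Prop where
  halt : ∀ x, ψ x x = 0
  hnd : ∀ x, (∀ y, ψ x y = 0) → x = 0
  hne : G.Nonempty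
  hGe : ∀ e ∈ G, e * e = e
  hGψ : ∀ e ∈ G, ∀ x y, ψ (e x) y + ψ x (e y) = ψ x y
  hss : Semisimple G
  hsd : ∀ W, Irreducible G W → Paired G W W → ∃ φ, FormOn G W φ
  hder : ∀ D, Adm ψ G D → D ∈ derivedSpan G

/-- The assumptions are satisfied if the irreducible subspaces are of certain kinds. -/
theorem Su.of_kind (halt : ∀ x, ψ x x = 0)
    (hnd : ∀ x, (∀ y, ψ x y = 0) → x = 0) (hne : G.Nonempty) (hGe : ∀ e ∈ G, e * e = e)
    (hGψ : ∀ e ∈ G, ∀ x y, ψ (e x) y + ψ x (e y) = ψ x y) (hss : Semisimple G)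
    (hkind : ∀ W, Irreducible G W → Module.finrank ℂ W = 1 ∨ KSp G W ∨ KSl G W) : Su ψ G :=
  ⟨halt, hnd, hne, hGe, hGψ, hss, form_of_kind hne hGe hss hkind,
    fun D h => (commutant_mixed hnd hGe hGψ hss hkind D).2 h⟩

theorem Su.gen (S : Su ψ G) {e : Module.End ℂ V} (he : e ∈ G) : (2 : ℂ) • e - 1 ∈ Lf ψ G :=
  span_props S.hGψ _ (Submodule.subset_span ⟨e, he, rfl⟩)

theorem Su.st (S : Su ψ G) {D : Module.End ℂ V} (hD : D ∈ Lf ψ G) {U : Submodule ℂ V}
    (hU : Stable G U) : ∀ u ∈ U, D u ∈ U :=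
  stable_of_comm S.hss hD.2 hU

/-- Elements of the double commutant commute with equivariant maps. -/
theorem Su.hm (S : Su ψ G) {D : Module.End ℂ V} (hD : D ∈ Lf ψ G) {U : Submodule ℂ V}
    (hU : Stable G U) {f : Module.End ℂ V} (hf : Hm G U f) : ∀ u ∈ U, D (f u) = f (D u) := by
  obtain ⟨p, hp, hpe⟩ := exists_proj S.hss hU
  intro u hu
  have h1 := hD.2 (f ∘ₗ U.subtype ∘ₗ p) (fun e he => by
    refine LinearMap.ext fun v => ?_
    change e (f (p v)) = f (p (e v))
    rw [← hf e he _ (p v).2, hpe e he v])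
  have h2 := LinearMap.congr_fun h1 u
  change D (f (p u)) = f (p (D u)) at h2
  rw [hp ⟨u, hu⟩, hp ⟨D u, S.st hD hU u hu⟩] at h2
  exact h2

/-- Commutators. -/
theorem Su.comm (S : Su ψ G) {D D' : Module.End ℂ V} (hD : D ∈ Lf ψ G) (hD' : D' ∈ Lf ψ G) :
    D * D' - D' * D ∈ derivedSpan G := by
  refine S.hder _ ⟨fun x y => ?_, fun z hz => ?_, fun W hW A hA => ?_⟩
  · simp only [LinearMap.sub_apply, map_sub, Module.End.mul_apply]
    linear_combination hD.1 (D' x) y - hD'.1 (D x) y - hD'.1 x (D y) + hD.1 x (D' y)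
  · rw [sub_mul, mul_sub, mul_assoc, hD'.2 z hz, ← mul_assoc, hD.2 z hz, mul_assoc,
      mul_assoc D', hD.2 z hz, ← mul_assoc D', hD'.2 z hz, mul_assoc z D' D]
  · obtain ⟨p, hp, hpe⟩ := exists_proj S.hss hW.1
    have h1 : A = rst p D * rst p D' - rst p D' * rst p D := by
      ext w
      rw [hA]
      change D (D' w) - D' (D w) = (rst p D (rst p D' w) : V) - (rst p D' (rst p D w) : V)
      rw [rst_apply hp (S.st hD hW.1), rst_apply hp (S.st hD' hW.1),
        rst_apply hp (S.st hD' hW.1), rst_apply hp (S.st hD hW.1)]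
    rw [h1, map_sub, LinearMap.trace_mul_comm, sub_self]

/-- The derived algebra annihilates simultaneous eigenvectors of the generators. -/
theorem derived_kill (n k : ℕ) (f : AForm (Fin n → V) k) (c : ℂ)
    (hf : ∀ e ∈ G, der (dg n e) k f = c • f) :
    ∀ x ∈ derivedSpan G, der (dg n x) k f = 0 := by
  have h4 : ∀ x ∈ lieSpan G, ∃ c : ℂ, der (dg n x) k f = c • f := by
    let g : Submodule ℂ (Module.End ℂ V) :=
      { carrier := {x | ∃ c : ℂ, der (dg n x) k f = c • f}
        add_mem' := by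
          rintro x y ⟨c, hc⟩ ⟨d, hd⟩
          exact ⟨c + d, by rw [map_add, der_add, hc, hd, add_smul]⟩
        zero_mem' := ⟨0, by rw [map_zero, der_zero', zero_smul]⟩
        smul_mem' := by
          rintro a x ⟨c, hc⟩
          exact ⟨a * c, by rw [map_smul, der_smul, hc, smul_smul]⟩ }
    refine fun x hx => (lieSpan_le (g := g) (fun e he => ⟨c, hf e he⟩) ?_) hx
    rintro x ⟨c, hc⟩ y ⟨d, hd⟩
    refine ⟨0, ?_⟩
    rw [map_sub, dg_mul, dg_mul, der_der, hc, hd, map_smul, map_smul, hc, hd, smul_comm,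
      sub_self, zero_smul]
  intro x hx
  unfold derivedSpan at hx
  induction hx using Submodule.span_induction with
  | mem z hz =>
    obtain ⟨a, ha, b, hb, rfl⟩ := hz
    obtain ⟨c, hc⟩ := h4 a ha
    obtain ⟨d, hd⟩ := h4 b hb
    rw [map_sub, dg_mul, dg_mul, der_der, hc, hd, map_smul, map_smul, hc, hd, smul_comm,
      sub_self]
  | zero => rw [map_zero, der_zero']
  | add x y _ _ hx hy => rw [map_add, der_add, hx, hy, add_zero]
  | smul c x _ hx => rw [map_smul, der_smul, hx, smul_zero]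

/-- The simultaneous eigenvectors of the generators. -/
def TC (G : Set (Module.End ℂ V)) (n k : ℕ) (c : ℂ) : Submodule ℂ (AForm (Fin n → V) k) where
  carrier := {f | ∀ e ∈ G, der (dg n e) k f = c • f}
  add_mem' := by
    intro f g hf hg e he
    rw [map_add, hf e he, hg e he, smul_add]
  zero_mem' := by
    intro e _
    rw [map_zero, smul_zero]
  smul_mem' := by
    intro a f hf e he
    rw [map_smul, hf e he, smul_comm]

theorem Su.stab (S : Su ψ G) (n k : ℕ) (c : ℂ) {D : Module.End ℂ V} (hD : D ∈ Lf ψ G)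
    {f : AForm (Fin n → V) k} (hf : f ∈ TC G n k c) : der (dg n D) k f ∈ TC G n k c := by
  intro e he
  have h1 := derived_kill n k f c hf _ (S.comm hD (S.gen he))
  have h2 : D * ((2 : ℂ) • e - 1) - ((2 : ℂ) • e - 1) * D = (2 : ℂ) • (D * e - e * D) := by
    rw [mul_sub, sub_mul, mul_smul_comm, smul_mul_assoc, mul_one, one_mul, smul_sub]
    abel
  rw [h2, map_smul, der_smul, map_sub, dg_mul, dg_mul, der_der, hf e he] at h1
  rcases smul_eq_zero.1 h1 with h3 | h3
  · norm_num at h3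
  · rw [sub_eq_zero.1 h3, map_smul]

theorem Su.dcomm (S : Su ψ G) (n k : ℕ) (c : ℂ) {D D' : Module.End ℂ V} (hD : D ∈ Lf ψ G)
    (hD' : D' ∈ Lf ψ G) {f : AForm (Fin n → V) k} (hf : f ∈ TC G n k c) :
    der (dg n D) k (der (dg n D') k f) = der (dg n D') k (der (dg n D) k f) := by
  have h1 := derived_kill n k f c hf _ (S.comm hD' hD)
  rw [map_sub, dg_mul, dg_mul, der_der] at h1
  exact sub_eq_zero.1 h1

section Basis

variable {T : Type} [Fintype T] [DecidableEq T] {I S : T → Type} [∀ t, Fintype (I t)]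
  [∀ t, DecidableEq (I t)] [∀ t, Fintype (S t)] [∀ t, DecidableEq (S t)]
  {sy : T → Bool} {W : T → Bool → Submodule ℂ V} {τ : ∀ t, S t → Bool → Module.End ℂ V}
  {x y : ∀ t, I t → V}

theorem en_b (b : Module.Basis (Idx I S) ℂ V) (t : T) (i : I t) (κ : Idx I S) :
    ∃ z : ℤ, en b t i i (b κ) = (z : ℂ) • b κ := by
  obtain ⟨t', i', s, ε⟩ := κ
  by_cases ht : t' = t
  · subst ht
    rw [en, LinearMap.sub_apply, el_eq, el_eq]
    by_cases hi : i' = i
    · subst hi
      cases ε with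
      | true => exact ⟨1, by simp⟩
      | false => exact ⟨-1, by simp⟩
    · exact ⟨0, by simp [hi]⟩
  · rw [en, LinearMap.sub_apply, el_ne _ _ _ _ _ _ _ ht, el_ne _ _ _ _ _ _ _ ht]
    exact ⟨0, by simp⟩

/-- Every eigenvector of the generators is a sum of simultaneous eigenvectors of the diagonal
operators. -/
theorem Su.eig (U : Su ψ G) {b : Module.Basis (Idx I S) ℂ V} (A : Ad ψ G sy b) (i : ∀ t, I t)
    (n k : ℕ) (c : ℂ) : TC G n k c ≤ Submodule.span ℂ {f | f ∈ TC G n k c ∧ ∃ m : T → ℤ,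
      ∀ t, der (dg n (en b t (i t) (i t))) k f = (m t : ℂ) • f} := by
  have : FiniteDimensional ℂ (AForm (Fin n → V) k) := finite_aform k
  have hen : ∀ t, en b t (i t) (i t) ∈ Lf ψ G := fun t =>
    ⟨A.en_skew U.halt t _ _, fun z hz => A.en_comm t _ _ z hz⟩
  refine joint_eigen (fun t => der (dg n (en b t (i t) (i t))) k) (TC G n k c)
    (fun t f hf => U.stab n k c (hen t) hf) (fun t t' f hf => U.dcomm n k c (hen t) (hen t') hf)
    fun t f a N h => ?_
  choose z hz using en_b b t (i t)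
  refine der_int (Pi.basis fun _ : Fin n => b) (fun κ => z κ.2) _ (fun κ => ?_) k f a N h
  rw [Pi.basis_apply]
  funext a
  rw [dg_apply, Pi.smul_apply]
  by_cases ha : a = κ.1
  · subst ha
    rw [Pi.single_eq_same]
    exact hz κ.2
  · rw [Pi.single_eq_of_ne ha, map_zero, smul_zero]

end Basis

end Pool.Agent.TateOdd
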