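import Pool.Agent.TateOdd.Inv

/-!
# The first fundamental theorem for mixed types: forms
-/

set_option autoImplicit false
set_option linter.unusedSectionVars false

universe u

namespace Pool.Agent.TateOdd

open Pool.Agent.OddRank
open Pool.Agent.GHCFull (NdOn Idx AForm wd ct der der_apply der_add der_smul der_eq_sum altFock core
  finite_aform dn up th th_alt Fock ct_smul ct_add Lw ct_apply)

variable {H : Type u} [AddCommGroup H] [Module ℂ H]

theorem der_zero' (k : ℕ) (ω : AForm H k) : der 0 k ω = 0 := by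
  have h := der_smul (0 : ℂ) (0 : H →ₗ[ℂ] H) k ω
  rw [zero_smul, zero_smul] at h
  exact h

theorem der_sum {ι : Type*} (s : Finset ι) (D : ι → (H →ₗ[ℂ] H)) (k : ℕ)
    (ω : AForm H k) : der (∑ i ∈ s, D i) k ω = ∑ i ∈ s, der (D i) k ω := by
  classical
  induction s using Finset.induction_on with
  | empty => rw [Finset.sum_empty, Finset.sum_empty, der_zero']
  | insert a s ha ih => rw [Finset.sum_insert ha, Finset.sum_insert ha, der_add, ih]

theorem der_sub (D E : H →ₗ[ℂ] H) (k : ℕ) (ω : AForm H k) :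
    der (D - E) k ω = der D k ω - der E k ω := by
  rw [sub_eq_add_neg, ← neg_one_smul ℂ E, der_add, der_smul, neg_one_smul, ← sub_eq_add_neg]

theorem hop_der {K : Type*} [Fintype K] [DecidableEq K] (b : Module.Basis K ℂ H)
    (α β : K) (k : ℕ) (ω : AForm H (k + 1)) :
    der ((b.coord α).smulRight (b β)) (k + 1) ω = wd (b.coord α) k (ct (b β) k ω) := by
  rw [der_eq_sum b, Finset.sum_eq_single α]
  · rw [LinearMap.smulRight_apply, Module.Basis.coord_apply, Module.Basis.repr_self,
      Finsupp.single_eq_same, one_smul]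
  · intro γ _ hγ
    rw [LinearMap.smulRight_apply, Module.Basis.coord_apply, Module.Basis.repr_self,
      Finsupp.single_eq_of_ne (Ne.symm hγ), zero_smul]
    have h0 : ct (0 : H) k ω = 0 := by
      have h := ct_smul (0 : ℂ) (0 : H) k ω
      rw [zero_smul, zero_smul] at h
      exact h
    rw [h0, map_zero]
  · intro h
    exact absurd (Finset.mem_univ _) h

/-- A form annihilated by all contractions is zero. -/
theorem vac {K : Type*} [Fintype K] (b : Module.Basis K ℂ H) (k : ℕ) (f : AForm H (k + 1))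
    (h : ∀ α, ct (b α) k f = 0) : f = 0 := by
  have h1 : ∀ x : H, ct x k f = 0 := by
    intro x
    have h2 : f.curryLeft = 0 := by
      refine b.ext fun α => ?_
      exact h α
    change f.curryLeft x = 0
    rw [h2]
    rfl
  ext v
  have h2 : v = Matrix.vecCons (v 0) (Fin.tail v) := by
    funext i
    refine Fin.cases ?_ (fun i => ?_) i
    · rfl
    · rfl
  rw [h2, ← ct_apply, h1]
  rfl

/-- The product with an element of `P`. -/
theorem prods_step {P : (H →ₗ[ℂ] H →ₗ[ℂ] ℂ) → Prop} {θ : H →ₗ[ℂ] H →ₗ[ℂ] ℂ} (hθ : P θ) (j : ℕ)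
    (L : AForm H (2 * j) →ₗ[ℂ] AForm H (2 * j + 2))
    (hL : ∀ (η : AForm H (2 * j)) (g : (Fin (2 * j) → H) → ℂ), (∀ v, η v = altf g v) →
      ∀ v : Fin (2 * j + 2) → H, 2 * L η v =
        altf (fun w => θ (w 0) (w 1) * g fun i => w i.succ.succ) v) :
    (prods P j).map L ≤ prods P (j + 1) := by
  unfold prods
  rw [Submodule.map_span_le]
  rintro η ⟨ω, hω, hη⟩
  have h1 := hL η (fun w => ∏ i : Fin j, ω i (w ⟨2 * i, by omega⟩)
      (w ⟨2 * i + 1, by omega⟩)) hη
  have h2 : L η = (1 / 2 : ℂ) • ((2 : ℂ) • L η) := by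
    rw [smul_smul]
    norm_num
  rw [h2]
  refine Submodule.smul_mem _ _ (Submodule.subset_span
    ⟨Fin.cons θ ω, fun i => ?_, fun w => ?_⟩)
  · refine Fin.cases ?_ (fun i => ?_) i
    · exact hθ
    · exact hω i
  · rw [AlternatingMap.smul_apply, smul_eq_mul, h1 w]
    unfold altf
    refine Finset.sum_congr rfl fun σ _ => ?_
    rw [Fin.prod_univ_succ]
    rfl

variable {T : Type} [Fintype T] [DecidableEq T] {I S : T → Type} [∀ t, Fintype (I t)]
  [∀ t, DecidableEq (I t)] [∀ t, Fintype (S t)] [∀ t, DecidableEq (S t)]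

/-- The product with the invariant two forms of the general linear Lie algebra. -/
noncomputable def LNw (b : Module.Basis (Idx I S) ℂ H) (t : T) (s s' : S t) (k : ℕ) :
    AForm H k →ₗ[ℂ] AForm H (k + 2) :=
  ∑ i : I t, wd (b.coord ⟨t, i, s, true⟩) (k + 1) ∘ₗ wd (b.coord ⟨t, i, s', false⟩) k

theorem LNw_altf (b : Module.Basis (Idx I S) ℂ H) (t : T) (s s' : S t) (k : ℕ) (η : AForm H k)
    (g : (Fin k → H) → ℂ) (h : ∀ v, η v = altf g v) (v : Fin (k + 2) → H) :
    2 * LNw b t s s' k η v =
      altf (fun w => thN b t s s' (w 0) (w 1) * g fun i => w i.succ.succ) v := by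
  have h1 : (fun w : Fin (k + 2) → H => thN b t s s' (w 0) (w 1) * g fun i => w i.succ.succ) =
      fun w => ∑ i : I t,
        ((b.coord ⟨t, i, s, true⟩ (w 0) * b.coord ⟨t, i, s', false⟩ (w 1) *
            g fun i => w i.succ.succ) +
          -(b.coord ⟨t, i, s', false⟩ (w 0) * b.coord ⟨t, i, s, true⟩ (w 1) *
            g fun i => w i.succ.succ)) := by
    funext w
    unfold thN
    rw [LinearMap.sum_apply, LinearMap.sum_apply, Finset.sum_mul]
    refine Finset.sum_congr rfl fun i _ => ?_
    simp only [LinearMap.sub_apply, LinearMap.smulRight_apply,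
      LinearMap.smul_apply, smul_eq_mul]
    ring
  rw [h1, altf_sum]
  unfold LNw
  rw [LinearMap.sum_apply, alt_sum_apply, Finset.mul_sum]
  refine Finset.sum_congr rfl fun i _ => ?_
  rw [altf_add, altf_neg,
    altf_swap (b.coord ⟨t, i, s, true⟩) (b.coord ⟨t, i, s', false⟩)]
  rw [LinearMap.comp_apply, wd_wd_altf _ _ k η g h]
  ring

/-- The first fundamental theorem in terms of an adapted basis. -/
theorem fft_ad [FiniteDimensional ℂ H] {ψ : H →ₗ[ℂ] H →ₗ[ℂ] ℂ} {G : Set (Module.End ℂ H)}
    {sy : T → Bool} {b : Module.Basis (Idx I S) ℂ H} (A : Ad ψ G sy b) (halt : ∀ x, ψ x x = 0)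
    (hψ : ∀ e ∈ G, ∀ x y, ψ (e x) y + ψ x (e y) = ψ x y) (j : ℕ) (f : AForm H (2 * j))
    (hen : ∀ t i i', der (en b t i i') (2 * j) f = 0)
    (hdn : ∀ t, sy t = true → ∀ i i', der (dn b t i i') (2 * j) f = 0)
    (hup : ∀ t, sy t = true → ∀ i i', der (up b t i i') (2 * j) f = 0) :
    f ∈ prods (Div G) j := by
  classical
  let instN (k : ℕ) : NormedAddCommGroup (AForm H k) :=
    @InnerProductSpace.Core.toNormedAddCommGroup ℂ _ _ _ _ (core b k)
  let instI (k : ℕ) : InnerProductSpace ℂ (AForm H k) :=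
    InnerProductSpace.ofCore (core b k).toCore
  have hhop : ∀ (α β : Idx I S) (k : ℕ) (w : AForm H k),
      (altFock b).hop α β k w = der ((b.coord α).smulRight (b β)) k w := by
    intro α β k w
    cases k with
    | zero => rfl
    | succ k => exact (hop_der b α β k w).symm
  have hX : ∀ t i i' k (w : AForm H k), (altFock b).X t i i' k w = der (dn b t i i') k w := by
    intro t i i' k w
    unfold dn
    rw [der_sum]
    unfold Fock.X
    rw [LinearMap.sum_apply]
    refine Finset.sum_congr rfl fun s _ => ?_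
    rw [LinearMap.add_apply, der_add, hhop, hhop]
  have hY : ∀ t i i' k (w : AForm H k), (altFock b).Y t i i' k w = der (up b t i i') k w := by
    intro t i i' k w
    unfold up
    rw [der_sum]
    unfold Fock.Y
    rw [LinearMap.sum_apply]
    refine Finset.sum_congr rfl fun s _ => ?_
    rw [LinearMap.add_apply, der_add, hhop, hhop]
  have hE : ∀ t i i' k (w : AForm H k), Ee (altFock b) t i i' k w = der (en b t i i') k w := by
    intro t i i' k w
    unfold en el
    rw [der_sub, der_sum, der_sum]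
    unfold Ee
    rw [LinearMap.sum_apply, ← Finset.sum_sub_distrib]
    refine Finset.sum_congr rfl fun s _ => ?_
    rw [LinearMap.sub_apply, hhop, hhop]
  have hmain : ∀ j, ∀ f ∈ Inv (altFock b) sy (2 * j), f ∈ prods (Div G) j := by
    intro j
    induction j with
    | zero => exact fun f _ => zero_mem_prods _ f
    | succ j ih =>
      intro f hf
      have h1 := Inv_le (altFock b) sy (fun k => finite_aform k) (fun k f h => vac b k f h)
        (2 * j) hf
      refine (iSup_le fun t => iSup_le fun s => iSup_le fun s' => ?_ :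
        (⨆ t, ⨆ s, ⨆ s', (Inv (altFock b) sy (2 * j)).map (L' (altFock b) sy t s s' (2 * j))) ≤
          prods (Div G) (j + 1)) h1
      refine (Submodule.map_mono ih).trans ?_
      cases ht : sy t with
      | true =>
        refine prods_step (A.th_div halt hψ t s s') j _ fun η g h v => ?_
        have h2 : L' (altFock b) sy t s s' (2 * j) = Lw b t s s' (2 * j) := by
          unfold L'
          rw [if_pos ht]
          rfl
        rw [h2]
        exact Lw_altf b t s s' (2 * j) η g h v
      | false =>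
        refine prods_step (A.thN_div halt hψ ht s s') j _ fun η g h v => ?_
        have h2 : L' (altFock b) sy t s s' (2 * j) = LNw b t s s' (2 * j) := by
          unfold L'
          rw [if_neg (by rw [ht]; simp)]
          rfl
        rw [h2]
        exact LNw_altf b t s s' (2 * j) η g h v
  refine hmain j f ⟨fun t i i' => ?_, fun t ht i i' => ⟨?_, ?_⟩⟩
  · rw [hE]
    exact hen t i i'
  · rw [hX]
    exact hdn t ht i i'
  · rw [hY]
    exact hup t ht i i'

/-- **First fundamental theorem.** A form annihilated by all skew elements of the double commutant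
of `G` is a sum of products of two forms of multiplier one, if all the self-dual irreducible
subspaces are symplectic. -/
theorem fft [FiniteDimensional ℂ H] {ψ : H →ₗ[ℂ] H →ₗ[ℂ] ℂ} (halt : ∀ x, ψ x x = 0)
    (hnd : ∀ x, (∀ y, ψ x y = 0) → x = 0) {G : Set (Module.End ℂ H)} (hne : G.Nonempty)
    (hG : ∀ e ∈ G, e * e = e) (hψ : ∀ e ∈ G, ∀ x y, ψ (e x) y + ψ x (e y) = ψ x y)
    (hss : Semisimple G) (hsd : ∀ W, Irreducible G W → Paired G W W → ∃ φ, FormOn G W φ)
    (j : ℕ) (f : AForm H (2 * j))
    (hf : ∀ D : Module.End ℂ H, (∀ x y, ψ (D x) y + ψ x (D y) = 0) →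
      (∀ z : Module.End ℂ H, (∀ e ∈ G, e * z = z * e) → D * z = z * D) → der D (2 * j) f = 0) :
    f ∈ prods (Div G) j := by
  obtain ⟨e, he⟩ := hne
  obtain ⟨T, _, _, I, S, _, _, _, _, sy, b, A⟩ := exists_ad halt hnd hψ hss hsd he (hG e he)
  refine fft_ad A halt hψ j f (fun t i i' => ?_) (fun t ht i i' => ?_) (fun t ht i i' => ?_)
  · exact hf _ (A.en_skew halt t i i') fun z hz => A.en_comm t i i' z hz
  · exact hf _ (A.dn_skew halt t i i') fun z hz => A.dn_comm ht i i' z hz
  · exact hf _ (A.up_skew halt t i i') fun z hz => A.up_comm ht i i' z hz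

end Pool.Agent.TateOdd
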