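import Pool.Agent.TateOdd.Center
import Pool.Agent.TateOdd.Fund

/-!
# Tate classes are sums of products of divisor classes if there are no relations
-/

set_option autoImplicit false
set_option linter.unusedSectionVars false

universe u

namespace Pool.Agent.TateOdd

open Pool.Agent.OddRank (Stable Irreducible Semisimple Equiv Iso exists_proj exists_family schur
  lieSpan subset_lieSpan lieSpan_lie lieSpan_le stable_span comm_span simil_span stable_of_comm
  comm_of_equiv FormOn)
open Pool.Agent.TypeIV (derivedSpan pair_irr)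
open Pool.Agent.TypeIV.MX (rst rst_apply rst_mul KSp KSl commutant_mixed)
open Pool.Agent.GHCFull (AForm der der_apply der_add der_smul der_one der_der)

variable {V : Type u} [AddCommGroup V] [Module ℂ V] [FiniteDimensional ℂ V]
  {G : Set (Module.End ℂ V)}

/-- A line is not self-dual. -/
theorem line_not_paired (hne : G.Nonempty) (hGe : ∀ e ∈ G, e * e = e) {W : Submodule ℂ V}
    (hW : Irreducible G W) (h1 : Module.finrank ℂ W = 1) : ¬ Paired G W W := by
  rintro ⟨φ, hφ, x, hx, y, hy, hxy⟩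
  obtain ⟨e, he⟩ := hne
  obtain ⟨w, hw0, hw⟩ := finrank_eq_one_iff'.1 h1
  obtain ⟨c, hc⟩ := hw ⟨e w, hW.1 e he w w.2⟩
  have hc' : e w = c • (w : V) := (congrArg Subtype.val hc).symm
  have hcc : c * c = c := by
    have h2 := LinearMap.congr_fun (hGe e he) (w : V)
    rw [Module.End.mul_apply, hc', map_smul, hc', smul_smul] at h2
    have h3 : (w : V) ≠ 0 := fun h => hw0 (Subtype.ext h)
    exact smul_left_injective ℂ h3 h2
  have hww : φ w w = 0 := by
    have h2 := hφ e he w w.2 w w.2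
    rw [hc', map_smul, map_smul, LinearMap.smul_apply, smul_eq_mul] at h2
    have h3 : (2 * c - 1) * φ w w = 0 := by linear_combination h2
    rcases mul_eq_zero.1 h3 with h4 | h4
    · exfalso
      have h5 : c = 1 / 2 := by linear_combination (1 / 2 : ℂ) * h4
      rw [h5] at hcc
      norm_num at hcc
    · exact h4
  apply hxy
  obtain ⟨a, ha⟩ := hw ⟨x, hx⟩
  obtain ⟨b, hb⟩ := hw ⟨y, hy⟩
  have ha' : x = a • (w : V) := (congrArg Subtype.val ha).symm
  have hb' : y = b • (w : V) := (congrArg Subtype.val hb).symm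
  rw [ha', hb', map_smul, map_smul, LinearMap.smul_apply, hww, smul_zero, smul_zero]

/-- Self-dual irreducible subspaces are symplectic. -/
theorem form_of_kind (hne : G.Nonempty) (hGe : ∀ e ∈ G, e * e = e) (hss : Semisimple G)
    (hkind : ∀ W, Irreducible G W → Module.finrank ℂ W = 1 ∨ KSp G W ∨ KSl G W) :
    ∀ W, Irreducible G W → Paired G W W → ∃ φ, FormOn G W φ := by
  intro W hW hP
  rcases hkind W hW with h | h | h
  · exact absurd hP (line_not_paired hne hGe hW h)
  · obtain ⟨φ, halt, hnd, hφ, -⟩ := h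
    obtain ⟨p, hp, hpe⟩ := exists_proj hss hW.1
    refine ⟨φ.compl₁₂ p p, ?_, ?_, ?_⟩
    · intro x _
      exact halt (p x)
    · intro x hx hxy
      have e1 : p x = ⟨x, hx⟩ := hp ⟨x, hx⟩
      have h1 : (⟨x, hx⟩ : W) = 0 := by
        apply hnd
        intro y
        have h2 := hxy y y.2
        rw [LinearMap.compl₁₂_apply, hp y, e1] at h2
        exact h2
      exact congrArg Subtype.val h1
    · intro e he x hx y hy
      simp only [LinearMap.compl₁₂_apply]
      refine hφ e he (p x) (p (e x)) (p y) (p (e y)) (hpe e he x) (hpe e he y)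
  · exfalso
    obtain ⟨φ, hφ, h0⟩ := hP
    exact h.2.1 ⟨φ, hφ.nd hW hW.1 h0, hφ⟩

/-- The property is inherited by powers. -/
theorem form_power (n : ℕ) (h : ∀ W, Irreducible G W → Paired G W W → ∃ φ, FormOn G W φ) :
    ∀ W, Irreducible (dg n '' G) W → Paired (dg n '' G) W W → ∃ φ, FormOn (dg n '' G) W φ := by
  intro W hW hP
  obtain ⟨a, ha, hinj⟩ := exists_coord n hW
  obtain ⟨s', hs'⟩ := LinearMap.exists_leftInverse_of_injective
    ((LinearMap.proj a : (Fin n → V) →ₗ[ℂ] V) ∘ₗ W.subtype)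
    (by
      rw [LinearMap.ker_eq_bot, injective_iff_map_eq_zero]
      intro w hw
      exact Subtype.ext (hinj w w.2 hw))
  set s : V →ₗ[ℂ] (Fin n → V) := W.subtype ∘ₗ s' with hs
  have hsw : ∀ w ∈ W, s (w a) = w := by
    intro w hw
    have h1 := LinearMap.congr_fun hs' ⟨w, hw⟩
    exact congrArg Subtype.val h1
  obtain ⟨φ, hφ, x, hx, y, hy, hxy⟩ := hP
  have hPU : Paired G (W.map (LinearMap.proj a : (Fin n → V) →ₗ[ℂ] V))
      (W.map (LinearMap.proj a : (Fin n → V) →ₗ[ℂ] V)) := by
    refine ⟨φ.compl₁₂ s s, ?_, x a, ⟨x, hx, rfl⟩, y a, ⟨y, hy, rfl⟩, ?_⟩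
    · rintro e he _ ⟨u, hu, rfl⟩ _ ⟨v, hv, rfl⟩
      simp only [LinearMap.compl₁₂_apply, LinearMap.proj_apply]
      have h1 : s (e (u a)) = dg n e u := hsw (dg n e u) (hW.1 _ ⟨e, he, rfl⟩ u hu)
      have h2 : s (e (v a)) = dg n e v := hsw (dg n e v) (hW.1 _ ⟨e, he, rfl⟩ v hv)
      rw [h1, h2, hsw u hu, hsw v hv]
      exact hφ _ ⟨e, he, rfl⟩ u hu v hv
    · rw [LinearMap.compl₁₂_apply, hsw x hx, hsw y hy]
      exact hxy
  obtain ⟨φ0, h1, h2, h3⟩ := h _ ha hPU
  refine ⟨cform n a φ0, ?_, ?_, ?_⟩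
  · intro x hx
    exact h1 _ ⟨x, hx, rfl⟩
  · intro x hx hy
    refine hinj x hx (h2 _ ⟨x, hx, rfl⟩ ?_)
    rintro _ ⟨y, hyW, rfl⟩
    exact hy y hyW
  · rintro _ ⟨e, he, rfl⟩ x hx y hy
    exact h3 e he _ ⟨x, hx, rfl⟩ _ ⟨y, hy, rfl⟩

/-- The double commutant of the diagonal action. -/
theorem exists_dg (n : ℕ) {ψ : V →ₗ[ℂ] V →ₗ[ℂ] ℂ} {D : Module.End ℂ (Fin n → V)}
    (hκ : ∀ x y, sform n ψ (D x) y + sform n ψ x (D y) = 0)
    (hcomm : ∀ T : Module.End ℂ (Fin n → V), (∀ e ∈ dg n '' G, e * T = T * e) → D * T = T * D) :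
    ∃ D' : Module.End ℂ V, D = dg n D' ∧ (0 < n → (∀ x y, ψ (D' x) y + ψ x (D' y) = 0) ∧
      ∀ T : Module.End ℂ V, (∀ e ∈ G, e * T = T * e) → D' * T = T * D') := by
  classical
  rcases Nat.eq_zero_or_pos n with rfl | hn
  · refine ⟨0, ?_, fun h => absurd h (lt_irrefl _)⟩
    exact LinearMap.ext fun w => funext fun a => a.elim0
  · let a0 : Fin n := ⟨0, hn⟩
    let D' : Module.End ℂ V := (LinearMap.proj a0) ∘ₗ D ∘ₗ (LinearMap.single ℂ (fun _ => V) a0)
    have hD' : ∀ x, D' x = D (Pi.single a0 x) a0 := fun x => rfl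
    -- matrix units
    let E : Fin n → Module.End ℂ (Fin n → V) := fun a =>
      (LinearMap.single ℂ (fun _ => V) a) ∘ₗ (LinearMap.proj a0)
    have hE : ∀ a w, E a w = Pi.single a (w a0) := fun a w => rfl
    have hEc : ∀ a, D * E a = E a * D := by
      intro a
      apply hcomm
      rintro _ ⟨e, he, rfl⟩
      refine LinearMap.ext fun w => ?_
      rw [Module.End.mul_apply, Module.End.mul_apply, hE, hE, dg_apply]
      funext b
      rw [dg_apply]
      by_cases hb : b = a
      · subst hb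
        rw [Pi.single_eq_same, Pi.single_eq_same]
      · rw [Pi.single_eq_of_ne hb, Pi.single_eq_of_ne hb, map_zero]
    have h1 : ∀ a x, D (Pi.single a x) = Pi.single a (D' x) := by
      intro a x
      have h2 := LinearMap.congr_fun (hEc a) (Pi.single a0 x)
      rw [Module.End.mul_apply, Module.End.mul_apply, hE, hE, Pi.single_eq_same] at h2
      exact h2
    have h2 : D = dg n D' := by
      refine LinearMap.ext fun w => ?_
      conv_lhs => rw [← Finset.univ_sum_single w]
      rw [map_sum]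
      simp only [h1]
      funext a
      rw [Finset.sum_apply, Finset.sum_eq_single a]
      · rw [Pi.single_eq_same, dg_apply]
      · intro b _ hb
        rw [Pi.single_eq_of_ne (Ne.symm hb)]
      · intro h
        exact absurd (Finset.mem_univ _) h
    refine ⟨D', h2, fun _ => ⟨fun x y => ?_, fun T hT => ?_⟩⟩
    · have h3 := hκ (Pi.single a0 x) (Pi.single a0 y)
      rw [h1, h1, sform_apply, sform_apply, Finset.sum_eq_single a0, Finset.sum_eq_single a0] at h3
      · simpa only [Pi.single_eq_same] using h3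
      · intro b _ hb
        rw [Pi.single_eq_of_ne hb, map_zero, LinearMap.zero_apply]
      · intro h
        exact absurd (Finset.mem_univ _) h
      · intro b _ hb
        rw [Pi.single_eq_of_ne hb, map_zero, LinearMap.zero_apply]
      · intro h
        exact absurd (Finset.mem_univ _) h
    · have h3 := hcomm (dg n T) (by
        rintro _ ⟨e, he, rfl⟩
        rw [← dg_mul, hT e he, dg_mul])
      refine LinearMap.ext fun x => ?_
      have h4 := congrFun (LinearMap.congr_fun h3 (Pi.single a0 x)) a0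
      rw [h2, Module.End.mul_apply, Module.End.mul_apply, dg_apply, dg_apply, dg_apply, dg_apply,
        Pi.single_eq_same] at h4
      exact h4

/-- **The first implication.** -/
theorem tate_of_noRel' {ψ : V →ₗ[ℂ] V →ₗ[ℂ] ℂ} (halt : ∀ x, ψ x x = 0)
    (hnd : ∀ x, (∀ y, ψ x y = 0) → x = 0) (hne : G.Nonempty) (hGe : ∀ e ∈ G, e * e = e)
    (hGψ : ∀ e ∈ G, ∀ x y, ψ (e x) y + ψ x (e y) = ψ x y) (hss : Semisimple G)
    (hsd : ∀ W, Irreducible G W → Paired G W W → ∃ φ, FormOn G W φ)
    (hder : ∀ D, Adm ψ G D → D ∈ derivedSpan G)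
    (hno : NoRel G) (n j : ℕ) (f : AForm (Fin n → V) (2 * j))
    (hf : ∀ e ∈ G, der (dg n e) (2 * j) f = (j : ℂ) • f) :
    f ∈ prods (Div (dg n '' G)) j := by
  refine fft (sform_alt n halt) (sform_nd n hnd) (hne.image _) ?_ (sform_mult n hGψ)
    (semisimple_dg n hss) (form_power n hsd) j f ?_
  · rintro _ ⟨e, he, rfl⟩
    rw [← dg_mul, hGe e he]
  · intro D hκ hcomm
    obtain ⟨D', rfl, hD'⟩ := exists_dg n hκ hcomm
    rcases Nat.eq_zero_or_pos n with rfl | hn
    · have h0 : dg 0 D' = 0 := by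
        exact LinearMap.ext fun w => funext fun a => a.elim0
      rw [h0]
      exact der_zero' _ f
    obtain ⟨h1, h2⟩ := hD' hn
    have h3 := lef_le' hnd hGe hGψ hss hder hno D' h1 h2
    -- the Lie algebra acts on `f` by scalars
    have h4 : ∀ x ∈ lieSpan G, ∃ c : ℂ, der (dg n x) (2 * j) f = c • f := by
      let g : Submodule ℂ (Module.End ℂ V) :=
        { carrier := {x | ∃ c : ℂ, der (dg n x) (2 * j) f = c • f}
          add_mem' := by
            rintro x y ⟨c, hc⟩ ⟨d, hd⟩
            exact ⟨c + d, by rw [map_add, der_add, hc, hd, add_smul]⟩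
          zero_mem' := ⟨0, by rw [map_zero, der_zero', zero_smul]⟩
          smul_mem' := by
            rintro a x ⟨c, hc⟩
            exact ⟨a * c, by rw [map_smul, der_smul, hc, smul_smul]⟩ }
      refine fun x hx => (lieSpan_le (g := g) (fun e he => ⟨j, hf e he⟩) ?_) hx
      rintro x ⟨c, hc⟩ y ⟨d, hd⟩
      refine ⟨0, ?_⟩
      rw [map_sub, dg_mul, dg_mul, der_der, hc, hd, map_smul, map_smul, hc, hd, smul_comm,
        sub_self, zero_smul]
    have h5 : ∀ x ∈ derivedSpan G, der (dg n x) (2 * j) f = 0 := by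
      intro x hx
      unfold derivedSpan at hx
      induction hx using Submodule.span_induction with
      | mem z hz =>
        obtain ⟨a, ha, b, hb, rfl⟩ := hz
        obtain ⟨c, hc⟩ := h4 a ha
        obtain ⟨d, hd⟩ := h4 b hb
        rw [map_sub, dg_mul, dg_mul, der_der, hc, hd, map_smul, map_smul, hc, hd, smul_comm,
          sub_self]
      | zero => rw [map_zero, der_zero']
      | add x y _ _ hx hy => rw [map_add, der_add, hx, hy, add_zero]
      | smul c x _ hx => rw [map_smul, der_smul, hx, smul_zero]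
    have h6 : ∀ x ∈ Submodule.span ℂ ((fun e : Module.End ℂ V => (2 : ℂ) • e - 1) '' G),
        der (dg n x) (2 * j) f = 0 := by
      intro x hx
      induction hx using Submodule.span_induction with
      | mem z hz =>
        obtain ⟨e, he, rfl⟩ := hz
        have h7 : dg n (1 : Module.End ℂ V) = 1 := rfl
        rw [map_sub, map_smul, h7, der_sub, der_smul, hf e he, der_one, smul_smul]
        push_cast
        rw [sub_self]
      | zero => rw [map_zero, der_zero']
      | add x y _ _ hx hy => rw [map_add, der_add, hx, hy, add_zero]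
      | smul c x _ hx => rw [map_smul, der_smul, hx, smul_zero]
    obtain ⟨x, hx, y, hy, rfl⟩ := Submodule.mem_sup.1 h3
    rw [map_add, der_add, h5 y hy, h6 x hx, add_zero]

theorem tate_of_noRel {ψ : V →ₗ[ℂ] V →ₗ[ℂ] ℂ} (halt : ∀ x, ψ x x = 0)
    (hnd : ∀ x, (∀ y, ψ x y = 0) → x = 0) (hne : G.Nonempty) (hGe : ∀ e ∈ G, e * e = e)
    (hGψ : ∀ e ∈ G, ∀ x y, ψ (e x) y + ψ x (e y) = ψ x y) (hss : Semisimple G)
    (hkind : ∀ W, Irreducible G W → Module.finrank ℂ W = 1 ∨ KSp G W ∨ KSl G W)
    (hno : NoRel G) (n j : ℕ) (f : AForm (Fin n → V) (2 * j))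
    (hf : ∀ e ∈ G, der (dg n e) (2 * j) f = (j : ℂ) • f) :
    f ∈ prods (Div (dg n '' G)) j :=
  tate_of_noRel' halt hnd hne hGe hGψ hss (form_of_kind hne hGe hss hkind)
    (fun D h => (commutant_mixed hnd hGe hGψ hss hkind D).2 h) hno n j f hf

end Pool.Agent.TateOdd
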