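import Pool.Agent.TateOdd.Basis
import Pool.Agent.GHCFull.S2b

/-!
# Existence of adapted bases
-/

set_option autoImplicit false
set_option linter.unusedSectionVars false

universe u

namespace Pool.Agent.TateOdd

open Pool.Agent.OddRank
open Pool.Agent.GHCFull (NdOn Idx exists_sympl)

variable {H : Type u} [AddCommGroup H] [Module ℂ H] [FiniteDimensional ℂ H]
variable {ψ : H →ₗ[ℂ] H →ₗ[ℂ] ℂ} {G : Set (Module.End ℂ H)}

theorem Blk.symm (halt : ∀ x, ψ x x = 0) {P Q : Submodule ℂ H} {b : Bool} (B : Blk ψ G P Q b) :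
    Blk ψ G Q P b where
  hP := B.hQ
  hQ := B.hP
  h0 := by
    obtain ⟨x, hx, y, hy, h⟩ := B.h0
    exact ⟨y, hy, x, hx, fun h' => h (by rw [skew_of_alt halt, h', neg_zero])⟩
  ht h := (B.ht h).symm
  hn h h' := B.hn h (Iso.symm B.hQ.1 h')
  hPP := B.hQQ
  hQQ := B.hPP

theorem hm_smul {W : Submodule ℂ H} {f : Module.End ℂ H} (hf : Hm G W f) (c : ℂ) :
    Hm G W (c • f) := by
  intro e he u hu
  rw [LinearMap.smul_apply, LinearMap.smul_apply, hf e he u hu, map_smul]

/-- Isomorphisms between blocks preserving the form. -/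
theorem exists_tau (hψ : ∀ e ∈ G, ∀ x y, ψ (e x) y + ψ x (e y) = ψ x y) {P0 Q0 P Q : Submodule ℂ H}
    {b : Bool} (B0 : Blk ψ G P0 Q0 b) (B : Blk ψ G P Q b) (hP : Iso G P0 P) (hQ : Iso G Q0 Q) :
    ∃ τ : Bool → Module.End ℂ H, Hm G P0 (τ true) ∧ Hm G Q0 (τ false) ∧
      (∀ u ∈ P0, τ true u ∈ P) ∧ (∀ u ∈ Q0, τ false u ∈ Q) ∧
      (∀ v ∈ P, ∃ u ∈ P0, τ true u = v) ∧ (∀ v ∈ Q, ∃ u ∈ Q0, τ false u = v) ∧
      (∀ u ∈ P0, ∀ v ∈ P0, ψ (τ true u) (τ true v) = ψ u v) ∧
      (∀ u ∈ P0, ∀ v ∈ Q0, ψ (τ true u) (τ false v) = ψ u v) ∧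
      (∀ u ∈ Q0, ∀ v ∈ Q0, ψ (τ false u) (τ false v) = ψ u v) ∧
      (b = true → τ true = τ false) := by
  cases b with
  | true =>
    have e1 := B0.ht rfl
    have e2 := B.ht rfl
    subst e1 e2
    obtain ⟨f, hf, hm, hinj, hsur⟩ := hm_of_iso B0.hP.1 hP
    have hβ : Inv2 G P0 P0 (ψ.compl₁₂ f f) := by
      intro e he x hx y hy
      change ψ (f (e x)) (f y) + ψ (f x) (f (e y)) = ψ (f x) (f y)
      rw [hf e he x hx, hf e he y hy]
      exact hψ e he _ _
    obtain ⟨c, hc⟩ := pair_unique B0.hP B0.hP (inv2_of_mult hψ _ _) B0.h0 hβ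
    have hc' : ∀ x ∈ P0, ∀ y ∈ P0, ψ (f x) (f y) = c * ψ x y := hc
    have hc0 : c ≠ 0 := by
      intro h0
      obtain ⟨x', hx', y', hy', hxy⟩ := B.h0
      obtain ⟨x, hx, rfl⟩ := hsur x' hx'
      obtain ⟨y, hy, rfl⟩ := hsur y' hy'
      exact hxy (by rw [hc' x hx y hy, h0, zero_mul])
    obtain ⟨d, hd⟩ := IsAlgClosed.exists_pow_nat_eq c (n := 2) (by norm_num)
    have hd0 : d ≠ 0 := by
      rintro rfl
      apply hc0
      rw [← hd]
      norm_num
    have hh : ∀ x ∈ P0, ∀ y ∈ P0, ψ ((d⁻¹ • f) x) ((d⁻¹ • f) y) = ψ x y := by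
      intro x hx y hy
      rw [LinearMap.smul_apply, LinearMap.smul_apply, map_smul, map_smul, LinearMap.smul_apply,
        hc' x hx y hy, smul_eq_mul, smul_eq_mul, ← hd]
      field_simp
    have hm' : ∀ u ∈ P0, (d⁻¹ • f) u ∈ P := fun u hu => P.smul_mem _ (hm u hu)
    have hs' : ∀ v ∈ P, ∃ u ∈ P0, (d⁻¹ • f) u = v := by
      intro v hv
      obtain ⟨u, hu, huv⟩ := hsur (d • v) (P.smul_mem _ hv)
      exact ⟨u, hu, by rw [LinearMap.smul_apply, huv, inv_smul_smul₀ hd0]⟩
    exact ⟨fun _ => d⁻¹ • f, hm_smul hf _, hm_smul hf _, hm', hm', hs', hs', hh, hh, hh,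
      fun _ => rfl⟩
  | false =>
    obtain ⟨f, hf, hm, hinj, hsur⟩ := hm_of_iso B0.hP.1 hP
    obtain ⟨f', hf', hm', hinj', hsur'⟩ := hm_of_iso B0.hQ.1 hQ
    have hβ : Inv2 G P0 Q0 (ψ.compl₁₂ f f') := by
      intro e he x hx y hy
      change ψ (f (e x)) (f' y) + ψ (f x) (f' (e y)) = ψ (f x) (f' y)
      rw [hf e he x hx, hf' e he y hy]
      exact hψ e he _ _
    obtain ⟨c, hc⟩ := pair_unique B0.hP B0.hQ (inv2_of_mult hψ _ _) B0.h0 hβ
    have hc' : ∀ x ∈ P0, ∀ y ∈ Q0, ψ (f x) (f' y) = c * ψ x y := hc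
    have hc0 : c ≠ 0 := by
      intro h0
      obtain ⟨x', hx', y', hy', hxy⟩ := B.h0
      obtain ⟨x, hx, rfl⟩ := hsur x' hx'
      obtain ⟨y, hy, rfl⟩ := hsur' y' hy'
      exact hxy (by rw [hc' x hx y hy, h0, zero_mul])
    refine ⟨fun ε => if ε then c⁻¹ • f else f', hm_smul hf _, hf',
      fun u hu => P.smul_mem _ (hm u hu), hm', ?_, hsur', ?_, ?_, ?_, fun h => by simp at h⟩
    · intro v hv
      obtain ⟨u, hu, huv⟩ := hsur (c • v) (P.smul_mem _ hv)
      refine ⟨u, hu, ?_⟩
      change (c⁻¹ • f) u = v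
      rw [LinearMap.smul_apply, huv, inv_smul_smul₀ hc0]
    · intro u hu v hv
      rw [B0.hPP rfl u hu v hv]
      exact B.hPP rfl _ (P.smul_mem _ (hm u hu)) _ (P.smul_mem _ (hm v hv))
    · intro u hu v hv
      change ψ ((c⁻¹ • f) u) (f' v) = ψ u v
      rw [LinearMap.smul_apply, map_smul, LinearMap.smul_apply, hc' u hu v hv, smul_eq_mul]
      field_simp
    · intro u hu v hv
      rw [B0.hQQ rfl u hu v hv]
      exact B.hQQ rfl _ (hm' u hu) _ (hm' v hv)

/-- Dual bases of a block. -/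
theorem exists_xy (halt : ∀ x, ψ x x = 0)
    (hψ : ∀ e ∈ G, ∀ x y, ψ (e x) y + ψ x (e y) = ψ x y) {e : Module.End ℂ H} (he : e ∈ G)
    (hee : e * e = e) {P Q : Submodule ℂ H} {b : Bool} (B : Blk ψ G P Q b) :
    ∃ (n : ℕ) (x y : Fin n → H), (∀ i, x i ∈ P) ∧ (∀ i, y i ∈ Q) ∧
      (∀ i j, ψ (x i) (y j) = if i = j then 1 else 0) ∧ (∀ i j, ψ (x i) (x j) = 0) ∧
      (∀ i j, ψ (y i) (y j) = 0) ∧
      (∀ u ∈ P, u = ∑ i, (ψ u (y i) • x i - ψ u (x i) • y i)) ∧
      ∀ u ∈ Q, u = ∑ i, (ψ u (y i) • x i - ψ u (x i) • y i) := by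
  cases b with
  | true =>
    have e1 := B.ht rfl
    subst e1
    have hnd : NdOn ψ P := (inv2_of_mult hψ P P).nd B.hP B.hP.1 B.h0
    obtain ⟨n, x, y, -, -, h1, h2, h3, h4⟩ :=
      exists_sympl halt hee (hψ e he) (U := P) (fun u hu => B.hP.1 e he u hu) hnd
    exact ⟨n, fun i => x i, fun i => y i, fun i => (x i).2, fun i => (y i).2, h1, h2, h3,
      fun u hu => h4 ⟨u, hu⟩, fun u hu => h4 ⟨u, hu⟩⟩
  | false =>
    have hl := (inv2_of_mult hψ P Q).nd B.hP B.hQ.1 B.h0
    have hr := (inv2_of_mult hψ P Q).nd_right B.hP.1 B.hQ B.h0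
    let bP := Module.finBasis ℂ P
    obtain ⟨P', hP'⟩ := Submodule.exists_isCompl P
    set q : H →ₗ[ℂ] P := P.projectionOnto P' hP' with hq
    have hqu : ∀ u : P, q u = u := fun u => Submodule.projectionOnto_apply_left hP' u
    obtain ⟨x0, hx0, y0, hy0, h0⟩ := B.h0
    have hrep : ∀ ξ : H →ₗ[ℂ] ℂ, ∃ y ∈ Q, ∀ x ∈ P, ψ x y = ξ x := by
      intro ξ
      obtain ⟨ρ, h1, h2⟩ := exists_rho (inv2_of_mult hψ P Q) B.hP B.hQ B.h0
        (ξ.smulRight (ψ x0))
      refine ⟨ρ ((ψ x0 y0)⁻¹ • y0), h1 _, fun x hx => ?_⟩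
      rw [← h2 x hx, LinearMap.smulRight_apply, LinearMap.smul_apply, map_smul, smul_eq_mul,
        smul_eq_mul, inv_mul_cancel₀ h0, mul_one]
    choose y hyQ hy using fun j => hrep (bP.coord j ∘ₗ q)
    have hxy : ∀ i j, ψ (bP i) (y j) = if i = j then 1 else 0 := by
      intro i j
      rw [hy j _ (bP i).2, LinearMap.comp_apply, hqu, Module.Basis.coord_apply,
        Module.Basis.repr_self, Finsupp.single_apply]
    refine ⟨_, fun i => bP i, y, fun i => (bP i).2, hyQ, hxy,
      fun i j => B.hPP rfl _ (bP i).2 _ (bP j).2, fun i j => B.hQQ rfl _ (hyQ i) _ (hyQ j),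
      ?_, ?_⟩
    · intro u hu
      have h1 : u = ∑ i, (bP.repr ⟨u, hu⟩ i) • (bP i : H) := by
        have h := congrArg (fun w : P => (w : H)) (bP.sum_repr ⟨u, hu⟩)
        simp only [AddSubmonoidClass.coe_finsetSum, SetLike.val_smul] at h
        exact h.symm
      conv_lhs => rw [h1]
      refine Finset.sum_congr rfl fun i _ => ?_
      rw [B.hPP rfl u hu _ (bP i).2, zero_smul, sub_zero, hy i u hu, LinearMap.comp_apply,
        hqu ⟨u, hu⟩]
      rfl
    · intro u hu
      rw [← sub_eq_zero]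
      set w : H := u - ∑ i, (ψ u (y i) • (bP i : H) - ψ u (bP i) • y i) with hw
      have h1 : ∀ i, ψ u (y i) = 0 := fun i => B.hQQ rfl u hu _ (hyQ i)
      have hw' : w = u + ∑ i, ψ u (bP i) • y i := by
        rw [hw, sub_eq_add_neg, ← Finset.sum_neg_distrib]
        congr 1
        refine Finset.sum_congr rfl fun i _ => ?_
        rw [h1, zero_smul, zero_sub, neg_neg]
      have hwQ : w ∈ Q := by
        rw [hw']
        exact Q.add_mem hu (Q.sum_mem fun i _ => Q.smul_mem _ (hyQ i))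
      refine hr w hwQ fun x hx => ?_
      have h2 : ∀ j, ψ (bP j) w = 0 := by
        intro j
        rw [hw', map_add, map_sum]
        simp only [map_smul, smul_eq_mul, hxy, mul_ite, mul_one, mul_zero, Finset.sum_ite_eq,
          Finset.mem_univ, if_true]
        rw [skew_of_alt halt u]
        ring
      have h3 : x = ∑ i, (bP.repr ⟨x, hx⟩ i) • (bP i : H) := by
        have h := congrArg (fun w : P => (w : H)) (bP.sum_repr ⟨x, hx⟩)
        simp only [AddSubmonoidClass.coe_finsetSum, SetLike.val_smul] at h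
        exact h.symm
      rw [h3, map_sum, LinearMap.sum_apply]
      refine Finset.sum_eq_zero fun i _ => ?_
      rw [map_smul, LinearMap.smul_apply, h2, smul_zero]

/-- The two subspaces of a block. -/
def side (P Q : Submodule ℂ H) (ε : Bool) : Submodule ℂ H := if ε then P else Q

theorem Blk.side {P Q : Submodule ℂ H} {b : Bool} (B : Blk ψ G P Q b) (ε : Bool) :
    Irreducible G (side P Q ε) := by
  cases ε with
  | true => exact B.hP
  | false => exact B.hQ

theorem Blk.pair (halt : ∀ x, ψ x x = 0)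
    (hψ : ∀ e ∈ G, ∀ x y, ψ (e x) y + ψ x (e y) = ψ x y) {P Q : Submodule ℂ H} {b : Bool}
    (B : Blk ψ G P Q b) (ε : Bool) : Paired G (TateOdd.side P Q ε) (TateOdd.side P Q (!ε)) := by
  cases ε with
  | true => exact ⟨ψ, inv2_of_mult hψ _ _, B.h0⟩
  | false => exact ⟨ψ, inv2_of_mult hψ _ _, (B.symm halt).h0⟩

theorem Blk.iso_iff {P Q : Submodule ℂ H} {b : Bool} (B : Blk ψ G P Q b) :
    b = true ↔ Iso G P Q := by
  constructor
  · intro h
    rw [B.ht h]
    exact Iso.refl _
  · intro h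
    by_contra hb
    exact B.hn (Bool.eq_false_of_not_eq_true hb) h

/-- All the subspaces isomorphic to one of the two subspaces of the block. -/
def key (G : Set (Module.End ℂ H)) (P Q : Submodule ℂ H) (W : Submodule ℂ H) : Prop :=
  ∃ δ, Iso G (side P Q δ) W

/-- If some sides of two blocks are dual, the blocks are of the same class. -/
theorem key_of_pair (halt : ∀ x, ψ x x = 0)
    (hψ : ∀ e ∈ G, ∀ x y, ψ (e x) y + ψ x (e y) = ψ x y) {P Q P' Q' : Submodule ℂ H}
    {b b' : Bool} (B : Blk ψ G P Q b) (B' : Blk ψ G P' Q' b') {ε ε' : Bool}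
    (h : Paired G (side P Q ε) (side P' Q' ε')) : key G P Q = key G P' Q' := by
  have key1 : ∀ {P Q P' Q' : Submodule ℂ H} {b b' : Bool}, Blk ψ G P Q b → Blk ψ G P' Q' b' →
      ∀ {ε ε' : Bool}, Paired G (side P Q ε) (side P' Q' ε') →
      ∀ W, key G P Q W → key G P' Q' W := by
    intro P Q P' Q' b b' B B' ε ε' h W hW
    have h1 : Iso G (side P' Q' ε') (side P Q (!ε)) :=
      Paired.iso (B.side ε) (B.side (!ε)) (B'.side ε') (B.pair halt hψ ε) h
    have h2 : Iso G (side P Q ε) (side P' Q' (!ε')) :=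
      Paired.iso (B'.side ε') (B'.side (!ε')) (B.side ε) (B'.pair halt hψ ε') h.symm
    obtain ⟨δ, hδ⟩ := hW
    by_cases hd : δ = ε
    · subst hd
      exact ⟨!ε', Iso.trans (Iso.symm (B.side δ).1 h2) hδ⟩
    · have hd' : δ = !ε := by
        revert hd
        cases δ <;> cases ε <;> simp
      subst hd'
      exact ⟨ε', Iso.trans h1 hδ⟩
  funext W
  exact propext ⟨key1 B B' h W, key1 B' B h.symm W⟩

/-- Blocks of the same class are isomorphic, up to orientation. -/
theorem orient (halt : ∀ x, ψ x x = 0)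
    (hψ : ∀ e ∈ G, ∀ x y, ψ (e x) y + ψ x (e y) = ψ x y) {P Q P' Q' : Submodule ℂ H}
    {b b' : Bool} (B : Blk ψ G P Q b) (B' : Blk ψ G P' Q' b') (h : key G P' Q' = key G P Q) :
    ∃ o : Bool, Iso G P (side P' Q' o) ∧ Iso G Q (side P' Q' (!o)) := by
  have h1 : key G P' Q' P := by
    rw [h]
    exact ⟨true, Iso.refl _⟩
  obtain ⟨o, ho⟩ := h1
  have h2 : Iso G P (side P' Q' o) := Iso.symm (B'.side o).1 ho
  refine ⟨o, h2, ?_⟩
  have h3 : Paired G P (side P' Q' (!o)) := (B'.pair halt hψ o).of_iso B.hP.1 h2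
  exact Paired.iso B.hP (B'.side (!o)) B.hQ h3 (B.pair halt hψ true)

theorem kind_eq (halt : ∀ x, ψ x x = 0)
    (hψ : ∀ e ∈ G, ∀ x y, ψ (e x) y + ψ x (e y) = ψ x y) {P Q P' Q' : Submodule ℂ H}
    {b b' : Bool} (B : Blk ψ G P Q b) (B' : Blk ψ G P' Q' b') (h : key G P' Q' = key G P Q) :
    b' = b := by
  obtain ⟨o, h1, h2⟩ := orient halt hψ B B' h
  have h3 : Iso G P Q ↔ Iso G P' Q' := by
    constructor
    · intro h
      have h4 : Iso G (side P' Q' o) (side P' Q' (!o)) :=
        Iso.trans (Iso.symm B.hP.1 h1) (Iso.trans h h2)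
      cases o with
      | true => exact h4
      | false => exact Iso.symm B'.hQ.1 h4
    · intro h
      refine Iso.trans h1 (Iso.trans ?_ (Iso.symm B.hQ.1 h2))
      cases o with
      | true => exact h
      | false => exact Iso.symm B'.hP.1 h
  rw [← B.iso_iff, ← B'.iso_iff] at h3
  cases b <;> cases b' <;> simp at h3 ⊢

theorem side_sup_le {P Q : Submodule ℂ H} (ε : Bool) : side P Q ε ≤ P ⊔ Q := by
  cases ε with
  | true => exact le_sup_left
  | false => exact le_sup_right

/-- Existence of the data for adapted bases. -/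
theorem exists_pre (halt : ∀ x, ψ x x = 0) (hnd : ∀ x, (∀ y, ψ x y = 0) → x = 0)
    (hψ : ∀ e ∈ G, ∀ x y, ψ (e x) y + ψ x (e y) = ψ x y) (hss : Semisimple G)
    (hsd : ∀ W, Irreducible G W → Paired G W W → ∃ φ, FormOn G W φ)
    {e : Module.End ℂ H} (he : e ∈ G) (hee : e * e = e) :
    ∃ (T : Type) (_ : Fintype T) (_ : DecidableEq T) (I S : T → Type)
      (_ : ∀ t, Fintype (I t)) (_ : ∀ t, DecidableEq (I t)) (_ : ∀ t, Fintype (S t))
      (_ : ∀ t, DecidableEq (S t)) (sy : T → Bool) (W : T → Bool → Submodule ℂ H)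
      (τ : ∀ t, S t → Bool → Module.End ℂ H) (x y : ∀ t, I t → H),
      Pre ψ G sy W τ x y ∧ (∀ t, Nonempty (S t)) ∧ (∀ t ε, ∀ u ∈ W t ε,
        u = ∑ i, (ψ u (y t i) • x t i - ψ u (x t i) • y t i)) := by
  classical
  obtain ⟨r, P, Q, β, B, horth, hsup⟩ := exists_blocks halt hnd hψ hss hsd
  let R : Setoid (Fin r) := Setoid.ker fun s => key G (P s) (Q s)
  let T : Type := Quotient R
  let S : T → Type := fun t => {s : Fin r // Quotient.mk R s = t}
  have : Fintype T := Fintype.ofFinite _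
  have : ∀ t, Fintype (S t) := fun t => Fintype.ofFinite _
  have hkey : ∀ (t : T) (s : S t), key G (P s.1) (Q s.1) = key G (P t.out) (Q t.out) := by
    intro t s
    have h1 : Quotient.mk R s.1 = Quotient.mk R t.out := by
      rw [Quotient.out_eq, s.2]
    exact Quotient.exact h1
  choose n x y hx hy hxy hxx hyy hexP hexQ using fun t : T =>
    exists_xy halt hψ he hee (B t.out)
  have hβ : ∀ (t : T) (s : S t), β s.1 = β t.out := fun t s =>
    kind_eq halt hψ (B t.out) (B s.1) (hkey t s)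
  choose o ho1 ho2 using fun (t : T) (s : S t) =>
    orient halt hψ (B t.out) (B s.1) (hkey t s)
  have hB : ∀ (t : T) (s : S t), Blk ψ G (side (P s.1) (Q s.1) (o t s))
      (side (P s.1) (Q s.1) (!(o t s))) (β t.out) := by
    intro t s
    rw [← hβ t s]
    cases o t s with
    | true => exact B s.1
    | false => exact (B s.1).symm halt
  choose τ hτ1 hτ2 hm1 hm2 hs1 hs2 hi1 hi2 hi3 hS using fun (t : T) (s : S t) =>
    exists_tau hψ (B t.out) (hB t s) (ho1 t s) (ho2 t s)
  have hside : ∀ (t : T) (s : S t) (ε : Bool), ∀ u ∈ side (P t.out) (Q t.out) ε,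
      τ t s ε u ∈ P s.1 ⊔ Q s.1 := by
    intro t s ε u hu
    cases ε with
    | true => exact side_sup_le _ (hm1 t s u hu)
    | false => exact side_sup_le _ (hm2 t s u hu)
  have D : Pre (I := fun t => Fin (n t)) ψ G (fun t : T => β t.out)
      (fun (t : T) (ε : Bool) => side (P t.out) (Q t.out) ε) τ x y :=
    { halt := halt
      hnd := hnd
      hψ := hψ
      hirr := fun t ε => (B t.out).side ε
      hτ := by
        intro t s ε
        cases ε with
        | true => exact hτ1 t s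
        | false => exact hτ2 t s
      hi := by
        intro t s ε ε' u hu v hv
        cases ε with
        | true =>
          cases ε' with
          | true => exact hi1 t s u hu v hv
          | false => exact hi2 t s u hu v hv
        | false =>
          cases ε' with
          | true =>
            rw [skew_of_alt halt, skew_of_alt halt u v, hi2 t s v hv u hu]
          | false => exact hi3 t s u hu v hv
      horth := by
        intro t s t' s' h ε ε' u hu v hv
        refine horth s.1 s'.1 ?_ _ (hside t s ε u hu) _ (hside t' s' ε' v hv)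
        intro h1
        apply h
        obtain ⟨s, rfl⟩ := s
        obtain ⟨s', rfl⟩ := s'
        simp only at h1
        subst h1
        rfl
      hsup := by
        intro V hV
        rw [eq_top_iff, ← hsup]
        refine iSup_le fun s => ?_
        have h1 : ∀ v ∈ side (P s) (Q s) (o (Quotient.mk R s) ⟨s, rfl⟩), v ∈ V := by
          intro v hv
          obtain ⟨u, hu, rfl⟩ := hs1 (Quotient.mk R s) ⟨s, rfl⟩ v hv
          exact hV (Quotient.mk R s) ⟨s, rfl⟩ true u hu
        have h2 : ∀ v ∈ side (P s) (Q s) (!(o (Quotient.mk R s) ⟨s, rfl⟩)), v ∈ V := by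
          intro v hv
          obtain ⟨u, hu, rfl⟩ := hs2 (Quotient.mk R s) ⟨s, rfl⟩ v hv
          exact hV (Quotient.mk R s) ⟨s, rfl⟩ false u hu
        revert h1 h2
        cases o (Quotient.mk R s) ⟨s, rfl⟩ with
        | true => exact fun h1 h2 => sup_le h1 h2
        | false => exact fun h1 h2 => sup_le h2 h1
      hx := hx
      hy := hy
      xy := hxy
      xx := hxx
      yy := hyy
      ex := by
        intro t s ε u hu
        have h1 : u = ∑ i, (ψ u (y t i) • x t i - ψ u (x t i) • y t i) := by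
          cases ε with
          | true => exact hexP t u hu
          | false => exact hexQ t u hu
        conv_lhs => rw [h1]
        rw [map_sum]
        refine Finset.sum_congr rfl fun i _ => ?_
        rw [map_sub, map_smul, map_smul]
        cases hb : β t.out with
        | true =>
          have h2 := hS t s hb
          cases ε with
          | true => rw [h2]
          | false => rw [h2]
        | false =>
          cases ε with
          | true => rw [(B t.out).hPP hb u hu _ (hx t i), zero_smul, zero_smul]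
          | false => rw [(B t.out).hQQ hb u hu _ (hy t i), zero_smul, zero_smul]
      h0 := fun t => (B t.out).h0
      hpair := by
        intro t t' ε ε' h
        have h1 : t = t' := by
          have h2 := key_of_pair halt hψ (B t.out) (B t'.out) h
          have h3 : Quotient.mk R t.out = Quotient.mk R t'.out := Quotient.sound h2
          rwa [Quotient.out_eq, Quotient.out_eq] at h3
        refine ⟨h1, ?_⟩
        subst h1
        intro hb
        by_contra hε
        have h2 : ε' = ε := by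
          revert hε
          cases ε <;> cases ε' <;> simp
        subst h2
        have h3 : Iso G (side (P t.out) (Q t.out) ε') (side (P t.out) (Q t.out) (!ε')) :=
          Paired.iso ((B t.out).side ε') ((B t.out).side (!ε')) ((B t.out).side ε')
            ((B t.out).pair halt hψ ε') h
        apply (B t.out).hn hb
        cases ε' with
        | true => exact h3
        | false => exact Iso.symm (B t.out).hQ.1 h3
      hS := fun t hb => ⟨(B t.out).ht hb, fun s => hS t s hb⟩ }
  refine ⟨T, inferInstance, inferInstance, fun t => Fin (n t), S, fun t => inferInstance,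
    fun t => inferInstance, fun t => inferInstance, fun t => inferInstance,
    fun t : T => β t.out, _, τ, x, y, D, fun t => ⟨⟨t.out, Quotient.out_eq t⟩⟩, ?_⟩
  intro t ε u hu
  cases ε with
  | true => exact hexP t u hu
  | false => exact hexQ t u hu

/-- Existence of adapted bases. -/
theorem exists_ad (halt : ∀ x, ψ x x = 0) (hnd : ∀ x, (∀ y, ψ x y = 0) → x = 0)
    (hψ : ∀ e ∈ G, ∀ x y, ψ (e x) y + ψ x (e y) = ψ x y) (hss : Semisimple G)
    (hsd : ∀ W, Irreducible G W → Paired G W W → ∃ φ, FormOn G W φ)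
    {e : Module.End ℂ H} (he : e ∈ G) (hee : e * e = e) :
    ∃ (T : Type) (_ : Fintype T) (_ : DecidableEq T) (I S : T → Type)
      (_ : ∀ t, Fintype (I t)) (_ : ∀ t, DecidableEq (I t)) (_ : ∀ t, Fintype (S t))
      (_ : ∀ t, DecidableEq (S t)) (sy : T → Bool) (b : Module.Basis (Idx I S) ℂ H),
      Ad ψ G sy b := by
  obtain ⟨T, _, _, I, S, _, _, _, _, sy, W, τ, x, y, D, -, -⟩ :=
    exists_pre halt hnd hψ hss hsd he hee
  exact ⟨T, inferInstance, inferInstance, I, S, inferInstance, inferInstance, inferInstance,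
    inferInstance, sy, D.dual.basis, D.ad⟩

end Pool.Agent.TateOdd
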