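import Pool.Agent.TateOdd.E4

/-!
# The structure of Tate classes: assembly
-/

set_option autoImplicit false
set_option linter.unusedSectionVars false

universe u

namespace Pool.Agent.TateOdd

open Pool.Agent.OddRank (Stable Irreducible Semisimple Equiv Iso exists_proj exists_family schur
  lieSpan subset_lieSpan lieSpan_lie lieSpan_le stable_span comm_span simil_span stable_of_comm
  comm_of_equiv FormOn)
open Pool.Agent.TypeIV (derivedSpan pair_irr)
open Pool.Agent.TypeIV.MX (rst rst_apply rst_mul KSp KSl commutant_mixed)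
open Pool.Agent.GHCFull (AForm der der_apply der_add der_smul der_one der_der Idx finite_aform
  wd ct)

variable {V : Type u} [AddCommGroup V] [Module ℂ V] [FiniteDimensional ℂ V]
  {G : Set (Module.End ℂ V)} {ψ : V →ₗ[ℂ] V →ₗ[ℂ] ℂ}
variable {T : Type} [Fintype T] [DecidableEq T] {I S : T → Type} [∀ t, Fintype (I t)]
  [∀ t, DecidableEq (I t)] [∀ t, Fintype (S t)] [∀ t, DecidableEq (S t)]
  {sy : T → Bool} {W : T → Bool → Submodule ℂ V} {τ : ∀ t, S t → Bool → Module.End ℂ V}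
  {x y : ∀ t, I t → V}

theorem Pre.h0' (P : Pre ψ G sy W τ x y) (t : T) (ε : Bool) :
    ∃ u ∈ W t ε, ∃ v ∈ W t (!ε), ψ u v ≠ 0 := by
  obtain ⟨u, hu, v, hv, h⟩ := P.h0 t
  cases ε with
  | true => exact ⟨u, hu, v, hv, h⟩
  | false => exact ⟨v, hv, u, hu, fun h' => h (by rw [skew_of_alt P.halt, h', neg_zero])⟩

theorem Pre.term (P : Pre ψ G sy W τ x y) (hex : Exp ψ W x y) {n M : ℕ} (tt : Fin M → T)
    (ee : Fin M → Bool) (htt : ∀ a, sy (tt a) = false) (hee : ∀ a b, tt a = tt b → ee a = ee b)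
    {d : ℕ} (E : Fin (2 * d) ≃ Σ a : Fin M, I (tt a))
    (hrel : ∀ e ∈ G, 2 * ∑ a, Module.finrank ℂ ((W (tt a) (!(ee a))).map e) =
      ∑ a, Module.finrank ℂ (W (tt a) (!(ee a))))
    {j l : ℕ} (hl : 2 * l + 2 * d = 2 * j) {z : (Fin (n + M) → V) →ₗ[ℂ] (Fin (n + M) → V) →ₗ[ℂ] ℂ}
    (hz : Div (dg (n + M) '' G) z) :
    WeilTerm G n (2 * j) (((LL (z.compl₁₂ (inL V n M) (inL V n M)) ^ l)
        (WDn (2 * d) (fun r => z (uu tt ee x y n (E r)) ∘ₗ inL V n M) one')) (2 * j)) := by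
  classical
  have hρ := fun a : Fin M => exists_rho2 (inv2_of_mult P.hψ (W (tt a) (ee a))
    (W (tt a) (!(ee a)))) (P.hirr (tt a) (ee a)) (P.hirr (tt a) (!(ee a))) (P.h0' (tt a) (ee a))
    (z.compl₁₂ (LinearMap.single ℂ (fun _ => V) (Fin.natAdd n a)) (inL V n M))
  choose ρ hρ1 hρ2 using hρ
  have hρ3 : ∀ (a : Fin M) (v : V), v ∈ W (tt a) (ee a) → ∀ w : Fin n → V,
      z (Pi.single (Fin.natAdd n a) v) (inL V n M w) = ψ v (ρ a w) :=
    fun a v hv w => hρ2 a v hv w
  have hzg : ∀ g ∈ G, ∀ a b : Fin (n + M) → V,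
      z (dg (n + M) g a) b + z a (dg (n + M) g b) = z a b :=
    fun g hg a b => hz.2 _ ⟨g, hg, rfl⟩ a b
  have heq : ∀ (a : Fin M), ∀ e ∈ G, ∀ w, ρ a (dg n e w) = e (ρ a w) := by
    intro a e he w
    rw [← sub_eq_zero]
    refine (inv2_of_mult P.hψ (W (tt a) (ee a)) (W (tt a) (!(ee a)))).nd_right
      (P.hirr (tt a) (ee a)).1 (P.hirr (tt a) (!(ee a))) (P.h0' (tt a) (ee a)) _
      (Submodule.sub_mem _ (hρ1 a _) ((P.hirr (tt a) (!(ee a))).1 e he _ (hρ1 a _))) fun v hv => ?_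
    have h1 := hρ3 a v hv (dg n e w)
    have h2 := hρ3 a v hv w
    have h3 := hρ3 a (e v) ((P.hirr (tt a) (ee a)).1 e he v hv) w
    have h4 := P.hψ e he v (ρ a w)
    have h5 := hzg e he (Pi.single (Fin.natAdd n a) v) (inL V n M w)
    rw [dg_single, ← inL_dg] at h5
    rw [map_sub]
    linear_combination -h1 + h5 + h2 - h3 - h4
  let h : (Fin n → V) →ₗ[ℂ] (Fin M → V) := LinearMap.pi ρ
  let ζ : Fin (2 * d) → ((Fin M → V) →ₗ[ℂ] ℂ) := fun r =>
    ψ (wv x y (tt (E r).1) (ee (E r).1) (E r).2) ∘ₗ LinearMap.proj (E r).1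
  have hζ : (fun r => z (uu tt ee x y n (E r)) ∘ₗ inL V n M) = fun r => ζ r ∘ₗ h := by
    funext r
    refine LinearMap.ext fun w => ?_
    exact hρ3 (E r).1 _ (P.wv_mem _ _ _) w
  let θ : AForm (Fin M → V) (2 * d) :=
    ((((2 * d).factorial : ℕ) : ℂ)⁻¹) • WDn (2 * d) ζ one' (2 * d)
  have hθ : WDn (2 * d) (fun r => z (uu tt ee x y n (E r)) ∘ₗ inL V n M) one' =
      PB h (Pi.single (2 * d) ((((2 * d).factorial : ℕ) : ℂ) • θ)) := by
    rw [hζ, ← PB_one' h, ← PB_WDn]
    congr 1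
    have h1 := eq_single (WDn (2 * d) ζ one') (2 * d) (by
      have h2 := WDn_supp (2 * d) ζ one' 0 one'_supp
      rw [zero_add] at h2
      exact h2)
    rw [smul_smul, mul_inv_cancel₀ (by exact_mod_cast (2 * d).factorial_ne_zero), one_smul]
    exact h1
  have hz' : Div (dg n '' G) (z.compl₁₂ (inL V n M) (inL V n M)) := by
    refine ⟨fun v => hz.1 _, ?_⟩
    rintro _ ⟨e, he, rfl⟩ v w
    simp only [LinearMap.compl₁₂_apply]
    rw [inL_dg, inL_dg]
    exact hzg e he _ _
  refine ⟨l, M, 2 * d, hl, fun _ => z.compl₁₂ (inL V n M) (inL V n M),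
    fun a => W (tt a) (!(ee a)), h, θ, fun _ => hz', fun a => P.hirr _ _, fun a b hab => ?_, ?_,
    hrel, fun w a => hρ1 a w, fun e he w => funext fun a => heq a e he w, fun v => ?_⟩
  · obtain ⟨h1, h2⟩ := P.hpair _ _ _ _ hab
    have h3 := h2 (htt _)
    rw [hee _ _ h1] at h3
    revert h3
    cases ee b <;> simp
  · have h1 := Fintype.card_congr E
    rw [Fintype.card_fin, Fintype.card_sigma] at h1
    rw [h1]
    exact Finset.sum_congr rfl fun a _ => (P.finrank_W hex (htt a) _).symm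
  · rw [hθ, ← LLn_const]
    exact weil_family _ h θ (2 * j) hl v

/-- **The structure of Tate classes.** -/
theorem Su.structure (U : Su ψ G) (n j : ℕ) (f : AForm (Fin n → V) (2 * j))
    (hf : ∀ e ∈ G, der (dg n e) (2 * j) f = (j : ℂ) • f) :
    f ∈ Submodule.span ℂ {η | WeilTerm G n (2 * j) η} := by
  classical
  obtain ⟨e0, he0⟩ := U.hne
  obtain ⟨T, _, _, I, S, _, _, _, _, sy, W, τ, x, y, P, hS, hex⟩ :=
    exists_pre U.halt U.hnd U.hGψ U.hss U.hsd he0
      (U.hGe e0 he0)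
  have hI : ∀ t, Nonempty (I t) := by
    intro t
    by_contra hcon
    rw [not_nonempty_iff] at hcon
    obtain ⟨u, hu, v, hv, h⟩ := P.h0 t
    apply h
    rw [hex t true u hu, Finset.univ_eq_empty, Finset.sum_empty, map_zero, LinearMap.zero_apply]
  have i : ∀ t, I t := fun t => (hI t).some
  have h1 : f ∈ TC G n (2 * j) (j : ℂ) := hf
  suffices hle : Submodule.span ℂ {f | f ∈ TC G n (2 * j) (j : ℂ) ∧
      ∃ m : T → ℤ, ∀ t, der (dg n (en P.dual.basis t (i t) (i t))) (2 * j) f = (m t : ℂ) • f} ≤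
      Submodule.span ℂ {η | WeilTerm G n (2 * j) η} from
    hle (U.eig P.ad i n (2 * j) j h1)
  rw [Submodule.span_le]
  rintro f ⟨hf, m, hm⟩
  by_cases hf0 : f = 0
  · rw [hf0]
    exact Submodule.zero_mem _
  have hw := fun {D : Module.End ℂ V} (hD : D ∈ Lf ψ G) =>
    P.weight hex U hS i n (2 * j) j hf m hm hD
  -- the multiplicities
  let mm : T → ℕ := fun t => if sy t then 0 else (m t).natAbs
  let F : (Σ t, Fin (mm t)) ≃ Fin (Fintype.card (Σ t, Fin (mm t))) := Fintype.equivFin _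
  let tt : Fin (Fintype.card (Σ t, Fin (mm t))) → T := fun a => (F.symm a).1
  let ee : Fin (Fintype.card (Σ t, Fin (mm t))) → Bool := fun a => decide (m (tt a) < 0)
  have htt : ∀ a, sy (tt a) = false := by
    intro a
    by_contra h
    rw [Bool.not_eq_false] at h
    have h2 : mm (tt a) = 0 := by simp only [mm, h, if_true]
    have h3 : Fin (mm (tt a)) := (F.symm a).2
    rw [h2] at h3
    exact h3.elim0
  have hee : ∀ a b, tt a = tt b → ee a = ee b := by
    intro a b h
    simp only [ee, h]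
  have hsum : ∀ g : T → ℂ, ∑ a, (if ee a then 1 else -1) * g (tt a) =
      -∑ t, (if sy t then 0 else g t) * m t := by
    intro g
    rw [Fintype.sum_equiv F.symm (fun a => (if ee a then 1 else -1) * g (tt a))
      (fun b : Σ t, Fin (mm t) => (if decide (m b.1 < 0) then 1 else -1) * g b.1) fun _ => rfl,
      Fintype.sum_sigma, ← Finset.sum_neg_distrib]
    refine Finset.sum_congr rfl fun t _ => ?_
    change ∑ _q : Fin (mm t), (if decide (m t < 0) = true then 1 else -1) * g t = _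
    rw [Finset.sum_const, Finset.card_univ, Fintype.card_fin, nsmul_eq_mul]
    simp only [mm]
    cases hs : sy t with
    | true => simp
    | false =>
      simp only [Bool.false_eq_true, if_false]
      by_cases hm0 : m t < 0
      · have h2 : ((m t).natAbs : ℂ) = -(m t : ℂ) := by
          have h3 : ((m t).natAbs : ℤ) = -m t := by omega
          rw [← Int.cast_natCast, h3, Int.cast_neg]
        rw [h2, decide_eq_true hm0, if_pos rfl]
        ring
      · have h2 : ((m t).natAbs : ℂ) = (m t : ℂ) := by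
          have h3 : ((m t).natAbs : ℤ) = m t := by omega
          rw [← Int.cast_natCast, h3]
        rw [h2, decide_eq_false hm0, if_neg (by simp)]
        ring
  have hfw : ∀ D ∈ Lf ψ G, der (dg n D) (2 * j) f =
      (-∑ a, (if ee a then 1 else -1) * trc ψ x y (tt a) D) • f := by
    intro D hD
    rw [hw hD, hsum fun t => trc ψ x y t D, neg_neg]
  -- the relation
  have hrel0 : ∀ e ∈ G, ∑ a, (2 * (Module.finrank ℂ ((W (tt a) (!(ee a))).map e) : ℂ) -
      (Module.finrank ℂ (W (tt a) (!(ee a))) : ℂ)) = 0 := by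
    intro e he
    have h2 := hfw _ (U.gen he)
    have h3 : dg n (1 : Module.End ℂ V) = 1 := rfl
    rw [map_sub, map_smul, h3, der_sub, der_smul, hf e he, der_one, smul_smul] at h2
    have h4 : ((2 : ℂ) * (j : ℂ)) • f - ((2 * j : ℕ) : ℂ) • f = 0 := by
      push_cast
      rw [sub_self]
    rw [h4] at h2
    rcases smul_eq_zero.1 h2.symm with h5 | h5
    · rw [neg_eq_zero] at h5
      rw [← neg_eq_zero, ← h5, ← Finset.sum_neg_distrib]
      refine Finset.sum_congr rfl fun a _ => ?_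
      obtain ⟨p, hp, hpe⟩ := exists_proj U.hss (P.hirr (tt a) (!(ee a))).1
      have hst := (P.hirr (tt a) (!(ee a))).1 e he
      have h6 := P.trace_rst hex (htt a) hp (U.st (U.gen he) (P.hirr (tt a) (!(ee a))).1)
      rw [P.cf_skew hex (U.gen he), map_sub, map_smul, rst_one hp, map_sub, map_smul,
        trace_rst_idem hp (U.hGe e he) hst, LinearMap.trace_one, smul_eq_mul] at h6
      rw [h6]
      cases ee a <;> simp
    · exact absurd h5 hf0
  have hrel : ∀ e ∈ G, 2 * ∑ a, Module.finrank ℂ ((W (tt a) (!(ee a))).map e) =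
      ∑ a, Module.finrank ℂ (W (tt a) (!(ee a))) := by
    intro e he
    have h2 := hrel0 e he
    rw [Finset.sum_sub_distrib, ← Finset.mul_sum, sub_eq_zero] at h2
    exact_mod_cast h2
  -- the index set
  obtain ⟨d, hd⟩ : ∃ d, Fintype.card (Σ a, I (tt a)) = 2 * d := by
    refine ⟨∑ a, Module.finrank ℂ ((W (tt a) (!(ee a))).map e0), ?_⟩
    rw [hrel e0 he0, Fintype.card_sigma]
    exact Finset.sum_congr rfl fun a _ => (P.finrank_W hex (htt a) _).symm
  have E : Fin (2 * d) ≃ Σ a, I (tt a) := (Fintype.equivFinOfCardEq hd).symm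
  have h2 := P.main (n := n) tt ee hex U htt hee E j f hfw
  refine Submodule.span_mono ?_ h2
  rintro _ ⟨z, hz, l, hl, rfl⟩
  exact P.term hex tt ee htt hee E hrel hl hz

/-- **The structure theorem.** -/
theorem Su.tate_iff (U : Su ψ G) (n j : ℕ) (f : AForm (Fin n → V) (2 * j)) :
    (∀ e ∈ G, der (dg n e) (2 * j) f = (j : ℂ) • f) ↔
      f ∈ Submodule.span ℂ {η | WeilTerm G n (2 * j) η} := by
  refine ⟨U.structure n j f, fun h => ?_⟩
  have h1 : Submodule.span ℂ {η | WeilTerm G n (2 * j) η} ≤ TC G n (2 * j) (j : ℂ) := by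
    rw [Submodule.span_le]
    exact fun η hη => tate_of_term U.hGe U.hss hη
  exact h1 h

/-- **The criterion.** -/
theorem Su.criterion (U : Su ψ G) :
    (∀ (n j : ℕ) (f : AForm (Fin n → V) (2 * j)),
      (∀ e ∈ G, der (dg n e) (2 * j) f = (j : ℂ) • f) → f ∈ prods (Div (dg n '' G)) j) ↔
      NoRel G :=
  ⟨noRel_of_tate U.hne U.hGe U.hss,
    fun h => tate_of_noRel' U.halt U.hnd U.hne U.hGe U.hGψ U.hss U.hsd U.hder h⟩

end Pool.Agent.TateOdd
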