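import Pool.Agent.OddRank.Commutant

/-!
# Invariant pairings between irreducible subspaces
-/

set_option autoImplicit false
set_option linter.unusedSectionVars false

namespace Pool.Agent.TateOdd

open Pool.Agent.OddRank

section Field

variable {K V : Type*} [Field K] [AddCommGroup V] [Module K V]

/-- A form whose restriction to `W × W'` is invariant of multiplier one. -/
def Inv2 (G : Set (Module.End K V)) (W W' : Submodule K V) (φ : V →ₗ[K] V →ₗ[K] K) : Prop :=
  ∀ e ∈ G, ∀ x ∈ W, ∀ y ∈ W', φ (e x) y + φ x (e y) = φ x y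

/-- There is a nonzero invariant pairing between `W` and `W'`. -/
def Paired (G : Set (Module.End K V)) (W W' : Submodule K V) : Prop :=
  ∃ φ : V →ₗ[K] V →ₗ[K] K, Inv2 G W W' φ ∧ ∃ x ∈ W, ∃ y ∈ W', φ x y ≠ 0

/-- A linear map that is equivariant on `U`. -/
def Hm (G : Set (Module.End K V)) (U : Submodule K V) (f : Module.End K V) : Prop :=
  ∀ e ∈ G, ∀ u ∈ U, f (e u) = e (f u)

variable {G : Set (Module.End K V)} {W W' W'' U U' : Submodule K V} {φ : V →ₗ[K] V →ₗ[K] K}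

theorem Inv2.symm (h : Inv2 G W W' φ) : Inv2 G W' W φ.flip := by
  intro e he x hx y hy
  simp only [LinearMap.flip_apply]
  rw [add_comm]
  exact h e he y hy x hx

theorem Paired.symm (h : Paired G W W') : Paired G W' W := by
  obtain ⟨φ, hφ, x, hx, y, hy, h0⟩ := h
  exact ⟨φ.flip, hφ.symm, y, hy, x, hx, h0⟩

/-- A nonzero invariant pairing has trivial kernel. -/
theorem Inv2.nd (hφ : Inv2 G W W' φ) (hW : Irreducible G W) (hW' : Stable G W')
    (h0 : ∃ x ∈ W, ∃ y ∈ W', φ x y ≠ 0) : ∀ x ∈ W, (∀ y ∈ W', φ x y = 0) → x = 0 := by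
  let N : Submodule K V :=
    { carrier := {x | x ∈ W ∧ ∀ y ∈ W', φ x y = 0}
      add_mem' := by
        rintro a b ⟨ha, ha'⟩ ⟨hb, hb'⟩
        refine ⟨W.add_mem ha hb, fun y hy => ?_⟩
        rw [map_add, LinearMap.add_apply, ha' y hy, hb' y hy, add_zero]
      zero_mem' := ⟨W.zero_mem, fun y _ => by rw [map_zero, LinearMap.zero_apply]⟩
      smul_mem' := by
        rintro c a ⟨ha, ha'⟩
        refine ⟨W.smul_mem c ha, fun y hy => ?_⟩
        rw [map_smul, LinearMap.smul_apply, ha' y hy, smul_zero] }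
  have hN : Stable G N := by
    rintro e he x ⟨hx, hx'⟩
    refine ⟨hW.1 e he x hx, fun y hy => ?_⟩
    have h := hφ e he x hx y hy
    rw [hx' y hy, hx' (e y) (hW' e he y hy), add_zero] at h
    exact h
  rcases hW.2.2 N hN (fun x hx => hx.1) with h | h
  · intro x hx hx'
    have : x ∈ N := ⟨hx, hx'⟩
    rw [h] at this
    exact (Submodule.mem_bot K).1 this
  · obtain ⟨x, hx, y, hy, hxy⟩ := h0
    have : x ∈ N := by rw [h]; exact hx
    exact absurd (this.2 y hy) hxy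

theorem Inv2.nd_right (hφ : Inv2 G W W' φ) (hW : Stable G W) (hW' : Irreducible G W')
    (h0 : ∃ x ∈ W, ∃ y ∈ W', φ x y ≠ 0) : ∀ y ∈ W', (∀ x ∈ W, φ x y = 0) → y = 0 := by
  obtain ⟨x, hx, y, hy, hxy⟩ := h0
  exact hφ.symm.nd hW' hW ⟨y, hy, x, hx, hxy⟩

/-- The image of an irreducible subspace. -/
theorem irr_map (hU : Irreducible G U) {f : Module.End K V} (hf : Hm G U f)
    (hinj : ∀ u ∈ U, f u = 0 → u = 0) : Irreducible G (U.map f) := by
  refine ⟨?_, ?_, ?_⟩
  · rintro e he _ ⟨u, hu, rfl⟩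
    exact ⟨e u, hU.1 e he u hu, hf e he u hu⟩
  · intro h
    apply hU.2.1
    rw [eq_bot_iff]
    intro x hx
    have h1 : f x ∈ U.map f := ⟨x, hx, rfl⟩
    rw [h, Submodule.mem_bot] at h1
    exact (Submodule.mem_bot K).2 (hinj x hx h1)
  · intro U' hU' hle
    have hst : Stable G (U ⊓ U'.comap f) := by
      rintro e he u ⟨hu, hu'⟩
      refine ⟨hU.1 e he u hu, ?_⟩
      rw [SetLike.mem_coe, Submodule.mem_comap, hf e he u hu]
      exact hU' e he _ hu'
    rcases hU.2.2 _ hst inf_le_left with h | h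
    · left
      rw [eq_bot_iff]
      intro x hx
      obtain ⟨u, hu, rfl⟩ := hle hx
      have h1 : u ∈ U ⊓ U'.comap f := ⟨hu, hx⟩
      rw [h, Submodule.mem_bot] at h1
      rw [h1, map_zero]
      exact Submodule.zero_mem _
    · right
      apply le_antisymm hle
      rintro _ ⟨u, hu, rfl⟩
      rw [SetLike.mem_coe, ← h] at hu
      exact hu.2

/-- Equivariant maps between irreducible subspaces which are not zero are isomorphisms. -/
theorem iso_of_hm (hU : Irreducible G U) (hU' : Irreducible G U') {f : Module.End K V}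
    (hf : Hm G U f) (hm : ∀ u ∈ U, f u ∈ U') (h0 : ∃ u ∈ U, f u ≠ 0) : Iso G U U' := by
  let g : U →ₗ[K] U' := (f.domRestrict U).codRestrict U' fun u => hm u u.2
  have hg : ∀ u : U, (g u : V) = f u := fun u => rfl
  have hE : Pool.Agent.OddRank.Equiv G g := by
    intro e he u v huv
    rw [hg, hg, huv]
    exact hf e he u u.2
  obtain ⟨u, hu, hu0⟩ := h0
  refine ⟨g, hE, schur hU hU' hE fun h => hu0 ?_⟩
  rw [← hg ⟨u, hu⟩, h]
  rfl

theorem hm_of_iso (hU : Stable G U) (h : Iso G U U') : ∃ f : Module.End K V, Hm G U f ∧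
    (∀ u ∈ U, f u ∈ U') ∧ (∀ u ∈ U, f u = 0 → u = 0) ∧ ∀ u' ∈ U', ∃ u ∈ U, f u = u' := by
  obtain ⟨g, hg, hb⟩ := h
  obtain ⟨p, hp⟩ := Submodule.exists_isCompl U
  set q : V →ₗ[K] U := U.projectionOnto p hp with hq
  have hqu : ∀ u : U, q u = u := fun u => Submodule.projectionOnto_apply_left hp u
  set s : Module.End K V := U'.subtype ∘ₗ g ∘ₗ q with hs
  have hsu : ∀ u : U, s u = g u := by
    intro u
    change ((g (q u) : U') : V) = g u
    rw [hqu]
  refine ⟨s, ?_, ?_, ?_, ?_⟩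
  · intro e he u hu
    have h1 := hg e he ⟨u, hu⟩ ⟨e u, hU e he u hu⟩ rfl
    rw [← hsu, ← hsu] at h1
    exact h1
  · intro u hu
    rw [hsu ⟨u, hu⟩]
    exact (g _).2
  · intro u hu h0
    rw [hsu ⟨u, hu⟩] at h0
    have h1 : g ⟨u, hu⟩ = g 0 := by
      rw [map_zero]
      exact Subtype.ext h0
    exact congrArg Subtype.val (hb.1 h1)
  · intro u' hu'
    obtain ⟨u, hu⟩ := hb.2 ⟨u', hu'⟩
    exact ⟨u, u.2, by rw [hsu, hu]⟩

/-- Pairings are transported by isomorphisms. -/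
theorem Paired.of_iso (hU : Stable G U) (h : Paired G W W') (hi : Iso G U W) :
    Paired G U W' := by
  obtain ⟨φ, hφ, x, hx, y, hy, h0⟩ := h
  obtain ⟨f, hf, hm, hinj, hsur⟩ := hm_of_iso hU hi
  refine ⟨φ ∘ₗ f, ?_, ?_⟩
  · intro e he u hu y hy
    simp only [LinearMap.comp_apply]
    rw [hf e he u hu]
    exact hφ e he _ (hm u hu) y hy
  · obtain ⟨u, hu, rfl⟩ := hsur x hx
    exact ⟨u, hu, y, hy, h0⟩

theorem Paired.of_iso_right (hU : Stable G U) (h : Paired G W W') (hi : Iso G U W') :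
    Paired G W U :=
  (h.symm.of_iso hU hi).symm

end Field

section Alg

variable {K V : Type*} [Field K] [AddCommGroup V] [Module K V] [FiniteDimensional K V]
variable {G : Set (Module.End K V)} {W W' W'' U U' : Submodule K V} {φ : V →ₗ[K] V →ₗ[K] K}

/-- A perfect pairing represents all other pairings. -/
theorem exists_rho (hφ : Inv2 G W W' φ) (hW : Irreducible G W) (hW' : Irreducible G W')
    (h0 : ∃ x ∈ W, ∃ y ∈ W', φ x y ≠ 0) (φ' : V →ₗ[K] V →ₗ[K] K) :
    ∃ ρ : Module.End K V, (∀ v, ρ v ∈ W') ∧ ∀ x ∈ W, ∀ v, φ' x v = φ x (ρ v) := by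
  let A : W' →ₗ[K] Module.Dual K W := (φ.compl₁₂ W.subtype W'.subtype).flip
  have hA : ∀ (y : W') (x : W), A y x = φ x y := fun y x => rfl
  have hAinj : Function.Injective A := by
    rw [injective_iff_map_eq_zero]
    intro y hy
    apply Subtype.ext
    refine hφ.nd_right hW.1 hW' h0 y y.2 fun x hx => ?_
    rw [← hA y ⟨x, hx⟩, hy, LinearMap.zero_apply]
  let B : W →ₗ[K] Module.Dual K W' := φ.compl₁₂ W.subtype W'.subtype
  have hB : ∀ (x : W) (y : W'), B x y = φ x y := fun y x => rfl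
  have hBinj : Function.Injective B := by
    rw [injective_iff_map_eq_zero]
    intro x hx
    apply Subtype.ext
    refine hφ.nd hW hW'.1 h0 x x.2 fun y hy => ?_
    rw [← hB x ⟨y, hy⟩, hx, LinearMap.zero_apply]
  have hrk : Module.finrank K W' = Module.finrank K (Module.Dual K W) := by
    apply le_antisymm
    · exact LinearMap.finrank_le_finrank_of_injective hAinj
    · rw [Subspace.dual_finrank_eq]
      have := LinearMap.finrank_le_finrank_of_injective hBinj
      rwa [Subspace.dual_finrank_eq] at this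
  let E : W' ≃ₗ[K] Module.Dual K W := LinearEquiv.ofInjectiveOfFinrankEq A hAinj hrk
  let C : V →ₗ[K] Module.Dual K W := (φ'.comp W.subtype).flip
  have hC : ∀ (v : V) (w : W), C v w = φ' w v := fun v w => rfl
  refine ⟨W'.subtype ∘ₗ E.symm.toLinearMap ∘ₗ C, fun v => (E.symm (C v)).2, fun x hx v => ?_⟩
  have h1 : A (E.symm (C v)) = C v := E.apply_symm_apply (C v)
  have h2 := LinearMap.congr_fun h1 ⟨x, hx⟩
  rw [hA, hC] at h2
  exact h2.symm

theorem rho_hm (hφ : Inv2 G W W' φ) (hW : Irreducible G W) (hW' : Irreducible G W')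
    (h0 : ∃ x ∈ W, ∃ y ∈ W', φ x y ≠ 0) {φ' : V →ₗ[K] V →ₗ[K] K} (hφ' : Inv2 G W W'' φ')
    {ρ : Module.End K V} (h1 : ∀ v, ρ v ∈ W') (h2 : ∀ x ∈ W, ∀ v, φ' x v = φ x (ρ v)) :
    Hm G W'' ρ := by
  intro e he v hv
  rw [← sub_eq_zero]
  refine hφ.nd_right hW.1 hW' h0 _ (W'.sub_mem (h1 _) (hW'.1 e he _ (h1 _))) fun x hx => ?_
  rw [map_sub]
  have h3 := hφ' e he x hx v hv
  have h4 := hφ e he x hx (ρ v) (h1 v)
  rw [h2 _ (hW.1 e he x hx), h2 x hx, h2 x hx] at h3
  linear_combination h3 - h4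

/-- The dual of an irreducible subspace is unique. -/
theorem Paired.iso (hW : Irreducible G W) (hW' : Irreducible G W') (hW'' : Irreducible G W'')
    (h : Paired G W W') (h' : Paired G W W'') : Iso G W'' W' := by
  obtain ⟨φ, hφ, h0⟩ := h
  obtain ⟨φ', hφ', x, hx, y, hy, hxy⟩ := h'
  obtain ⟨ρ, h1, h2⟩ := exists_rho hφ hW hW' h0 φ'
  refine iso_of_hm hW'' hW' (rho_hm hφ hW hW' h0 hφ' h1 h2) (fun u _ => h1 u) ⟨y, hy, fun h => hxy ?_⟩
  rw [h2 x hx, h, map_zero]

/-- Schur's lemma. -/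
theorem hm_scalar [IsAlgClosed K] (hU : Irreducible G U) {f : Module.End K V} (hf : Hm G U f)
    (hm : ∀ u ∈ U, f u ∈ U) : ∃ c : K, ∀ u ∈ U, f u = c • u := by
  let g : Module.End K U := (f.domRestrict U).codRestrict U fun u => hm u u.2
  have hg : ∀ u : U, (g u : V) = f u := fun u => rfl
  have : Nontrivial U := Submodule.nontrivial_iff_ne_bot.2 hU.2.1
  obtain ⟨c, hc⟩ := Module.End.exists_eigenvalue g
  obtain ⟨w, hw⟩ := hc.exists_hasEigenvector
  let E : Submodule K V :=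
    { carrier := {x | x ∈ U ∧ f x = c • x}
      add_mem' := by
        rintro a b ⟨ha, ha'⟩ ⟨hb, hb'⟩
        exact ⟨U.add_mem ha hb, by rw [map_add, ha', hb', smul_add]⟩
      zero_mem' := ⟨U.zero_mem, by rw [map_zero, smul_zero]⟩
      smul_mem' := by
        rintro a b ⟨hb, hb'⟩
        exact ⟨U.smul_mem a hb, by rw [map_smul, hb', smul_comm]⟩ }
  have hE : Stable G E := by
    rintro e he x ⟨hx, hx'⟩
    exact ⟨hU.1 e he x hx, by rw [hf e he x hx, hx', map_smul]⟩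
  rcases hU.2.2 E hE (fun x hx => hx.1) with h | h
  · exfalso
    have h1 : (w : V) ∈ E := ⟨w.2, by rw [← hg, hw.apply_eq_smul]; rfl⟩
    rw [h, Submodule.mem_bot] at h1
    exact hw.2 (Subtype.ext h1)
  · refine ⟨c, fun u hu => ?_⟩
    rw [← h] at hu
    exact hu.2

/-- Invariant pairings are unique up to a scalar. -/
theorem pair_unique [IsAlgClosed K] (hW : Irreducible G W) (hW' : Irreducible G W')
    (hφ : Inv2 G W W' φ) (h0 : ∃ x ∈ W, ∃ y ∈ W', φ x y ≠ 0) {φ' : V →ₗ[K] V →ₗ[K] K}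
    (hφ' : Inv2 G W W' φ') : ∃ c : K, ∀ x ∈ W, ∀ y ∈ W', φ' x y = c * φ x y := by
  obtain ⟨ρ, h1, h2⟩ := exists_rho hφ hW hW' h0 φ'
  obtain ⟨c, hc⟩ := hm_scalar hW' (rho_hm hφ hW hW' h0 hφ' h1 h2) fun u _ => h1 u
  refine ⟨c, fun x hx y hy => ?_⟩
  rw [h2 x hx, hc y hy, map_smul, smul_eq_mul]

end Alg

end Pool.Agent.TateOdd
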