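import Pool.Agent.TateOdd.Block
import Pool.Agent.GHCFull.Fock

/-!
# Adapted bases
-/

set_option autoImplicit false
set_option linter.unusedSectionVars false

universe u

namespace Pool.Agent.TateOdd

open Pool.Agent.OddRank
open Pool.Agent.GHCFull (NdOn Idx)

variable {H : Type u} [AddCommGroup H] [Module ℂ H] [FiniteDimensional ℂ H]
variable {T : Type} [Fintype T] [DecidableEq T] {I S : T → Type} [∀ t, Fintype (I t)]
  [∀ t, DecidableEq (I t)] [∀ t, Fintype (S t)] [∀ t, DecidableEq (S t)]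

/-- A basis adapted to a set `G` of endomorphisms and a symplectic form `ψ`. For `sy t = true` the
component is the tensor product of a symplectic space and a multiplicity space; for
`sy t = false` it is the sum of a tensor product and its dual. -/
structure Ad (ψ : H →ₗ[ℂ] H →ₗ[ℂ] ℂ) (G : Set (Module.End ℂ H)) (sy : T → Bool)
    (b : Module.Basis (Idx I S) ℂ H) : Prop where
  ψ_tf : ∀ t i s, ψ (b ⟨t, i, s, true⟩) (b ⟨t, i, s, false⟩) = 1
  ψ_ne : ∀ t i s t' i' s', (⟨t, i, s, true⟩ : Idx I S) ≠ ⟨t', i', s', true⟩ →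
    ψ (b ⟨t, i, s, true⟩) (b ⟨t', i', s', false⟩) = 0
  ψ_tt : ∀ t i s t' i' s', ψ (b ⟨t, i, s, true⟩) (b ⟨t', i', s', true⟩) = 0
  ψ_ff : ∀ t i s t' i' s', ψ (b ⟨t, i, s, false⟩) (b ⟨t', i', s', false⟩) = 0
  mul : ∀ g ∈ G, ∀ t, ∃ m : I t × Bool → I t × Bool → ℂ,
    (sy t = false → ∀ i j ε ε', ε ≠ ε' → m (i, ε) (j, ε') = 0) ∧ ∀ i s ε,
    g (b ⟨t, i, s, ε⟩) = ∑ q : I t × Bool, m q (i, ε) • b ⟨t, q.1, s, q.2⟩
  comm : ∀ z : Module.End ℂ H, (∀ g ∈ G, g * z = z * g) → ∀ t, ∃ ζ : Bool → S t → S t → ℂ,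
    (sy t = true → ζ true = ζ false) ∧ ∀ i s ε,
    z (b ⟨t, i, s, ε⟩) = ∑ s' : S t, ζ ε s' s • b ⟨t, i, s', ε⟩

/-- The model vectors. -/
def wv (x y : ∀ t, I t → H) (t : T) (ε : Bool) (i : I t) : H := if ε then x t i else y t i

/-- The basis vectors. -/
def bv (x y : ∀ t, I t → H) (τ : ∀ t, S t → Bool → Module.End ℂ H) : Idx I S → H
  | ⟨t, i, s, ε⟩ => τ t s ε (wv x y t ε i)

/-- The coordinates. -/
def fv (ψ : H →ₗ[ℂ] H →ₗ[ℂ] ℂ) (x y : ∀ t, I t → H) (τ : ∀ t, S t → Bool → Module.End ℂ H) :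
    Idx I S → H →ₗ[ℂ] ℂ
  | ⟨t, i, s, true⟩ => ψ.flip (bv x y τ ⟨t, i, s, false⟩)
  | ⟨t, i, s, false⟩ => -ψ.flip (bv x y τ ⟨t, i, s, true⟩)

/-- The data from which an adapted basis is built. -/
structure Pre (ψ : H →ₗ[ℂ] H →ₗ[ℂ] ℂ) (G : Set (Module.End ℂ H)) (sy : T → Bool)
    (W : T → Bool → Submodule ℂ H) (τ : ∀ t, S t → Bool → Module.End ℂ H)
    (x y : ∀ t, I t → H) : Prop where
  halt : ∀ x, ψ x x = 0
  hnd : ∀ x, (∀ y, ψ x y = 0) → x = 0
  hψ : ∀ e ∈ G, ∀ x y, ψ (e x) y + ψ x (e y) = ψ x y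
  hirr : ∀ t ε, Irreducible G (W t ε)
  hτ : ∀ t s ε, Hm G (W t ε) (τ t s ε)
  hi : ∀ t s ε ε', ∀ u ∈ W t ε, ∀ v ∈ W t ε', ψ (τ t s ε u) (τ t s ε' v) = ψ u v
  horth : ∀ t s t' s', (⟨t, s⟩ : Σ t, S t) ≠ ⟨t', s'⟩ → ∀ ε ε', ∀ u ∈ W t ε, ∀ v ∈ W t' ε',
    ψ (τ t s ε u) (τ t' s' ε' v) = 0
  hsup : ∀ V : Submodule ℂ H, (∀ t s ε, ∀ u ∈ W t ε, τ t s ε u ∈ V) → V = ⊤
  hx : ∀ t i, x t i ∈ W t true
  hy : ∀ t i, y t i ∈ W t false
  xy : ∀ t i j, ψ (x t i) (y t j) = if i = j then 1 else 0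
  xx : ∀ t i j, ψ (x t i) (x t j) = 0
  yy : ∀ t i j, ψ (y t i) (y t j) = 0
  ex : ∀ t s ε, ∀ u ∈ W t ε, τ t s ε u =
    ∑ i, (ψ u (y t i) • τ t s true (x t i) - ψ u (x t i) • τ t s false (y t i))
  h0 : ∀ t, ∃ u ∈ W t true, ∃ v ∈ W t false, ψ u v ≠ 0
  hpair : ∀ t t' ε ε', Paired G (W t ε) (W t' ε') → t = t' ∧ (sy t = false → ε' = !ε)
  hS : ∀ t, sy t = true → W t true = W t false ∧ ∀ s, τ t s true = τ t s false

namespace Pre

variable {ψ : H →ₗ[ℂ] H →ₗ[ℂ] ℂ} {G : Set (Module.End ℂ H)} {sy : T → Bool}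
  {W : T → Bool → Submodule ℂ H} {τ : ∀ t, S t → Bool → Module.End ℂ H} {x y : ∀ t, I t → H}
  (D : Pre ψ G sy W τ x y)

include D

theorem wv_mem (t : T) (ε : Bool) (i : I t) : wv x y t ε i ∈ W t ε := by
  unfold wv
  cases ε with
  | true => exact D.hx t i
  | false => exact D.hy t i

theorem iso0 {t : T} (ht : sy t = false) {ε : Bool} {u v : H} (hu : u ∈ W t ε) (hv : v ∈ W t ε) :
    ψ u v = 0 := by
  by_contra h
  have := (D.hpair t t ε ε ⟨ψ, inv2_of_mult D.hψ _ _, u, hu, v, hv, h⟩).2 ht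
  revert this
  cases ε <;> simp

theorem gram_same (t s i j ε ε') :
    ψ (bv x y τ ⟨t, i, s, ε⟩) (bv x y τ ⟨t, j, s, ε'⟩) = ψ (wv x y t ε i) (wv x y t ε' j) :=
  D.hi t s ε ε' _ (D.wv_mem t ε i) _ (D.wv_mem t ε' j)

theorem gram_diff (t s t' s' i j ε ε') (h : (⟨t, s⟩ : Σ t, S t) ≠ ⟨t', s'⟩) :
    ψ (bv x y τ ⟨t, i, s, ε⟩) (bv x y τ ⟨t', j, s', ε'⟩) = 0 :=
  D.horth t s t' s' h ε ε' _ (D.wv_mem t ε i) _ (D.wv_mem t' ε' j)

theorem gram_tt (t i s t' i' s') :
    ψ (bv x y τ ⟨t, i, s, true⟩) (bv x y τ ⟨t', i', s', true⟩) = 0 := by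
  by_cases h : (⟨t, s⟩ : Σ t, S t) = ⟨t', s'⟩
  · cases h
    rw [D.gram_same]
    exact D.xx t i i'
  · exact D.gram_diff _ _ _ _ _ _ _ _ h

theorem gram_ff (t i s t' i' s') :
    ψ (bv x y τ ⟨t, i, s, false⟩) (bv x y τ ⟨t', i', s', false⟩) = 0 := by
  by_cases h : (⟨t, s⟩ : Σ t, S t) = ⟨t', s'⟩
  · cases h
    rw [D.gram_same]
    exact D.yy t i i'
  · exact D.gram_diff _ _ _ _ _ _ _ _ h

theorem gram_self (t i s) :
    ψ (bv x y τ ⟨t, i, s, true⟩) (bv x y τ ⟨t, i, s, false⟩) = 1 := by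
  rw [D.gram_same]
  change ψ (x t i) (y t i) = 1
  rw [D.xy, if_pos rfl]

theorem gram_ne (t i s t' i' s') (hne : (⟨t, i, s⟩ : Σ t, I t × S t) ≠ ⟨t', i', s'⟩) :
    ψ (bv x y τ ⟨t, i, s, true⟩) (bv x y τ ⟨t', i', s', false⟩) = 0 := by
  by_cases h : (⟨t, s⟩ : Σ t, S t) = ⟨t', s'⟩
  · cases h
    rw [D.gram_same]
    change ψ (x t i) (y t i') = 0
    rw [D.xy, if_neg]
    rintro rfl
    exact hne rfl
  · exact D.gram_diff _ _ _ _ _ _ _ _ h

/-- Vectors with the same products with all the basis vectors are equal. -/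
theorem ext_gram {v v' : H} (h : ∀ α, ψ v (bv x y τ α) = ψ v' (bv x y τ α)) : v = v' := by
  rw [← sub_eq_zero]
  apply D.hnd
  have h1 : ∀ α, ψ (v - v') (bv x y τ α) = 0 := by
    intro α
    rw [map_sub, LinearMap.sub_apply, h, sub_self]
  have h2 : LinearMap.ker (ψ (v - v')) = ⊤ := by
    apply D.hsup
    intro t s ε u hu
    rw [LinearMap.mem_ker, D.ex t s ε u hu, map_sum]
    refine Finset.sum_eq_zero fun i _ => ?_
    have h3 := h1 ⟨t, i, s, true⟩
    have h4 := h1 ⟨t, i, s, false⟩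
    change ψ (v - v') (τ t s true (x t i)) = 0 at h3
    change ψ (v - v') (τ t s false (y t i)) = 0 at h4
    rw [map_sub, map_smul, map_smul, h3, h4, smul_zero, smul_zero, sub_zero]
  intro z
  have h3 : z ∈ LinearMap.ker (ψ (v - v')) := by rw [h2]; exact Submodule.mem_top
  exact h3

theorem dual : Module.DualBases (bv x y τ) (fun α => fv ψ x y τ α) where
  eval_same := by
    rintro ⟨t, i, s, _ | _⟩
    · change -ψ (bv x y τ ⟨t, i, s, false⟩) (bv x y τ ⟨t, i, s, true⟩) = 1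
      rw [skew_of_alt D.halt, neg_neg, D.gram_self]
    · change ψ (bv x y τ ⟨t, i, s, true⟩) (bv x y τ ⟨t, i, s, false⟩) = 1
      exact D.gram_self t i s
  eval_of_ne := by
    rintro ⟨t, i, s, _ | _⟩ ⟨t', i', s', _ | _⟩ h
    · change -ψ (bv x y τ ⟨t', i', s', false⟩) (bv x y τ ⟨t, i, s, true⟩) = 0
      rw [skew_of_alt D.halt, neg_neg, D.gram_ne]
      rintro h1
      apply h
      cases h1
      rfl
    · change -ψ (bv x y τ ⟨t', i', s', true⟩) (bv x y τ ⟨t, i, s, true⟩) = 0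
      rw [D.gram_tt, neg_zero]
    · change ψ (bv x y τ ⟨t', i', s', false⟩) (bv x y τ ⟨t, i, s, false⟩) = 0
      exact D.gram_ff _ _ _ _ _ _
    · change ψ (bv x y τ ⟨t', i', s', true⟩) (bv x y τ ⟨t, i, s, false⟩) = 0
      rw [D.gram_ne]
      rintro h1
      apply h
      cases h1
      rfl
  total := by
    intro v v' hv
    refine D.ext_gram ?_
    rintro ⟨t, i, s, _ | _⟩
    · exact hv ⟨t, i, s, true⟩
    · have h2 := hv ⟨t, i, s, false⟩
      change -ψ v (bv x y τ ⟨t, i, s, true⟩) = -ψ v' (bv x y τ ⟨t, i, s, true⟩) at h2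
      exact neg_inj.1 h2

theorem scalar (z : Module.End ℂ H) (hz : ∀ g ∈ G, g * z = z * g) (t : T) (s s' : S t) :
    ∃ ζ : Bool → ℂ, (sy t = true → ζ true = ζ false) ∧ ∀ ε ε', ∀ u ∈ W t ε, ∀ v ∈ W t ε',
      ψ (z (τ t s ε u)) (τ t s' ε' v) = ζ ε * ψ u v := by
  have hzg : ∀ g ∈ G, ∀ v, g (z v) = z (g v) := fun g hg v => LinearMap.congr_fun (hz g hg) v
  have hinv : ∀ ε ε', Inv2 G (W t ε) (W t ε') ((ψ.compl₁₂ (z * τ t s ε) (τ t s' ε'))) := by
    intro ε ε' g hg u hu v hv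
    change ψ (z (τ t s ε (g u))) (τ t s' ε' v) + ψ (z (τ t s ε u)) (τ t s' ε' (g v)) =
      ψ (z (τ t s ε u)) (τ t s' ε' v)
    rw [D.hτ t s ε g hg u hu, D.hτ t s' ε' g hg v hv, ← hzg g hg]
    exact D.hψ g hg _ _
  cases ht : sy t with
  | true =>
    obtain ⟨c, hc⟩ := pair_unique (D.hirr t true) (D.hirr t false)
      (inv2_of_mult D.hψ _ _) (D.h0 t) (hinv true false)
    refine ⟨fun _ => c, fun _ => rfl, ?_⟩
    obtain ⟨h1, h2⟩ := D.hS t ht
    have h3 : ∀ ε, W t ε = W t true := by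
      intro ε
      cases ε with
      | true => rfl
      | false => exact h1.symm
    have h4 : ∀ s ε, τ t s ε = τ t s true := by
      intro s ε
      cases ε with
      | true => rfl
      | false => exact (h2 s).symm
    intro ε ε' u hu v hv
    rw [h3] at hu hv
    rw [h4 s ε, h4 s' ε']
    rw [h1] at hv
    have := hc u hu v hv
    change ψ (z (τ t s true u)) (τ t s' false v) = _ at this
    rw [h4 s' false] at this
    exact this
  | false =>
    have h1 : ∀ ε, ∃ c : ℂ, ∀ u ∈ W t ε, ∀ v ∈ W t (!ε),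
        ψ (z (τ t s ε u)) (τ t s' (!ε) v) = c * ψ u v := by
      intro ε
      have h0 : ∃ u ∈ W t ε, ∃ v ∈ W t (!ε), ψ u v ≠ 0 := by
        obtain ⟨u, hu, v, hv, huv⟩ := D.h0 t
        cases ε with
        | true => exact ⟨u, hu, v, hv, huv⟩
        | false => exact ⟨v, hv, u, hu, fun h => huv (by rw [skew_of_alt D.halt, h, neg_zero])⟩
      obtain ⟨c, hc⟩ := pair_unique (D.hirr t ε) (D.hirr t (!ε))
        (inv2_of_mult D.hψ _ _) h0 (hinv ε (!ε))
      exact ⟨c, hc⟩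
    choose ζ hζ using h1
    refine ⟨ζ, fun h => by simp at h, fun ε ε' u hu v hv => ?_⟩
    by_cases hε : ε' = !ε
    · subst hε
      exact hζ ε u hu v hv
    · have h2 : ε' = ε := by
        revert hε
        cases ε <;> cases ε' <;> simp
      subst h2
      rw [D.iso0 ht hu hv, mul_zero]
      by_contra hcon
      exact hε ((D.hpair t t ε' ε' ⟨_, hinv ε' ε', u, hu, v, hv, hcon⟩).2 ht)

theorem scalar_ne (z : Module.End ℂ H) (hz : ∀ g ∈ G, g * z = z * g) {t t' : T} (h : t ≠ t')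
    (s : S t) (s' : S t') (ε ε' : Bool) (u v : H) (hu : u ∈ W t ε) (hv : v ∈ W t' ε') :
    ψ (z (τ t s ε u)) (τ t' s' ε' v) = 0 := by
  have hzg : ∀ g ∈ G, ∀ v, g (z v) = z (g v) := fun g hg v => LinearMap.congr_fun (hz g hg) v
  by_contra hcon
  refine h (D.hpair t t' ε ε' ⟨ψ.compl₁₂ (z * τ t s ε) (τ t' s' ε'), ?_, u, hu, v, hv, hcon⟩).1
  intro g hg u hu v hv
  change ψ (z (τ t s ε (g u))) (τ t' s' ε' v) + ψ (z (τ t s ε u)) (τ t' s' ε' (g v)) =
    ψ (z (τ t s ε u)) (τ t' s' ε' v)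
  rw [D.hτ t s ε g hg u hu, D.hτ t' s' ε' g hg v hv, ← hzg g hg]
  exact D.hψ g hg _ _

theorem ad : Ad ψ G sy D.dual.basis where
  ψ_tf t i s := by
    rw [Module.DualBases.coe_basis]
    exact D.gram_self t i s
  ψ_ne t i s t' i' s' h := by
    rw [Module.DualBases.coe_basis]
    apply D.gram_ne
    intro h1
    apply h
    cases h1
    rfl
  ψ_tt t i s t' i' s' := by
    rw [Module.DualBases.coe_basis]
    exact D.gram_tt t i s t' i' s'
  ψ_ff t i s t' i' s' := by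
    rw [Module.DualBases.coe_basis]
    exact D.gram_ff t i s t' i' s'
  mul g hg t := by
    rw [Module.DualBases.coe_basis]
    refine ⟨fun q p => if q.2 then ψ (g (wv x y t p.2 p.1)) (y t q.1) else
      -ψ (g (wv x y t p.2 p.1)) (x t q.1), ?_, ?_⟩
    · intro ht i j ε ε' hε
      have hg' := (D.hirr t ε').1 g hg _ (D.wv_mem t ε' j)
      cases ε with
      | true =>
        cases ε' with
        | true => exact absurd rfl hε
        | false =>
          change ψ (g (wv x y t false j)) (y t i) = 0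
          exact D.iso0 ht hg' (D.hy t i)
      | false =>
        cases ε' with
        | true =>
          change -ψ (g (wv x y t true j)) (x t i) = 0
          rw [D.iso0 ht hg' (D.hx t i), neg_zero]
        | false => exact absurd rfl hε
    · intro i s ε
      change g (τ t s ε (wv x y t ε i)) = _
      rw [← D.hτ t s ε g hg _ (D.wv_mem t ε i),
        D.ex t s ε _ ((D.hirr t ε).1 g hg _ (D.wv_mem t ε i)), Fintype.sum_prod_type]
      refine Finset.sum_congr rfl fun j _ => ?_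
      rw [Fintype.sum_bool]
      change _ = ψ (g (wv x y t ε i)) (y t j) • τ t s true (x t j) +
        (-ψ (g (wv x y t ε i)) (x t j)) • τ t s false (y t j)
      rw [neg_smul, sub_eq_add_neg]
  comm z hz t := by
    rw [Module.DualBases.coe_basis]
    choose ζ hζ1 hζ2 using D.scalar z hz t
    refine ⟨fun ε s' s => ζ s s' ε, fun h => ?_, ?_⟩
    · funext s' s
      exact hζ1 s s' h
    · intro i s ε
      refine D.ext_gram ?_
      rintro ⟨t', j, s', ε'⟩
      rw [map_sum, LinearMap.sum_apply]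
      simp only [map_smul, LinearMap.smul_apply, smul_eq_mul]
      by_cases ht : t = t'
      · subst ht
        rw [Finset.sum_eq_single s']
        · rw [D.gram_same]
          exact hζ2 s s' ε ε' _ (D.wv_mem t ε i) _ (D.wv_mem t ε' j)
        · intro s'' _ hs
          rw [D.gram_diff, mul_zero]
          intro h
          apply hs
          cases h
          rfl
        · intro h
          exact absurd (Finset.mem_univ _) h
      · rw [Finset.sum_eq_zero]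
        · exact D.scalar_ne z hz ht s s' ε ε' _ _ (D.wv_mem t ε i) (D.wv_mem t' ε' j)
        · intro s'' _
          rw [D.gram_diff, mul_zero]
          intro h
          apply ht
          exact congrArg Sigma.fst h

end Pre

end Pool.Agent.TateOdd
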