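import Pool.Agent.TateOdd.Pair
import Pool.Agent.GHCFull.S1a

/-!
# Decomposition into blocks
-/

set_option autoImplicit false
set_option linter.unusedSectionVars false

universe u

namespace Pool.Agent.TateOdd

open Pool.Agent.OddRank
open Pool.Agent.GHCFull (NdOn)

variable {H : Type u} [AddCommGroup H] [Module ℂ H] [FiniteDimensional ℂ H]

/-- A block: an irreducible subspace on which the form is nondegenerate (`b = true`), or the sum
of two isotropic irreducible subspaces which are dual but not isomorphic (`b = false`). -/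
structure Blk (ψ : H →ₗ[ℂ] H →ₗ[ℂ] ℂ) (G : Set (Module.End ℂ H)) (P Q : Submodule ℂ H)
    (b : Bool) : Prop where
  hP : Irreducible G P
  hQ : Irreducible G Q
  h0 : ∃ x ∈ P, ∃ y ∈ Q, ψ x y ≠ 0
  ht : b = true → P = Q
  hn : b = false → ¬ Iso G P Q
  hPP : b = false → ∀ x ∈ P, ∀ y ∈ P, ψ x y = 0
  hQQ : b = false → ∀ x ∈ Q, ∀ y ∈ Q, ψ x y = 0

variable {ψ : H →ₗ[ℂ] H →ₗ[ℂ] ℂ} {G : Set (Module.End ℂ H)}

theorem skew_of_alt (halt : ∀ x, ψ x x = 0) (x y : H) : ψ x y = -ψ y x := by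
  have h := halt (x + y)
  simp only [map_add, LinearMap.add_apply, halt, zero_add, add_zero] at h
  rw [eq_neg_iff_add_eq_zero, add_comm]
  exact h

theorem inv2_of_mult (hψ : ∀ e ∈ G, ∀ x y, ψ (e x) y + ψ x (e y) = ψ x y)
    (W W' : Submodule ℂ H) : Inv2 G W W' ψ := fun e he x _ y _ => hψ e he x y

/-- Existence of a block. -/
theorem exists_blk (halt : ∀ x, ψ x x = 0)
    (hψ : ∀ e ∈ G, ∀ x y, ψ (e x) y + ψ x (e y) = ψ x y) (hss : Semisimple G)
    (hsd : ∀ W, Irreducible G W → Paired G W W → ∃ φ, FormOn G W φ)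
    {Y : Submodule ℂ H} (hY : Stable G Y) (hnd : NdOn ψ Y) (h0 : Y ≠ ⊥) :
    ∃ P Q b, P ≤ Y ∧ Q ≤ Y ∧ Blk ψ G P Q b := by
  by_cases hex : ∃ W ≤ Y, Irreducible G W ∧ ∃ x ∈ W, ∃ y ∈ W, ψ x y ≠ 0
  · obtain ⟨W, hWY, hW, hW0⟩ := hex
    exact ⟨W, W, true, hWY, hWY, hW, hW, hW0, fun _ => rfl, fun h => by simp at h,
      fun h => by simp at h, fun h => by simp at h⟩
  have hzero : ∀ W ≤ Y, Irreducible G W → ∀ x ∈ W, ∀ y ∈ W, ψ x y = 0 := by
    intro W hWY hW x hx y hy
    by_contra h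
    exact hex ⟨W, hWY, hW, x, hx, y, hy, h⟩
  obtain ⟨W, hWY, hW⟩ := exists_irr hY h0
  let Z : Submodule ℂ H :=
    { carrier := {y | y ∈ Y ∧ ∀ w ∈ W, ψ w y = 0}
      add_mem' := by
        rintro a b ⟨ha, ha'⟩ ⟨hb, hb'⟩
        refine ⟨Y.add_mem ha hb, fun y hy => ?_⟩
        rw [map_add, ha' y hy, hb' y hy, add_zero]
      zero_mem' := ⟨Y.zero_mem, fun y _ => by rw [map_zero]⟩
      smul_mem' := by
        rintro c a ⟨ha, ha'⟩
        refine ⟨Y.smul_mem c ha, fun y hy => ?_⟩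
        rw [map_smul, ha' y hy, smul_zero] }
  have hZ : Stable G Z := by
    rintro e he y ⟨hy, hy'⟩
    refine ⟨hY e he y hy, fun w hw => ?_⟩
    have h := hψ e he w y
    rw [hy' w hw, hy' (e w) (hW.1 e he w hw), zero_add] at h
    exact h
  have hZY : Z ≤ Y := fun y hy => hy.1
  obtain ⟨U, hU, hc⟩ := hss Z hZ
  have hC : Stable G (Y ⊓ U) := hY.inf hU
  have hC0 : Y ⊓ U ≠ ⊥ := by
    intro h
    have h1 : Y ≤ Z := by
      intro y hy
      have h2 : y ∈ Z ⊔ U := by rw [hc.sup_eq_top]; exact Submodule.mem_top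
      obtain ⟨z, hz, u, hu, rfl⟩ := Submodule.mem_sup.1 h2
      have h3 : u ∈ Y ⊓ U := by
        refine ⟨?_, hu⟩
        have := Y.sub_mem hy (hZY hz)
        rwa [add_sub_cancel_left] at this
      rw [h, Submodule.mem_bot] at h3
      rw [h3, add_zero]
      exact hz
    apply hW.2.1
    rw [eq_bot_iff]
    intro w hw
    rw [Submodule.mem_bot]
    exact hnd w (hWY hw) fun y hy => (h1 hy).2 w hw
  obtain ⟨W', hW'C, hW'⟩ := exists_irr hC hC0
  have hW'Y : W' ≤ Y := hW'C.trans inf_le_left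
  have hpair : ∃ x ∈ W, ∃ y ∈ W', ψ x y ≠ 0 := by
    by_contra hcon
    push Not at hcon
    obtain ⟨x, hx, hx0⟩ := (Submodule.ne_bot_iff W').1 hW'.2.1
    apply hx0
    have h : x ∈ Z ⊓ U := ⟨⟨hW'Y hx, fun w hw => hcon w hw x hx⟩, (hW'C hx).2⟩
    rw [hc.inf_eq_bot, Submodule.mem_bot] at h
    exact h
  have hP : Inv2 G W W' ψ := inv2_of_mult hψ W W'
  refine ⟨W, W', false, hWY, hW'Y, hW, hW', hpair, fun h => by simp at h, fun _ hiso => ?_,
    fun _ => hzero W hWY hW, fun _ => hzero W' hW'Y hW'⟩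
  obtain ⟨f, hf, hm, hinj, hsur⟩ := hm_of_iso hW.1 hiso
  -- the form `ψ x (f y)` on `W`
  have hβ : Inv2 G W W ((LinearMap.lcomp ℂ ℂ f) ∘ₗ ψ) := by
    intro e he x hx y hy
    change ψ (e x) (f y) + ψ x (f (e y)) = ψ x (f y)
    rw [hf e he y hy]
    exact hψ e he x (f y)
  have hβ0 : ∃ x ∈ W, ∃ y ∈ W, ((LinearMap.lcomp ℂ ℂ f) ∘ₗ ψ) x y ≠ 0 := by
    obtain ⟨x, hx, y, hy, hxy⟩ := hpair
    obtain ⟨z, hz, rfl⟩ := hsur y hy
    exact ⟨x, hx, z, hz, hxy⟩
  obtain ⟨φ, hφa, hφn, hφm⟩ := hsd W hW ⟨_, hβ, hβ0⟩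
  have hφ0 : ∃ x ∈ W, ∃ y ∈ W, φ x y ≠ 0 := by
    obtain ⟨x, hx, hx0⟩ := (Submodule.ne_bot_iff W).1 hW.2.1
    by_contra hcon
    push Not at hcon
    exact hx0 (hφn x hx fun y hy => hcon x hx y hy)
  obtain ⟨c, hc⟩ := pair_unique hW hW hφm hφ0 hβ
  -- the irreducible subspace `(1 + f) W`
  have hg : Hm G W (1 + f) := by
    intro e he u hu
    rw [LinearMap.add_apply, LinearMap.add_apply, map_add, hf e he u hu]
    rfl
  have hginj : ∀ u ∈ W, (1 + f) u = 0 → u = 0 := by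
    intro u hu h
    refine hP.nd hW hW'.1 hpair u hu fun y hy => ?_
    have h1 : u = -f u := eq_neg_of_add_eq_zero_left h
    rw [h1, map_neg, LinearMap.neg_apply, hzero W' hW'Y hW' _ (hm u hu) y hy, neg_zero]
  have hgY : W.map (1 + f) ≤ Y := by
    rintro _ ⟨u, hu, rfl⟩
    exact Y.add_mem (hWY hu) (hW'Y (hm u hu))
  have hgz := hzero _ hgY (irr_map hW hg hginj)
  obtain ⟨x, hx, y, hy, hxy⟩ := hβ0
  apply hxy
  have h1 := hgz _ ⟨x, hx, rfl⟩ _ ⟨y, hy, rfl⟩
  rw [LinearMap.add_apply, LinearMap.add_apply, map_add, map_add, LinearMap.add_apply,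
    LinearMap.add_apply, Module.End.one_apply, Module.End.one_apply, hzero W hWY hW x hx y hy,
    hzero W' hW'Y hW' _ (hm x hx) _ (hm y hy), zero_add, add_zero, skew_of_alt halt (f x) y] at h1
  have h2 := hc x hx y hy
  have h3 := hc y hy x hx
  have h4 : φ x y = -φ y x := by
    have h := hφa (x + y) (W.add_mem hx hy)
    simp only [map_add, LinearMap.add_apply, hφa x hx, hφa y hy, zero_add, add_zero] at h
    linear_combination h
  change ψ x (f y) = c * φ x y at h2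
  change ψ y (f x) = c * φ y x at h3
  change ψ x (f y) = 0
  rw [h4] at h2
  linear_combination (1 / 2 : ℂ) * h1 + (1 / 2 : ℂ) * h2 + (1 / 2 : ℂ) * h3

/-- The orthogonal subspace. -/
def perp (ψ : H →ₗ[ℂ] H →ₗ[ℂ] ℂ) (W : Submodule ℂ H) : Submodule ℂ H where
  carrier := {y | ∀ w ∈ W, ψ w y = 0}
  add_mem' := by
    intro a b ha hb w hw
    rw [map_add, ha w hw, hb w hw, add_zero]
  zero_mem' := by
    intro w _
    exact map_zero _
  smul_mem' := by
    intro c a ha w hw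
    rw [map_smul, ha w hw, smul_zero]

theorem nd_split (halt : ∀ x, ψ x x = 0) {W : Submodule ℂ H} (hW : NdOn ψ W) (y : H) :
    ∃ w0 ∈ W, y - w0 ∈ perp ψ W := by
  let T : W →ₗ[ℂ] Module.Dual ℂ W := ψ.flip.domRestrict₁₂ W W
  have hT : ∀ a b : W, T a b = ψ b a := fun a b => rfl
  have hinj : Function.Injective T := by
    rw [← LinearMap.ker_eq_bot, eq_bot_iff]
    intro a ha
    rw [LinearMap.mem_ker] at ha
    rw [Submodule.mem_bot]
    apply Subtype.ext
    refine hW a a.2 fun b hb => ?_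
    have h1 : T a ⟨b, hb⟩ = 0 := by rw [ha]; rfl
    rw [hT] at h1
    rw [skew_of_alt halt, h1, neg_zero]
  have hsurj : Function.Surjective T :=
    (LinearMap.injective_iff_surjective_of_finrank_eq_finrank
      (Subspace.dual_finrank_eq (K := ℂ) (V := W)).symm).1 hinj
  obtain ⟨w0, hw0⟩ := hsurj ((ψ.flip y).comp W.subtype)
  refine ⟨w0, w0.2, fun w hw => ?_⟩
  have h1 : T w0 ⟨w, hw⟩ = ((ψ.flip y).comp W.subtype) ⟨w, hw⟩ := by rw [hw0]
  rw [hT] at h1
  have h2 : ψ w w0 = ψ w y := h1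
  rw [map_sub, h2, sub_self]

/-- The form is nondegenerate on a block. -/
theorem Blk.nd (halt : ∀ x, ψ x x = 0)
    (hψ : ∀ e ∈ G, ∀ x y, ψ (e x) y + ψ x (e y) = ψ x y) {P Q : Submodule ℂ H} {b : Bool}
    (B : Blk ψ G P Q b) : NdOn ψ (P ⊔ Q) := by
  have h1 := (inv2_of_mult hψ P Q).nd B.hP B.hQ.1 B.h0
  have h2 := (inv2_of_mult hψ P Q).nd_right B.hP.1 B.hQ B.h0
  intro z hz h
  cases b with
  | true =>
    have hPQ := B.ht rfl
    subst hPQ
    rw [sup_idem] at hz h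
    exact h1 z hz h
  | false =>
    obtain ⟨p, hp, q, hq, rfl⟩ := Submodule.mem_sup.1 hz
    have hp0 : p = 0 := by
      refine h1 p hp fun y hy => ?_
      have := h y (Submodule.mem_sup_right hy)
      rwa [map_add, LinearMap.add_apply, B.hQQ rfl q hq y hy, add_zero] at this
    have hq0 : q = 0 := by
      refine h2 q hq fun y hy => ?_
      have := h y (Submodule.mem_sup_left hy)
      rw [map_add, LinearMap.add_apply, B.hPP rfl p hp y hy, zero_add] at this
      rw [skew_of_alt halt, this, neg_zero]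
    rw [hp0, hq0, add_zero]

theorem exists_blocks_aux (halt : ∀ x, ψ x x = 0)
    (hψ : ∀ e ∈ G, ∀ x y, ψ (e x) y + ψ x (e y) = ψ x y) (hss : Semisimple G)
    (hsd : ∀ W, Irreducible G W → Paired G W W → ∃ φ, FormOn G W φ) (n : ℕ) :
    ∀ Y : Submodule ℂ H, Module.finrank ℂ Y = n → Stable G Y → NdOn ψ Y →
    ∃ (r : ℕ) (P Q : Fin r → Submodule ℂ H) (b : Fin r → Bool),
      (∀ s, Blk ψ G (P s) (Q s) (b s)) ∧
      (∀ s s', s ≠ s' → ∀ x ∈ P s ⊔ Q s, ∀ y ∈ P s' ⊔ Q s', ψ x y = 0) ∧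
      ⨆ s, (P s ⊔ Q s) = Y := by
  induction n using Nat.strong_induction_on with
  | _ n ih =>
    intro Y hn hY hnd
    by_cases h0 : Y = ⊥
    · refine ⟨0, Fin.elim0, Fin.elim0, Fin.elim0, fun s => s.elim0, fun s => s.elim0, ?_⟩
      rw [h0, iSup_of_empty]
    obtain ⟨P, Q, b, hPY, hQY, B⟩ := exists_blk halt hψ hss hsd hY hnd h0
    have hWY : P ⊔ Q ≤ Y := sup_le hPY hQY
    have hWst : Stable G (P ⊔ Q) := by
      intro e he x hx
      obtain ⟨p, hp, q, hq, rfl⟩ := Submodule.mem_sup.1 hx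
      rw [map_add]
      exact Submodule.add_mem_sup (B.hP.1 e he p hp) (B.hQ.1 e he q hq)
    have hWnd := B.nd halt hψ
    set W := P ⊔ Q with hW
    have hW0 : W ≠ ⊥ := by
      intro h
      apply B.hP.2.1
      rw [eq_bot_iff, ← h, hW]
      exact le_sup_left
    set Y' : Submodule ℂ H := Y ⊓ perp ψ W with hY'
    have hst : Stable G Y' := by
      intro e he y hy
      refine ⟨hY e he y hy.1, fun w hw => ?_⟩
      have h1 := hψ e he w y
      rw [hy.2 w hw, hy.2 (e w) (hWst e he w hw), zero_add] at h1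
      exact h1
    have hlt : Y' < Y := by
      refine lt_of_le_of_ne inf_le_left fun heq => hW0 ?_
      rw [eq_bot_iff]
      intro x hx
      have h1 : x ∈ Y' := by rw [heq]; exact hWY hx
      rw [Submodule.mem_bot]
      refine hWnd x hx fun y hy => ?_
      rw [skew_of_alt halt, h1.2 y hy, neg_zero]
    have hsup : W ⊔ Y' = Y := by
      refine le_antisymm (sup_le hWY inf_le_left) fun y hy => ?_
      obtain ⟨w0, hw0, h1⟩ := nd_split halt hWnd y
      exact Submodule.mem_sup.2 ⟨w0, hw0, y - w0, ⟨Y.sub_mem hy (hWY hw0), h1⟩, by abel⟩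
    have hnd' : NdOn ψ Y' := by
      intro x hx hxy
      refine hnd x hx.1 fun z hz => ?_
      rw [← hsup] at hz
      obtain ⟨w, hw, y, hy, rfl⟩ := Submodule.mem_sup.1 hz
      rw [map_add, hxy y hy, add_zero, skew_of_alt halt, hx.2 w hw, neg_zero]
    obtain ⟨r, P', Q', b', h1, h3, h4⟩ := ih (Module.finrank ℂ Y')
      (by rw [← hn]; exact Submodule.finrank_lt_finrank_of_lt hlt) Y' rfl hst hnd'
    have hU : ∀ s, P' s ⊔ Q' s ≤ Y' := fun s => by
      rw [← h4]; exact le_iSup (fun s => P' s ⊔ Q' s) s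
    refine ⟨r + 1, Fin.cons P P', Fin.cons Q Q', Fin.cons b b', ?_, ?_, ?_⟩
    · intro s
      refine Fin.cases ?_ (fun s => ?_) s
      · simp only [Fin.cons_zero]; exact B
      · simp only [Fin.cons_succ]; exact h1 s
    · intro s s'
      refine Fin.cases ?_ (fun s => ?_) s
      · refine Fin.cases ?_ (fun s' => ?_) s'
        · intro h; exact absurd rfl h
        · intro _ x hx y hy
          simp only [Fin.cons_zero] at hx
          simp only [Fin.cons_succ] at hy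
          exact (hU s' hy).2 x hx
      · refine Fin.cases ?_ (fun s' => ?_) s'
        · intro _ x hx y hy
          simp only [Fin.cons_zero] at hy
          simp only [Fin.cons_succ] at hx
          rw [skew_of_alt halt, (hU s hx).2 y hy, neg_zero]
        · intro h x hx y hy
          simp only [Fin.cons_succ] at hx hy
          exact h3 s s' (fun h' => h (by rw [h'])) x hx y hy
    · refine le_antisymm (iSup_le fun s => ?_) ?_
      · refine Fin.cases ?_ (fun s => ?_) s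
        · simp only [Fin.cons_zero]; exact hWY
        · simp only [Fin.cons_succ]; exact (hU s).trans inf_le_left
      · conv_lhs => rw [← hsup, ← h4]
        refine sup_le ?_ (iSup_le fun s => ?_)
        · have h5 := le_iSup (fun s : Fin (r + 1) => (Fin.cons P P' : Fin (r + 1) → Submodule ℂ H) s
            ⊔ (Fin.cons Q Q' : Fin (r + 1) → Submodule ℂ H) s) 0
          simpa only [Fin.cons_zero] using h5
        · have h5 := le_iSup (fun s : Fin (r + 1) => (Fin.cons P P' : Fin (r + 1) → Submodule ℂ H) s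
            ⊔ (Fin.cons Q Q' : Fin (r + 1) → Submodule ℂ H) s) s.succ
          simpa only [Fin.cons_succ] using h5

/-- Decomposition into an orthogonal sum of blocks. -/
theorem exists_blocks (halt : ∀ x, ψ x x = 0) (hnd : ∀ x, (∀ y, ψ x y = 0) → x = 0)
    (hψ : ∀ e ∈ G, ∀ x y, ψ (e x) y + ψ x (e y) = ψ x y) (hss : Semisimple G)
    (hsd : ∀ W, Irreducible G W → Paired G W W → ∃ φ, FormOn G W φ) :
    ∃ (r : ℕ) (P Q : Fin r → Submodule ℂ H) (b : Fin r → Bool),
      (∀ s, Blk ψ G (P s) (Q s) (b s)) ∧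
      (∀ s s', s ≠ s' → ∀ x ∈ P s ⊔ Q s, ∀ y ∈ P s' ⊔ Q s', ψ x y = 0) ∧
      ⨆ s, (P s ⊔ Q s) = ⊤ :=
  exists_blocks_aux halt hψ hss hsd _ ⊤ rfl (fun _ _ _ _ => Submodule.mem_top)
    fun x _ h => hnd x fun y => h y Submodule.mem_top

end Pool.Agent.TateOdd
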