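import Mathlib

/-!
# Integer relations
-/

set_option autoImplicit false
set_option linter.unusedSectionVars false

namespace Pool.Agent.TateOdd

variable {ι E : Type*} [Fintype ι] [DecidableEq ι]

/-- If there are no positive relations between antisymmetric integer vectors, they span the space
of all antisymmetric rational vectors. -/
theorem mem_span_rat (star : ι → ι) (hstar : ∀ i, star (star i) = i) (v : E → ι → ℤ)
    (hv : ∀ e i, v e (star i) = -v e i)
    (hno : ∀ m : ι → ℕ, (∀ i, m i = 0 ∨ m (star i) = 0) → (∀ e, ∑ i, (m i : ℤ) * v e i = 0) →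
      m = 0) (w : ι → ℚ) (hw : ∀ i, w (star i) = -w i) :
    w ∈ Submodule.span ℚ (Set.range fun e : E => fun i => (v e i : ℚ)) := by
  by_contra hcon
  obtain ⟨f, hf0, hf⟩ := Submodule.exists_le_ker_of_notMem hcon
  -- coordinates of `f`
  have hfx : ∀ x : ι → ℚ, f x = ∑ i, x i * f (Pi.single i 1) := by
    intro x
    conv_lhs => rw [← Finset.univ_sum_single x]
    rw [map_sum]
    refine Finset.sum_congr rfl fun i _ => ?_
    rw [← smul_eq_mul, ← map_smul, ← Pi.single_smul, smul_eq_mul, mul_one]
  set q : ι → ℚ := fun i => f (Pi.single i 1) - f (Pi.single (star i) 1) with hq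
  have hqs : ∀ i, q (star i) = -q i := by
    intro i
    simp only [hq, hstar]
    ring
  -- clear denominators
  obtain ⟨d, hd⟩ : ∃ d : ℕ, 0 < d ∧ ∀ i, ∃ z : ℤ, (d : ℚ) * q i = z := by
    refine ⟨∏ i, (q i).den, Finset.prod_pos fun i _ => (q i).den_pos, fun i => ?_⟩
    have h1 : (q i).den ∣ ∏ i, (q i).den := Finset.dvd_prod_of_mem _ (Finset.mem_univ i)
    obtain ⟨c, hc⟩ := h1
    refine ⟨c * (q i).num, ?_⟩
    rw [hc]
    push_cast
    have h2 : ((q i).den : ℚ) * q i = (q i).num := by
      rw [mul_comm]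
      exact Rat.mul_den_eq_num (q i)
    rw [mul_assoc, mul_comm (c : ℚ), ← mul_assoc, h2]
    ring
  obtain ⟨hd0, hz⟩ := hd
  choose z hz using hz
  have hzs : ∀ i, z (star i) = -z i := by
    intro i
    have h1 := hz (star i)
    rw [hqs, mul_neg, hz] at h1
    exact_mod_cast h1.symm
  -- the relation
  have hrel : ∀ e, ∑ i, z i * v e i = 0 := by
    intro e
    have h1 : f (fun i => (v e i : ℚ)) = 0 := by
      have := hf (Submodule.subset_span ⟨e, rfl⟩)
      exact LinearMap.mem_ker.1 this
    have h2 : ∑ i, q i * v e i = 0 := by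
      have h3 : ∑ i, f (Pi.single (star i) 1) * (v e i : ℚ) = -∑ i, f (Pi.single i 1) * (v e i : ℚ) := by
        rw [← Finset.sum_neg_distrib]
        refine Fintype.sum_equiv ⟨star, star, hstar, hstar⟩ _ _ fun i => ?_
        simp only [Equiv.coe_fn_mk, hv]
        push_cast
        ring
      simp only [hq, sub_mul, Finset.sum_sub_distrib, h3]
      rw [hfx] at h1
      simp only [mul_comm] at h1 ⊢
      linarith
    have h4 : ((∑ i, z i * v e i : ℤ) : ℚ) = 0 := by
      push_cast
      simp only [← hz, mul_assoc]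
      rw [← Finset.mul_sum, h2, mul_zero]
    exact_mod_cast h4
  have hm := hno (fun i => (z i).toNat) (fun i => ?_) fun e => ?_
  · -- `z = 0`
    have hz0 : ∀ i, z i = 0 := by
      intro i
      have h1 := congrFun hm i
      have h2 := congrFun hm (star i)
      simp only [Pi.zero_apply] at h1 h2
      rw [hzs] at h2
      omega
    have hq0 : ∀ i, q i = 0 := by
      intro i
      have h1 := hz i
      rw [hz0] at h1
      have h2 : (d : ℚ) ≠ 0 := by exact_mod_cast hd0.ne'
      simpa [h2] using h1
    apply hf0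
    have h3 : ∑ i, w i * f (Pi.single (star i) 1) = -∑ i, w i * f (Pi.single i 1) := by
      rw [← Finset.sum_neg_distrib]
      refine Fintype.sum_equiv ⟨star, star, hstar, hstar⟩ _ _ fun i => ?_
      simp only [Equiv.coe_fn_mk, hw]
      ring
    have h4 : ∑ i, w i * q i = 0 := Finset.sum_eq_zero fun i _ => by rw [hq0, mul_zero]
    simp only [hq, mul_sub, Finset.sum_sub_distrib, h3] at h4
    rw [hfx]
    linarith
  · rw [hzs]
    omega
  · have h1 : ∀ i, z i = ((z i).toNat : ℤ) - ((z (star i)).toNat : ℤ) := by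
      intro i
      rw [hzs]
      omega
    have h2 := hrel e
    have h3 : ∑ i, z i * v e i = ∑ i, ((z i).toNat : ℤ) * v e i -
        ∑ i, ((z (star i)).toNat : ℤ) * v e i := by
      rw [← Finset.sum_sub_distrib]
      refine Finset.sum_congr rfl fun i _ => ?_
      conv_lhs => rw [h1 i]
      ring
    have h4 : ∑ i, ((z (star i)).toNat : ℤ) * v e i = -∑ i, ((z i).toNat : ℤ) * v e i := by
      rw [← Finset.sum_neg_distrib]
      refine Fintype.sum_equiv ⟨star, star, hstar, hstar⟩ _ _ fun i => ?_
      simp only [Equiv.coe_fn_mk, hv]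
      ring
    rw [h3, h4] at h2
    linarith

/-- The complex version. -/
theorem mem_span_complex (star : ι → ι) (hstar : ∀ i, star (star i) = i) (v : E → ι → ℤ)
    (hv : ∀ e i, v e (star i) = -v e i)
    (hno : ∀ m : ι → ℕ, (∀ i, m i = 0 ∨ m (star i) = 0) → (∀ e, ∑ i, (m i : ℤ) * v e i = 0) →
      m = 0) (w : ι → ℂ) (hw : ∀ i, w (star i) = -w i) :
    w ∈ Submodule.span ℂ (Set.range fun e : E => fun i => (v e i : ℂ)) := by
  classical
  let B := Module.Basis.ofVectorSpace ℚ ℂ
  -- the finite set of basis elements which occur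
  let s : Finset (Module.Basis.ofVectorSpaceIndex ℚ ℂ) :=
    Finset.univ.biUnion fun i => (B.repr (w i)).support
  have h1 : w = ∑ b ∈ s, B b • fun i => ((B.repr (w i) b : ℚ) : ℂ) := by
    funext i
    rw [Finset.sum_apply]
    have h2 : w i = ∑ b ∈ (B.repr (w i)).support, B.repr (w i) b • B b := by
      conv_lhs => rw [← B.linearCombination_repr (w i)]
      rfl
    conv_lhs => rw [h2]
    refine Finset.sum_subset_zero_on_sdiff ?_ ?_ ?_
    · intro b hb
      exact Finset.mem_biUnion.2 ⟨i, Finset.mem_univ i, hb⟩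
    · intro b hb
      have h3 : B.repr (w i) b = 0 := by
        by_contra h
        exact (Finset.mem_sdiff.1 hb).2 (Finsupp.mem_support_iff.2 h)
      rw [Pi.smul_apply, h3]
      simp
    · intro b _
      rw [Pi.smul_apply, smul_eq_mul, mul_comm, Rat.smul_def]
  rw [h1]
  refine Submodule.sum_mem _ fun b _ => Submodule.smul_mem _ _ ?_
  change (fun i => (((fun i => B.repr (w i) b) i : ℚ) : ℂ)) ∈ _
  have h2 := mem_span_rat star hstar v hv hno (fun i => B.repr (w i) b) fun i => by
    rw [hw, map_neg, Finsupp.neg_apply]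
  generalize (fun i => B.repr (w i) b) = x at h2
  induction h2 using Submodule.span_induction with
  | mem x hx =>
    obtain ⟨e, rfl⟩ := hx
    refine Submodule.subset_span ⟨e, ?_⟩
    funext i
    simp
  | zero =>
    have h3 : (fun i : ι => (((0 : ι → ℚ) i : ℚ) : ℂ)) = 0 := by
      funext i
      simp
    rw [h3]
    exact Submodule.zero_mem _
  | add x y _ _ hx hy =>
    have h3 : (fun i : ι => (((x + y) i : ℚ) : ℂ)) =
        (fun i : ι => ((x i : ℚ) : ℂ)) + fun i : ι => ((y i : ℚ) : ℂ) := by
      funext i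
      simp
    rw [h3]
    exact Submodule.add_mem _ hx hy
  | smul c x _ hx =>
    have h3 : (fun i : ι => (((c • x) i : ℚ) : ℂ)) =
        (c : ℂ) • fun i : ι => ((x i : ℚ) : ℂ) := by
      funext i
      simp
    rw [h3]
    exact Submodule.smul_mem _ _ hx

end Pool.Agent.TateOdd
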