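import Pool.Agent.TateOdd.Pair
import Pool.Agent.TateOdd.Lattice
import Pool.Agent.TypeIV.CommMixed

/-!
# The centre of the Lie algebra
-/

set_option autoImplicit false
set_option linter.unusedSectionVars false

namespace Pool.Agent.TateOdd

open Pool.Agent.OddRank (Stable Irreducible Semisimple Equiv Iso exists_proj exists_family schur
  lieSpan subset_lieSpan lieSpan_lie lieSpan_le stable_span comm_span simil_span stable_of_comm
  comm_of_equiv)
open Pool.Agent.TypeIV (derivedSpan pair_irr)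
open Pool.Agent.TypeIV.MX (rst rst_apply rst_mul KSp KSl commutant_mixed)

variable {V : Type*} [AddCommGroup V] [Module ℂ V] [FiniteDimensional ℂ V]
  {G : Set (Module.End ℂ V)}

/-- There are no irreducible subspaces `W a`, no two of them dual, such that every generator has
the mean rank on their sum. -/
def NoRel (G : Set (Module.End ℂ V)) : Prop :=
  ∀ (m : ℕ) (W : Fin m → Submodule ℂ V), 0 < m → (∀ a, Irreducible G (W a)) →
    (∀ a b, ¬ Paired G (W a) (W b)) →
    ¬ ∀ e ∈ G, 2 * ∑ a, Module.finrank ℂ ((W a).map e) = ∑ a, Module.finrank ℂ (W a)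

/-- The traces of skew operators on dual spaces. -/
theorem trace_skew {W W' : Type*} [AddCommGroup W] [Module ℂ W] [FiniteDimensional ℂ W]
    [AddCommGroup W'] [Module ℂ W'] [FiniteDimensional ℂ W'] {φ : W →ₗ[ℂ] W' →ₗ[ℂ] ℂ}
    (h1 : ∀ x, (∀ y, φ x y = 0) → x = 0) (h2 : ∀ y, (∀ x, φ x y = 0) → y = 0)
    {A : Module.End ℂ W} {B : Module.End ℂ W'} (h : ∀ x y, φ (A x) y + φ x (B y) = 0) :
    LinearMap.trace ℂ W A + LinearMap.trace ℂ W' B = 0 := by
  have hinj : Function.Injective φ := by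
    rw [injective_iff_map_eq_zero]
    exact fun x hx => h1 x fun y => by rw [hx, LinearMap.zero_apply]
  have hinj' : Function.Injective φ.flip := by
    rw [injective_iff_map_eq_zero]
    exact fun y hy => h2 y fun x => by
      rw [← LinearMap.flip_apply, hy, LinearMap.zero_apply]
  have hrk : Module.finrank ℂ W' = Module.finrank ℂ (Module.Dual ℂ W) := by
    apply le_antisymm
    · exact LinearMap.finrank_le_finrank_of_injective hinj'
    · rw [Subspace.dual_finrank_eq]
      have := LinearMap.finrank_le_finrank_of_injective hinj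
      rwa [Subspace.dual_finrank_eq] at this
  let E : W' ≃ₗ[ℂ] Module.Dual ℂ W := LinearMap.linearEquivOfInjective φ.flip hinj' hrk
  have hE : ∀ (z : W') (x : W), E z x = φ x z := fun z x => rfl
  have h3 : E.conj B = -Module.Dual.transpose (R := ℂ) A := by
    ext ξ x
    obtain ⟨y, rfl⟩ := E.surjective ξ
    rw [LinearEquiv.conj_apply_apply, LinearEquiv.symm_apply_apply, hE, LinearMap.neg_apply,
      LinearMap.neg_apply]
    change φ x (B y) = -(E y (A x))
    rw [hE]
    linear_combination h x y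
  rw [← LinearMap.trace_conj' B E, h3, map_neg, LinearMap.trace_transpose', add_neg_cancel]

/-- The trace of the restriction of an idempotent. -/
theorem trace_rst_idem {W : Submodule ℂ V} {p : V →ₗ[ℂ] W} (hp : ∀ w : W, p w = w)
    {e : Module.End ℂ V} (he : e * e = e) (hst : ∀ w ∈ W, e w ∈ W) :
    LinearMap.trace ℂ W (rst p e) = (Module.finrank ℂ (W.map e) : ℂ) := by
  have h1 : IsIdempotentElem (rst p e) := by
    rw [IsIdempotentElem, ← rst_mul hp hst hst, he]
  rw [(LinearMap.IsIdempotentElem.isProj_range _ h1).trace,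
    Pool.Agent.TypeIV.MX.finrank_range_rst hp hst]

theorem rst_one {W : Submodule ℂ V} {p : V →ₗ[ℂ] W} (hp : ∀ w : W, p w = w) :
    rst p (1 : Module.End ℂ V) = 1 := by
  ext w
  rw [rst_apply hp (fun w hw => hw)]
  rfl

/-- Every irreducible subspace is dual to a member of the family. -/
theorem exists_dual {ψ : V →ₗ[ℂ] V →ₗ[ℂ] ℂ} (hnd : ∀ x, (∀ y, ψ x y = 0) → x = 0)
    (hGψ : ∀ e ∈ G, ∀ x y, ψ (e x) y + ψ x (e y) = ψ x y) {t : Finset (Submodule ℂ V)}
    (hsup : t.sup id = ⊤) {W : Submodule ℂ V} (hW : Irreducible G W) :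
    ∃ U ∈ t, Paired G W U := by
  obtain ⟨w, hw, hw0⟩ := (Submodule.ne_bot_iff W).1 hW.2.1
  by_contra hcon
  apply hw0
  apply hnd
  have h1 : t.sup id ≤ LinearMap.ker (ψ w) := by
    refine Finset.sup_le fun U hU y hy => ?_
    by_contra h
    exact hcon ⟨U, hU, ψ, fun e he x _ y _ => hGψ e he x y, w, hw, y, hy, h⟩
  rw [hsup] at h1
  exact fun y => h1 Submodule.mem_top

theorem span_props {ψ : V →ₗ[ℂ] V →ₗ[ℂ] ℂ}
    (hGψ : ∀ e ∈ G, ∀ x y, ψ (e x) y + ψ x (e y) = ψ x y) (x : Module.End ℂ V)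
    (hx : x ∈ Submodule.span ℂ ((fun e : Module.End ℂ V => (2 : ℂ) • e - 1) '' G)) :
    (∀ u v, ψ (x u) v + ψ u (x v) = 0) ∧
      ∀ T : Module.End ℂ V, (∀ e ∈ G, e * T = T * e) → x * T = T * x := by
  induction hx using Submodule.span_induction with
  | mem z hz =>
    obtain ⟨e, he, rfl⟩ := hz
    refine ⟨fun u v => ?_, fun T hT => ?_⟩
    · simp only [LinearMap.sub_apply, LinearMap.smul_apply, map_sub, map_smul,
        Module.End.one_apply, smul_eq_mul]
      linear_combination 2 * hGψ e he u v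
    · simp only [sub_mul, mul_sub, smul_mul_assoc, mul_smul_comm, one_mul, mul_one, hT e he]
  | zero => simp
  | add a b _ _ ha hb =>
    refine ⟨fun u v => ?_, fun T hT => ?_⟩
    · simp only [LinearMap.add_apply, map_add]
      linear_combination ha.1 u v + hb.1 u v
    · rw [add_mul, mul_add, ha.2 T hT, hb.2 T hT]
  | smul c a _ ha =>
    refine ⟨fun u v => ?_, fun T hT => ?_⟩
    · simp only [LinearMap.smul_apply, map_smul, smul_eq_mul]
      linear_combination c * ha.1 u v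
    · rw [smul_mul_assoc, mul_smul_comm, ha.2 T hT]

/-- The conditions for an element of the derived algebra. -/
def Adm (ψ : V →ₗ[ℂ] V →ₗ[ℂ] ℂ) (G : Set (Module.End ℂ V)) (D : Module.End ℂ V) : Prop :=
  (∀ x y, ψ (D x) y + ψ x (D y) = 0) ∧
    (∀ T : Module.End ℂ V, (∀ e ∈ G, e * T = T * e) → D * T = T * D) ∧
    ∀ W, Irreducible G W → ∀ A : Module.End ℂ W, (∀ w, (A w : V) = D w) →
      LinearMap.trace ℂ W A = 0

/-- If there are no relations the Lie algebra contains all skew elements of the double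
commutant. -/
theorem lef_le' {ψ : V →ₗ[ℂ] V →ₗ[ℂ] ℂ} (hnd : ∀ x, (∀ y, ψ x y = 0) → x = 0)
    (hGe : ∀ e ∈ G, e * e = e)
    (hGψ : ∀ e ∈ G, ∀ x y, ψ (e x) y + ψ x (e y) = ψ x y) (hss : Semisimple G)
    (hder : ∀ D, Adm ψ G D → D ∈ derivedSpan G)
    (hno : NoRel G) (D : Module.End ℂ V) (hκ : ∀ x y, ψ (D x) y + ψ x (D y) = 0)
    (hcomm : ∀ T : Module.End ℂ V, (∀ e ∈ G, e * T = T * e) → D * T = T * D) :
    D ∈ Submodule.span ℂ ((fun e : Module.End ℂ V => (2 : ℂ) • e - 1) '' G) ⊔ derivedSpan G := by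
  classical
  obtain ⟨t, ht, hsup⟩ := exists_family hss
  -- representatives
  let r : Setoid {W : Submodule ℂ V // W ∈ t} :=
    { r := fun W W' => Iso G W.1 W'.1
      iseqv := ⟨fun W => Iso.refl W.1, fun {W _} h => Iso.symm (ht W.1 W.2).1 h,
        fun {_ _ _} h h' => Iso.trans h h'⟩ }
  let WW : Quotient r → Submodule ℂ V := fun i => i.out.1
  have hWW : ∀ i, Irreducible G (WW i) := fun i => ht _ i.out.2
  have hWWn : ∀ i j, Iso G (WW i) (WW j) → i = j := by
    intro i j h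
    rw [← Quotient.out_eq i, ← Quotient.out_eq j]
    exact Quotient.sound h
  have hrep : ∀ U ∈ t, ∃ i, Iso G (WW i) U := by
    intro U hU
    refine ⟨Quotient.mk r ⟨U, hU⟩, ?_⟩
    exact Quotient.mk_out (⟨U, hU⟩ : {W : Submodule ℂ V // W ∈ t})
  have hfin : Finite (Quotient r) := Quotient.finite r
  have := Fintype.ofFinite (Quotient r)
  choose p hp hpe using fun i => exists_proj hss (hWW i).1
  -- dual classes
  have hdual : ∀ W, Irreducible G W → ∃ j, Paired G W (WW j) := by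
    intro W hW
    obtain ⟨U, hU, h⟩ := exists_dual hnd hGψ hsup hW
    obtain ⟨j, hj⟩ := hrep U hU
    exact ⟨j, h.of_iso_right (hWW j).1 hj⟩
  choose st hst using fun i => hdual (WW i) (hWW i)
  have hstu : ∀ i j, Paired G (WW i) (WW j) → j = st i := fun i j h =>
    hWWn _ _ (Paired.iso (hWW i) (hWW (st i)) (hWW j) (hst i) h)
  have hstst : ∀ i, st (st i) = i := fun i => (hstu (st i) i (hst i).symm).symm
  -- traces of skew operators
  have htr : ∀ x : Module.End ℂ V, (∀ i, ∀ w ∈ WW i, x w ∈ WW i) →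
      (∀ i, ∃ φ : V →ₗ[ℂ] V →ₗ[ℂ] ℂ, Inv2 G (WW i) (WW (st i)) φ ∧
        (∃ x ∈ WW i, ∃ y ∈ WW (st i), φ x y ≠ 0) ∧
        ∀ u ∈ WW i, ∀ v ∈ WW (st i), φ (x u) v + φ u (x v) = 0) →
      ∀ i, LinearMap.trace ℂ _ (rst (p (st i)) x) = -LinearMap.trace ℂ _ (rst (p i) x) := by
    intro x hx h i
    obtain ⟨φ, hφ, h0, hs⟩ := h i
    have h1 := trace_skew (φ := φ.compl₁₂ (WW i).subtype (WW (st i)).subtype)
      (A := rst (p i) x) (B := rst (p (st i)) x)
      (fun u hu => Subtype.ext (hφ.nd (hWW i) (hWW (st i)).1 h0 u u.2 fun y hy => hu ⟨y, hy⟩))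
      (fun u hu => Subtype.ext (hφ.nd_right (hWW i).1 (hWW (st i)) h0 u u.2
        fun y hy => hu ⟨y, hy⟩))
      (fun u v => by
        change φ (rst (p i) x u) v + φ u (rst (p (st i)) x v) = 0
        rw [rst_apply (hp i) (hx i), rst_apply (hp (st i)) (hx (st i))]
        exact hs u u.2 v v.2)
    linear_combination h1
  let v : G → Quotient r → ℤ := fun e i =>
    2 * (Module.finrank ℂ ((WW i).map e.1) : ℤ) - Module.finrank ℂ (WW i)
  have hv1 : ∀ (e : G) i, LinearMap.trace ℂ _ (rst (p i) ((2 : ℂ) • e.1 - 1)) = (v e i : ℂ) := by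
    intro e i
    rw [map_sub, map_smul, rst_one (hp i), map_sub, map_smul,
      trace_rst_idem (hp i) (hGe _ e.2) ((hWW i).1 _ e.2), LinearMap.trace_one]
    simp only [v]
    push_cast
    rw [smul_eq_mul]
  have hv : ∀ (e : G) i, v e (st i) = -v e i := by
    intro e i
    have h1 := htr ((2 : ℂ) • e.1 - 1) (fun i w hw => by
      rw [LinearMap.sub_apply, LinearMap.smul_apply]
      exact (WW i).sub_mem ((WW i).smul_mem _ ((hWW i).1 _ e.2 w hw)) hw) (fun i => by
      obtain ⟨φ, hφ, h0⟩ := hst i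
      refine ⟨φ, hφ, h0, fun u hu v hv => ?_⟩
      simp only [LinearMap.sub_apply, LinearMap.smul_apply, map_sub, map_smul,
        Module.End.one_apply, smul_eq_mul]
      linear_combination 2 * hφ _ e.2 u hu v hv) i
    rw [hv1, hv1] at h1
    exact_mod_cast h1
  -- the traces of `D`
  have hDst : ∀ U, Stable G U → ∀ w ∈ U, D w ∈ U := fun U hU => stable_of_comm hss hcomm hU
  have hD : ∀ i, LinearMap.trace ℂ _ (rst (p (st i)) D) =
      -LinearMap.trace ℂ _ (rst (p i) D) := by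
    refine htr D (fun i => hDst _ (hWW i).1) fun i => ?_
    obtain ⟨φ, hφ, h0⟩ := hst i
    refine ⟨φ, hφ, h0, fun u hu v hv => ?_⟩
    exact pair_irr hss hnd hGψ hκ hcomm ht hsup (hWW i) (hWW (st i))
      (φ := φ.compl₁₂ (WW i).subtype (WW (st i)).subtype)
      (fun u hu => Subtype.ext (hφ.nd (hWW i) (hWW (st i)).1 h0 u u.2 fun y hy => hu ⟨y, hy⟩))
      (fun u hu => Subtype.ext (hφ.nd_right (hWW i).1 (hWW (st i)) h0 u u.2
        fun y hy => hu ⟨y, hy⟩))
      (fun e he u u₂ v v₂ hu hv => by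
        change φ u₂ v + φ u v₂ = φ u v
        rw [hu, hv]
        exact hφ e he u u.2 v v.2) ⟨u, hu⟩ ⟨D u, hDst _ (hWW i).1 u hu⟩ ⟨v, hv⟩
      ⟨D v, hDst _ (hWW (st i)).1 v hv⟩ rfl rfl
  -- no relations
  have hno' : ∀ m : Quotient r → ℕ, (∀ i, m i = 0 ∨ m (st i) = 0) →
      (∀ e, ∑ i, (m i : ℤ) * v e i = 0) → m = 0 := by
    intro m hm1 hm2
    by_contra hm0
    obtain ⟨i0, hi0⟩ := Function.ne_iff.1 hm0
    simp only [Pi.zero_apply] at hi0
    let α := Σ i : Quotient r, Fin (m i)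
    let F : α ≃ Fin (Fintype.card α) := Fintype.equivFin α
    have hsum : ∀ f : Quotient r → ℕ, ∑ a, f (F.symm a).1 = ∑ i, m i * f i := by
      intro f
      rw [Fintype.sum_equiv F.symm (fun a => f (F.symm a).1) (fun b : α => f b.1) fun _ => rfl,
        Fintype.sum_sigma]
      refine Finset.sum_congr rfl fun i _ => ?_
      simp
    refine hno (Fintype.card α) (fun a => WW (F.symm a).1)
      (Fintype.card_pos_iff.2 ⟨⟨i0, ⟨0, Nat.pos_of_ne_zero hi0⟩⟩⟩) (fun a => hWW _) ?_ ?_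
    · intro a b hab
      have h1 := hstu _ _ hab
      have h2 : m (F.symm a).1 ≠ 0 := fun h => (h ▸ (F.symm a).2 : Fin 0).elim0
      have h3 : m (st (F.symm a).1) ≠ 0 := by
        rw [← h1]
        exact fun h => (h ▸ (F.symm b).2 : Fin 0).elim0
      rcases hm1 (F.symm a).1 with h | h
      · exact h2 h
      · exact h3 h
    · intro e he
      rw [hsum fun i => Module.finrank ℂ ((WW i).map e), hsum fun i => Module.finrank ℂ (WW i)]
      have h1 := hm2 ⟨e, he⟩
      simp only [v, mul_sub, Finset.sum_sub_distrib] at h1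
      have h2 : ((2 * ∑ i, m i * Module.finrank ℂ ((WW i).map e) : ℕ) : ℤ) =
          ((∑ i, m i * Module.finrank ℂ (WW i) : ℕ) : ℤ) := by
        push_cast
        rw [Finset.mul_sum]
        rw [sub_eq_zero] at h1
        rw [← h1]
        exact Finset.sum_congr rfl fun i _ => by ring
      exact_mod_cast h2
  have hmem := mem_span_complex st hstst v hv hno'
    (fun i => LinearMap.trace ℂ _ (rst (p i) D)) hD
  -- an element of the span with the same traces
  obtain ⟨x, hx, hxD⟩ : ∃ x ∈ Submodule.span ℂ ((fun e : Module.End ℂ V => (2 : ℂ) • e - 1) '' G),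
      ∀ i, LinearMap.trace ℂ _ (rst (p i) x) = LinearMap.trace ℂ _ (rst (p i) D) := by
    let Θ : Module.End ℂ V →ₗ[ℂ] (Quotient r → ℂ) :=
      LinearMap.pi fun i => LinearMap.trace ℂ _ ∘ₗ rst (p i)
    have h1 : Submodule.span ℂ (Set.range fun e : G => fun i => (v e i : ℂ)) ≤
        (Submodule.span ℂ ((fun e : Module.End ℂ V => (2 : ℂ) • e - 1) '' G)).map Θ := by
      rw [Submodule.span_le]
      rintro _ ⟨e, rfl⟩
      refine ⟨(2 : ℂ) • e.1 - 1, Submodule.subset_span ⟨e.1, e.2, rfl⟩, ?_⟩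
      funext i
      exact hv1 e i
    obtain ⟨x, hx, hxD⟩ := h1 hmem
    exact ⟨x, hx, fun i => congrFun hxD i⟩
  obtain ⟨hxκ, hxc⟩ := span_props hGψ x hx
  rw [show D = x + (D - x) by abel]
  refine Submodule.add_mem_sup hx (hder (D - x)
    ⟨fun u v => ?_, fun T hT => ?_, fun W hW A hA => ?_⟩)
  · simp only [LinearMap.sub_apply, map_sub]
    linear_combination hκ u v - hxκ u v
  · rw [sub_mul, mul_sub, hcomm T hT, hxc T hT]
  · have hc : ∀ T : Module.End ℂ V, (∀ e ∈ G, e * T = T * e) → (D - x) * T = T * (D - x) :=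
      fun T hT => by rw [sub_mul, mul_sub, hcomm T hT, hxc T hT]
    obtain ⟨j, hj⟩ := hdual W hW
    have hiso : Iso G W (WW (st j)) := Paired.iso (hWW j) (hWW (st j)) hW (hst j) hj.symm
    obtain ⟨f, hf, hfb⟩ := hiso
    let E : W ≃ₗ[ℂ] WW (st j) := LinearEquiv.ofBijective f hfb
    have hst' : ∀ w ∈ WW (st j), (D - x) w ∈ WW (st j) := stable_of_comm hss hc (hWW (st j)).1
    have h1 : E.conj A = rst (p (st j)) (D - x) := by
      ext w
      obtain ⟨u, rfl⟩ := E.surjective w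
      rw [LinearEquiv.conj_apply_apply, LinearEquiv.symm_apply_apply,
        rst_apply (hp (st j)) hst']
      exact comm_of_equiv hss hc hW.1 hf u (A u) (hA u)
    rw [← LinearMap.trace_conj' A E, h1, map_sub, map_sub, hxD, sub_self]

theorem lef_le {ψ : V →ₗ[ℂ] V →ₗ[ℂ] ℂ} (hnd : ∀ x, (∀ y, ψ x y = 0) → x = 0)
    (hGe : ∀ e ∈ G, e * e = e)
    (hGψ : ∀ e ∈ G, ∀ x y, ψ (e x) y + ψ x (e y) = ψ x y) (hss : Semisimple G)
    (hkind : ∀ W, Irreducible G W → Module.finrank ℂ W = 1 ∨ KSp G W ∨ KSl G W)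
    (hno : NoRel G) (D : Module.End ℂ V) (hκ : ∀ x y, ψ (D x) y + ψ x (D y) = 0)
    (hcomm : ∀ T : Module.End ℂ V, (∀ e ∈ G, e * T = T * e) → D * T = T * D) :
    D ∈ Submodule.span ℂ ((fun e : Module.End ℂ V => (2 : ℂ) • e - 1) '' G) ⊔ derivedSpan G :=
  lef_le' hnd hGe hGψ hss (fun D h => (commutant_mixed hnd hGe hGψ hss hkind D).2 h) hno D hκ
    hcomm

end Pool.Agent.TateOdd
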