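import Pool.Agent.TateOdd.Dir1

/-!
# Weil classes
-/

set_option autoImplicit false
set_option linter.unusedSectionVars false

universe u

namespace Pool.Agent.TateOdd

open Pool.Agent.OddRank (Stable Irreducible Semisimple Equiv Iso exists_proj exists_family schur
  lieSpan subset_lieSpan lieSpan_lie lieSpan_le stable_span comm_span simil_span stable_of_comm
  comm_of_equiv FormOn)
open Pool.Agent.TypeIV (derivedSpan pair_irr)
open Pool.Agent.TypeIV.MX (rst rst_apply rst_mul KSp KSl commutant_mixed)
open Pool.Agent.GHCFull (AForm der der_apply der_add der_smul der_one der_der)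

section Det

variable {U : Type u} [AddCommGroup U] [Module ℂ U] [FiniteDimensional ℂ U]

theorem det_update {k : ℕ} (b : Module.Basis (Fin k) ℂ U) (i : Fin k) (x : U) :
    b.det (Function.update b i x) = b.repr x i := by
  rw [Module.Basis.det_apply, Module.Basis.toMatrix_update, Module.Basis.toMatrix_self,
    ← Matrix.cramer_apply, Matrix.cramer_one]
  rfl

/-- The derivation acts on the volume form by the trace. -/
theorem der_det {k : ℕ} (b : Module.Basis (Fin k) ℂ U) (E : Module.End ℂ U) :
    der E k b.det = LinearMap.trace ℂ U E • b.det := by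
  rw [(der E k b.det).eq_smul_basis_det b]
  congr 1
  rw [der_apply, LinearMap.trace_eq_matrix_trace ℂ b]
  refine Finset.sum_congr rfl fun i _ => ?_
  rw [det_update, Matrix.diag_apply, LinearMap.toMatrix_apply]

end Det

/-- The trace of a product of operators. -/
theorem trace_pi {m : ℕ} {W : Fin m → Type u} [∀ a, AddCommGroup (W a)] [∀ a, Module ℂ (W a)]
    [∀ a, FiniteDimensional ℂ (W a)] (A : ∀ a, Module.End ℂ (W a)) :
    LinearMap.trace ℂ (∀ a, W a) (LinearMap.pi fun a => A a ∘ₗ LinearMap.proj a) =
      ∑ a, LinearMap.trace ℂ (W a) (A a) := by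
  classical
  have h1 : (LinearMap.pi fun a => A a ∘ₗ LinearMap.proj a : Module.End ℂ (∀ a, W a)) =
      ∑ a, LinearMap.single ℂ W a ∘ₗ (A a ∘ₗ LinearMap.proj a) := by
    refine LinearMap.ext fun w => funext fun b => ?_
    rw [LinearMap.sum_apply, Finset.sum_apply, Finset.sum_eq_single b]
    · simp
    · intro a _ ha
      simp [Pi.single_eq_of_ne (Ne.symm ha)]
    · intro h
      exact absurd (Finset.mem_univ _) h
  rw [h1, map_sum]
  refine Finset.sum_congr rfl fun a _ => ?_
  rw [LinearMap.trace_comp_comm']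
  congr 1
  ext w
  simp

variable {V : Type u} [AddCommGroup V] [Module ℂ V] [FiniteDimensional ℂ V]
  {G : Set (Module.End ℂ V)}

/-- Products of invariant two forms vanish on sums of irreducible subspaces no two of which are
dual. -/
theorem prods_vanish {m : ℕ} {W : Fin m → Submodule ℂ V} (hst : ∀ a, Stable G (W a))
    (hno : ∀ a b, ¬ Paired G (W a) (W b)) {j : ℕ} (hj : 0 < j) {f : AForm (Fin m → V) (2 * j)}
    (hf : f ∈ prods (Div (dg m '' G)) j) (w : Fin (2 * j) → Fin m → V)
    (hw : ∀ i a, w i a ∈ W a) : f w = 0 := by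
  classical
  have hω : ∀ ω : (Fin m → V) →ₗ[ℂ] (Fin m → V) →ₗ[ℂ] ℂ, Div (dg m '' G) ω →
      ∀ x y : Fin m → V, (∀ a, x a ∈ W a) → (∀ a, y a ∈ W a) → ω x y = 0 := by
    intro ω hω x y hx hy
    have hab : ∀ a b, ∀ u ∈ W a, ∀ v ∈ W b, ω (Pi.single a u) (Pi.single b v) = 0 := by
      intro a b u hu v hv
      by_contra h
      refine hno a b ⟨ω.compl₁₂ (LinearMap.single ℂ (fun _ => V) a)
        (LinearMap.single ℂ (fun _ => V) b), ?_, u, hu, v, hv, h⟩
      intro e he u hu v hv
      have h1 : ∀ (a : Fin m) (x : V), dg m e (Pi.single a x) = Pi.single a (e x) := by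
        intro a x
        funext b
        rw [dg_apply]
        by_cases hb : b = a
        · subst hb
          rw [Pi.single_eq_same, Pi.single_eq_same]
        · rw [Pi.single_eq_of_ne hb, Pi.single_eq_of_ne hb, map_zero]
      have h2 := hω.2 _ ⟨e, he, rfl⟩ (Pi.single a u) (Pi.single b v)
      rw [h1, h1] at h2
      exact h2
    rw [← Finset.univ_sum_single x, ← Finset.univ_sum_single y, map_sum]
    refine Finset.sum_eq_zero fun b _ => ?_
    rw [map_sum, LinearMap.sum_apply]
    exact Finset.sum_eq_zero fun a _ => hab a b _ (hx a) _ (hy b)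
  unfold prods at hf
  induction hf using Submodule.span_induction with
  | mem η hη =>
    obtain ⟨ω, h1, h2⟩ := hη
    rw [h2]
    refine Finset.sum_eq_zero fun σ _ => ?_
    rw [Finset.prod_eq_zero (Finset.mem_univ (⟨0, hj⟩ : Fin j)), mul_zero]
    exact hω _ (h1 _) _ _ (hw _) (hw _)
  | zero => rfl
  | add x y _ _ hx hy => rw [AlternatingMap.add_apply, hx, hy, add_zero]
  | smul c x _ hx => rw [AlternatingMap.smul_apply, hx, smul_zero]

/-- **The second implication.** -/
theorem noRel_of_tate (hne : G.Nonempty) (hGe : ∀ e ∈ G, e * e = e) (hss : Semisimple G)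
    (h : ∀ (n j : ℕ) (f : AForm (Fin n → V) (2 * j)),
      (∀ e ∈ G, der (dg n e) (2 * j) f = (j : ℂ) • f) → f ∈ prods (Div (dg n '' G)) j) :
    NoRel G := by
  classical
  intro m W hm hW hno hrel
  choose p hp hpe using fun a => exists_proj hss (hW a).1
  obtain ⟨e0, he0⟩ := hne
  set j : ℕ := ∑ a, Module.finrank ℂ ((W a).map e0) with hj
  have hd : Module.finrank ℂ (∀ a, W a) = 2 * j := by
    rw [Module.finrank_pi_fintype, ← hrel e0 he0]
  let b : Module.Basis (Fin (2 * j)) ℂ (∀ a, W a) := Module.finBasisOfFinrankEq ℂ _ hd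
  let P : (Fin m → V) →ₗ[ℂ] (∀ a, W a) := LinearMap.pi fun a => p a ∘ₗ LinearMap.proj a
  let f : AForm (Fin m → V) (2 * j) := b.det.compLinearMap P
  have hfa : ∀ w, f w = b.det fun i => P (w i) := fun w => rfl
  have hf : ∀ e ∈ G, der (dg m e) (2 * j) f = (j : ℂ) • f := by
    intro e he
    let E : Module.End ℂ (∀ a, W a) := LinearMap.pi fun a => rst (p a) e ∘ₗ LinearMap.proj a
    have hPE : ∀ w, P (dg m e w) = E (P w) := by
      intro w
      funext a
      apply Subtype.ext
      change (p a (e (w a)) : V) = (rst (p a) e (p a (w a)) : V)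
      rw [rst_apply (hp a) ((hW a).1 e he), hpe a e he]
    have htr : LinearMap.trace ℂ _ E = (j : ℂ) := by
      rw [trace_pi]
      have h1 : ∀ a, LinearMap.trace ℂ _ (rst (p a) e) =
          (Module.finrank ℂ ((W a).map e) : ℂ) := fun a =>
        trace_rst_idem (hp a) (hGe e he) ((hW a).1 e he)
      simp only [h1]
      have h2 := (hrel e he).trans (hrel e0 he0).symm
      have h3 : ∑ a, Module.finrank ℂ ((W a).map e) = j := by
        rw [← hj] at h2
        omega
      exact_mod_cast congrArg (Nat.cast : ℕ → ℂ) h3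
    ext w
    rw [der_apply, AlternatingMap.smul_apply]
    have h1 := congrArg (fun η : AForm (∀ a, W a) (2 * j) => η fun i => P (w i)) (der_det b E)
    simp only [der_apply, AlternatingMap.smul_apply, htr] at h1
    rw [hfa, ← h1]
    refine Finset.sum_congr rfl fun i _ => ?_
    rw [hfa]
    congr 1
    funext k
    by_cases hk : k = i
    · subst hk
      rw [Function.update_self, Function.update_self, hPE]
    · rw [Function.update_of_ne hk, Function.update_of_ne hk]
  have hj0 : 0 < j := by
    have h1 : 0 < Module.finrank ℂ (∀ a, W a) := by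
      have : Nontrivial (W ⟨0, hm⟩) := Submodule.nontrivial_iff_ne_bot.2 (hW _).2.1
      have : Nontrivial (∀ a, W a) := Pi.nontrivial_at ⟨0, hm⟩
      exact Module.finrank_pos
    omega
  have h1 := prods_vanish (fun a => (hW a).1) hno hj0 (h m j f hf) (fun i a => (b i a : V))
    fun i a => (b i a).2
  rw [hfa] at h1
  have h2 : (fun i => P fun a => (b i a : V)) = b := by
    funext i a
    exact hp a (b i a)
  rw [h2, Module.Basis.det_self] at h1
  exact one_ne_zero h1

end Pool.Agent.TateOdd
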