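import Pool.Agent.TateOdd.E1

/-!
# Weights
-/

set_option autoImplicit false
set_option linter.unusedSectionVars false

universe u

namespace Pool.Agent.TateOdd

open Pool.Agent.OddRank (Stable Irreducible Semisimple Equiv Iso exists_proj exists_family schur
  lieSpan subset_lieSpan lieSpan_lie lieSpan_le stable_span comm_span simil_span stable_of_comm
  comm_of_equiv FormOn)
open Pool.Agent.TypeIV (derivedSpan pair_irr)
open Pool.Agent.TypeIV.MX (rst rst_apply rst_mul KSp KSl commutant_mixed)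
open Pool.Agent.GHCFull (AForm der der_apply der_add der_smul der_one der_der Idx finite_aform)

variable {V : Type u} [AddCommGroup V] [Module ℂ V] [FiniteDimensional ℂ V]
  {G : Set (Module.End ℂ V)} {ψ : V →ₗ[ℂ] V →ₗ[ℂ] ℂ}
variable {T : Type} [Fintype T] [DecidableEq T] {I S : T → Type} [∀ t, Fintype (I t)]
  [∀ t, DecidableEq (I t)] [∀ t, Fintype (S t)] [∀ t, DecidableEq (S t)]
  {sy : T → Bool} {W : T → Bool → Submodule ℂ V} {τ : ∀ t, S t → Bool → Module.End ℂ V}
  {x y : ∀ t, I t → V}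

/-- The coordinates on the model spaces. -/
noncomputable def cf (ψ : V →ₗ[ℂ] V →ₗ[ℂ] ℂ) (x y : ∀ t, I t → V) (t : T) (ε : Bool) (i : I t) :
    V →ₗ[ℂ] ℂ :=
  if ε then ψ.flip (y t i) else -ψ.flip (x t i)

/-- The trace on the model space. -/
noncomputable def trc (ψ : V →ₗ[ℂ] V →ₗ[ℂ] ℂ) (x y : ∀ t, I t → V) (t : T)
    (D : Module.End ℂ V) : ℂ :=
  ∑ i, ψ (D (x t i)) (y t i)

/-- The expansion in the model basis. -/
def Exp (ψ : V →ₗ[ℂ] V →ₗ[ℂ] ℂ) (W : T → Bool → Submodule ℂ V) (x y : ∀ t, I t → V) : Prop :=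
  ∀ t ε, ∀ u ∈ W t ε, u = ∑ i, (ψ u (y t i) • x t i - ψ u (x t i) • y t i)

theorem trc_sub (t : T) (D D' : Module.End ℂ V) :
    trc ψ x y t (D - D') = trc ψ x y t D - trc ψ x y t D' := by
  unfold trc
  rw [← Finset.sum_sub_distrib]
  refine Finset.sum_congr rfl fun i _ => ?_
  rw [LinearMap.sub_apply, map_sub, LinearMap.sub_apply]

theorem trc_sum_smul {ι : Type*} (s : Finset ι) (t : T) (a : ι → ℂ) (D : ι → Module.End ℂ V) :
    trc ψ x y t (∑ j ∈ s, a j • D j) = ∑ j ∈ s, a j * trc ψ x y t (D j) := by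
  unfold trc
  simp only [LinearMap.sum_apply, LinearMap.smul_apply, map_sum, map_smul, smul_eq_mul,
    Finset.mul_sum]
  exact Finset.sum_comm

namespace Pre

variable (P : Pre ψ G sy W τ x y) (hex : Exp ψ W x y)

include P

theorem cf_wv (t : T) (ε : Bool) (i j : I t) :
    cf ψ x y t ε i (wv x y t ε j) = if j = i then 1 else 0 := by
  cases ε with
  | true => exact P.xy t j i
  | false =>
    change -ψ (y t j) (x t i) = _
    rw [skew_of_alt P.halt, neg_neg, P.xy]
    by_cases h : j = i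
    · rw [if_pos h, if_pos h.symm]
    · rw [if_neg h, if_neg fun h' => h h'.symm]

include hex

theorem cf_expand {t : T} (ht : sy t = false) {ε : Bool} {u : V} (hu : u ∈ W t ε) :
    u = ∑ i, cf ψ x y t ε i u • wv x y t ε i := by
  conv_lhs => rw [hex t ε u hu]
  refine Finset.sum_congr rfl fun i _ => ?_
  cases ε with
  | true =>
    rw [P.iso0 ht hu (P.hx t i), zero_smul, sub_zero]
    rfl
  | false =>
    rw [P.iso0 ht hu (P.hy t i), zero_smul, zero_sub, ← neg_smul]
    rfl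

theorem trace_rst {t : T} (ht : sy t = false) {ε : Bool} {p : V →ₗ[ℂ] W t ε}
    (hp : ∀ w : W t ε, p w = w) {D : Module.End ℂ V} (hD : ∀ u ∈ W t ε, D u ∈ W t ε) :
    LinearMap.trace ℂ _ (rst p D) = ∑ i, cf ψ x y t ε i (D (wv x y t ε i)) := by
  have h1 : rst p D = ∑ i, (cf ψ x y t ε i ∘ₗ D ∘ₗ (W t ε).subtype).smulRight
      ⟨wv x y t ε i, P.wv_mem t ε i⟩ := by
    ext w
    rw [rst_apply hp hD, P.cf_expand hex ht (hD w w.2), LinearMap.sum_apply,
      AddSubmonoidClass.coe_finsetSum]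
    refine Finset.sum_congr rfl fun i _ => ?_
    rfl
  rw [h1, map_sum]
  refine Finset.sum_congr rfl fun i _ => ?_
  rw [LinearMap.trace_smulRight]
  rfl

theorem finrank_W {t : T} (ht : sy t = false) (ε : Bool) :
    Module.finrank ℂ (W t ε) = Fintype.card (I t) := by
  obtain ⟨q, hq⟩ := Submodule.exists_isCompl (W t ε)
  have h1 := P.trace_rst hex ht (p := (W t ε).projectionOnto q hq)
    (fun w => Submodule.projectionOnto_apply_left hq w) (D := 1) (fun u hu => hu)
  rw [rst_one (fun w => Submodule.projectionOnto_apply_left hq w), LinearMap.trace_one] at h1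
  have h2 : ∀ i, cf ψ x y t ε i ((1 : Module.End ℂ V) (wv x y t ε i)) = 1 := by
    intro i
    rw [Module.End.one_apply, P.cf_wv, if_pos rfl]
  rw [Finset.sum_congr rfl fun i _ => h2 i, Finset.sum_const, Finset.card_univ, nsmul_eq_mul,
    mul_one] at h1
  exact_mod_cast h1

theorem cf_skew {t : T} {D : Module.End ℂ V} (hD : D ∈ Lf ψ G) (ε : Bool) :
    ∑ i, cf ψ x y t ε i (D (wv x y t ε i)) = (if ε then 1 else -1) * trc ψ x y t D := by
  unfold trc
  rw [Finset.mul_sum]
  refine Finset.sum_congr rfl fun i _ => ?_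
  cases ε with
  | true =>
    rw [if_pos rfl, one_mul]
    rfl
  | false =>
    change -ψ (D (y t i)) (x t i) = (if false = true then 1 else -1) * ψ (D (x t i)) (y t i)
    rw [if_neg (by simp), skew_of_alt P.halt (D (y t i))]
    linear_combination hD.1 (x t i) (y t i)

theorem trace_sy (U : Su ψ G) {t : T} (ht : sy t = true) {ε : Bool} {p : V →ₗ[ℂ] W t ε}
    (hp : ∀ w : W t ε, p w = w) {D : Module.End ℂ V} (hD : D ∈ Lf ψ G) :
    LinearMap.trace ℂ _ (rst p D) = 0 := by
  have h1 : W t ε = W t true ∧ W t ε = W t false := by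
    have h := (P.hS t ht).1
    cases ε with
    | true => exact ⟨rfl, h⟩
    | false => exact ⟨h.symm, rfl⟩
  have hst := U.st hD (P.hirr t ε).1
  have h0 : ∃ u ∈ W t ε, ∃ v ∈ W t ε, ψ u v ≠ 0 := by
    obtain ⟨u, hu, v, hv, h⟩ := P.h0 t
    exact ⟨u, h1.1 ▸ hu, v, h1.2 ▸ hv, h⟩
  have h2 := trace_skew (φ := ψ.compl₁₂ (W t ε).subtype (W t ε).subtype)
    (A := rst p D) (B := rst p D)
    (fun u hu => Subtype.ext ((inv2_of_mult P.hψ _ _).nd (P.hirr t ε) (P.hirr t ε).1 h0 u u.2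
      fun v hv => hu ⟨v, hv⟩))
    (fun u hu => Subtype.ext ((inv2_of_mult P.hψ _ _).nd_right (P.hirr t ε).1 (P.hirr t ε) h0 u
      u.2 fun v hv => hu ⟨v, hv⟩))
    (fun u v => by
      change ψ (rst p D u) v + ψ u (rst p D v) = 0
      rw [rst_apply hp hst, rst_apply hp hst]
      exact hD.1 u v)
  linear_combination (1 / 2 : ℂ) * h2

/-- The traces on the irreducible subspaces are determined by the traces on the model spaces. -/
theorem trace_irr (U : Su ψ G) {D : Module.End ℂ V} (hD : D ∈ Lf ψ G)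
    (h0 : ∀ t, sy t = false → trc ψ x y t D = 0) (W' : Submodule ℂ V) (hW' : Irreducible G W')
    (A : Module.End ℂ W') (hA : ∀ w, (A w : V) = D w) : LinearMap.trace ℂ W' A = 0 := by
  obtain ⟨w, hw, hw0⟩ := (Submodule.ne_bot_iff W').1 hW'.2.1
  obtain ⟨t, s, ε, u, hu, hne⟩ : ∃ t s ε, ∃ u ∈ W t ε, ψ w (τ t s ε u) ≠ 0 := by
    by_contra hcon
    apply hw0
    apply P.hnd
    have h1 : LinearMap.ker (ψ w) = ⊤ := by
      apply P.hsup
      intro t s ε u hu
      rw [LinearMap.mem_ker]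
      by_contra h
      exact hcon ⟨t, s, ε, u, hu, h⟩
    intro z
    have h2 : z ∈ LinearMap.ker (ψ w) := by rw [h1]; exact Submodule.mem_top
    exact h2
  obtain ⟨p, hp, hpe⟩ := exists_proj U.hss (P.hirr t ε).1
  have hst := U.st hD (P.hirr t ε).1
  have hI : Inv2 G W' (W t ε) (ψ.compl₂ (τ t s ε)) := by
    intro g hg a ha b hb
    change ψ (g a) (τ t s ε b) + ψ a (τ t s ε (g b)) = ψ a (τ t s ε b)
    rw [P.hτ t s ε g hg b hb]
    exact P.hψ g hg _ _
  have hz : ∃ a ∈ W', ∃ b ∈ W t ε, (ψ.compl₂ (τ t s ε)) a b ≠ 0 := ⟨w, hw, u, hu, hne⟩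
  have h2 := trace_skew (φ := (ψ.compl₂ (τ t s ε)).compl₁₂ W'.subtype (W t ε).subtype)
    (A := A) (B := rst p D)
    (fun a ha => Subtype.ext (hI.nd hW' (P.hirr t ε).1 hz a a.2 fun v hv => ha ⟨v, hv⟩))
    (fun b hb => Subtype.ext (hI.nd_right hW'.1 (P.hirr t ε) hz b b.2 fun v hv => hb ⟨v, hv⟩))
    (fun a b => by
      change ψ (A a) (τ t s ε b) + ψ a (τ t s ε (rst p D b)) = 0
      rw [rst_apply hp hst, hA, ← U.hm hD (P.hirr t ε).1 (P.hτ t s ε) b b.2]
      exact hD.1 _ _)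
  have h3 : LinearMap.trace ℂ _ (rst p D) = 0 := by
    cases ht : sy t with
    | true => exact P.trace_sy hex U ht hp hD
    | false => rw [P.trace_rst hex ht hp hst, P.cf_skew hex hD, h0 t ht, mul_zero]
  rw [h3, add_zero] at h2
  exact h2

theorem trc_en (U : Su ψ G) (hS : ∀ t, Nonempty (S t)) (t t' : T) (i : I t) :
    trc ψ x y t' (en P.dual.basis t i i) = if t' = t then 1 else 0 := by
  have hA := P.ad
  have hen : en P.dual.basis t i i ∈ Lf ψ G :=
    ⟨hA.en_skew U.halt t _ _, fun z hz => hA.en_comm t _ _ z hz⟩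
  obtain ⟨s⟩ := hS t'
  have hb : ∀ j ε, P.dual.basis ⟨t', j, s, ε⟩ = τ t' s ε (wv x y t' ε j) := by
    intro j ε
    rw [Module.DualBases.coe_basis]
    rfl
  have h1 : ∀ j, ψ (en P.dual.basis t i i (x t' j)) (y t' j) =
      ψ (en P.dual.basis t i i (P.dual.basis ⟨t', j, s, true⟩)) (P.dual.basis ⟨t', j, s, false⟩) := by
    intro j
    rw [hb, hb, U.hm hen (P.hirr t' true).1 (P.hτ t' s true) _ (P.wv_mem t' true j)]
    exact (P.hi t' s true false _ (U.st hen (P.hirr t' true).1 _ (P.hx t' j)) _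
      (P.hy t' j)).symm
  unfold trc
  simp only [h1]
  by_cases ht : t' = t
  · subst ht
    rw [if_pos rfl, Finset.sum_eq_single i]
    · rw [en, LinearMap.sub_apply, el_eq, el_eq]
      simp only [true_and, if_true, Bool.true_eq_false, and_false, if_false, sub_zero]
      exact hA.ψ_tf _ _ _
    · intro j _ hj
      rw [en, LinearMap.sub_apply, el_eq, el_eq]
      simp [hj]
    · intro h
      exact absurd (Finset.mem_univ _) h
  · rw [if_neg ht]
    refine Finset.sum_eq_zero fun j _ => ?_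
    rw [en, LinearMap.sub_apply, el_ne _ _ _ _ _ _ _ ht, el_ne _ _ _ _ _ _ _ ht, sub_zero,
      map_zero, LinearMap.zero_apply]

/-- The weight of a simultaneous eigenvector. -/
theorem weight (U : Su ψ G) (hS : ∀ t, Nonempty (S t)) (i : ∀ t, I t) (n k : ℕ) (c : ℂ)
    {f : AForm (Fin n → V) k} (hf : f ∈ TC G n k c) (m : T → ℤ)
    (hm : ∀ t, der (dg n (en P.dual.basis t (i t) (i t))) k f = (m t : ℂ) • f)
    {D : Module.End ℂ V} (hD : D ∈ Lf ψ G) :
    der (dg n D) k f = (∑ t, (if sy t then 0 else trc ψ x y t D) * m t) • f := by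
  have hA := P.ad
  have hen : ∀ t, en P.dual.basis t (i t) (i t) ∈ Lf ψ G := fun t =>
    ⟨hA.en_skew U.halt t _ _, fun z hz => hA.en_comm t _ _ z hz⟩
  set X : Module.End ℂ V := ∑ t, (if sy t then 0 else trc ψ x y t D) •
    en P.dual.basis t (i t) (i t) with hX
  have hXL : X ∈ Lf ψ G := Submodule.sum_mem _ fun t _ => Submodule.smul_mem _ _ (hen t)
  have hDX : D - X ∈ Lf ψ G := Submodule.sub_mem _ hD hXL
  have h1 : D - X ∈ derivedSpan G := by
    refine U.hder _ ⟨hDX.1, hDX.2, P.trace_irr hex U hDX fun t ht => ?_⟩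
    rw [trc_sub, hX, trc_sum_smul, Finset.sum_eq_single t]
    · rw [P.trc_en hex U hS, if_pos rfl, mul_one, if_neg (by rw [ht]; simp), sub_self]
    · intro t' _ ht'
      rw [P.trc_en hex U hS, if_neg (c := t = t') fun h => ht' h.symm, mul_zero]
    · intro h
      exact absurd (Finset.mem_univ _) h
  have h2 := derived_kill n k f c hf _ h1
  rw [map_sub, der_sub, sub_eq_zero] at h2
  rw [h2, hX, map_sum, der_sum, Finset.sum_smul]
  refine Finset.sum_congr rfl fun t _ => ?_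
  rw [map_smul, der_smul, hm, smul_smul]

end Pre

end Pool.Agent.TateOdd
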