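import Pool.Agent.TateOdd.W2

/-!
# Operators on forms of all degrees
-/

set_option autoImplicit false
set_option linter.unusedSectionVars false

universe u v

namespace Pool.Agent.TateOdd

open Pool.Agent.GHCFull (AForm wd wd_apply ct der der_apply der_add der_smul der_one der_der ct_wd
  ct_wd_zero ct_ct ct_apply ct_add ct_smul finite_aform)

section One

variable {H : Type u} [AddCommGroup H] [Module ℂ H]

/-- The product with a covector. -/
noncomputable def WD (ξ : H →ₗ[ℂ] ℂ) : Module.End ℂ (∀ k, AForm H k) where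
  toFun F := fun k => match k with
    | 0 => 0
    | k + 1 => wd ξ k (F k)
  map_add' F F' := by
    funext k
    match k with
    | 0 => exact (add_zero _).symm
    | k + 1 => exact map_add _ _ _
  map_smul' c F := by
    funext k
    match k with
    | 0 => exact (smul_zero c).symm
    | k + 1 => exact map_smul (wd ξ k) c (F k)

/-- The contraction with a vector. -/
noncomputable def CT (v : H) : Module.End ℂ (∀ k, AForm H k) where
  toFun F := fun k => ct v k (F (k + 1))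
  map_add' F F' := by
    funext k
    exact map_add _ _ _
  map_smul' c F := by
    funext k
    exact map_smul _ c _

/-- The derivation. -/
noncomputable def DR (D : Module.End ℂ H) : Module.End ℂ (∀ k, AForm H k) where
  toFun F := fun k => der D k (F k)
  map_add' F F' := by
    funext k
    exact map_add _ _ _
  map_smul' c F := by
    funext k
    exact map_smul _ c _

theorem WD_zero (ξ : H →ₗ[ℂ] ℂ) (F : ∀ k, AForm H k) : WD ξ F 0 = 0 := rfl

theorem WD_succ (ξ : H →ₗ[ℂ] ℂ) (F : ∀ k, AForm H k) (k : ℕ) : WD ξ F (k + 1) = wd ξ k (F k) :=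
  rfl

theorem CT_app (v : H) (F : ∀ k, AForm H k) (k : ℕ) : CT v F k = ct v k (F (k + 1)) := rfl

theorem DR_app (D : Module.End ℂ H) (F : ∀ k, AForm H k) (k : ℕ) : DR D F k = der D k (F k) := rfl

/-- The product with a covector, as a linear map. -/
noncomputable def WDL (H : Type u) [AddCommGroup H] [Module ℂ H] :
    (H →ₗ[ℂ] ℂ) →ₗ[ℂ] Module.End ℂ (∀ k, AForm H k) where
  toFun ξ := WD ξ
  map_add' ξ ζ := by
    refine LinearMap.ext fun F => ?_
    funext k
    match k with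
    | 0 => exact (add_zero _).symm
    | k + 1 =>
      change wd (ξ + ζ) k (F k) = wd ξ k (F k) + wd ζ k (F k)
      rw [← wdL_apply, ← wdL_apply, ← wdL_apply, map_add, LinearMap.add_apply]
  map_smul' c ξ := by
    refine LinearMap.ext fun F => ?_
    funext k
    match k with
    | 0 => exact (smul_zero c).symm
    | k + 1 =>
      change wd (c • ξ) k (F k) = c • wd ξ k (F k)
      rw [← wdL_apply, ← wdL_apply, map_smul, LinearMap.smul_apply]

theorem WDL_apply (ξ : H →ₗ[ℂ] ℂ) : WDL H ξ = WD ξ := rfl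

theorem WD_anti (ξ ζ : H →ₗ[ℂ] ℂ) : WD ξ * WD ζ = (-1 : ℂ) • (WD ζ * WD ξ) := by
  refine LinearMap.ext fun F => ?_
  funext k
  match k with
  | 0 => exact (smul_zero (-1 : ℂ) (A := AForm H 0)).symm
  | 1 =>
    change wd ξ 0 0 = (-1 : ℂ) • wd ζ 0 0
    rw [map_zero, map_zero, smul_zero]
  | k + 2 =>
    change wd ξ (k + 1) (wd ζ k (F k)) = (-1 : ℂ) • wd ζ (k + 1) (wd ξ k (F k))
    rw [wd_anti, neg_one_smul]

theorem WD_self (ξ : H →ₗ[ℂ] ℂ) : WD ξ * WD ξ = 0 := by
  refine LinearMap.ext fun F => ?_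
  funext k
  match k with
  | 0 => rfl
  | 1 => exact map_zero (wd ξ 0)
  | k + 2 => exact wd_self ξ k (F k)

theorem CT_WD (v : H) (ξ : H →ₗ[ℂ] ℂ) :
    CT v * WD ξ = ξ v • 1 + (-1 : ℂ) • (WD ξ * CT v) := by
  refine LinearMap.ext fun F => ?_
  funext k
  match k with
  | 0 =>
    change ct v 0 (wd ξ 0 (F 0)) = ξ v • F 0 + (-1 : ℂ) • (0 : AForm H 0)
    rw [ct_wd_zero, smul_zero, add_zero]
  | k + 1 =>
    change ct v (k + 1) (wd ξ (k + 1) (F (k + 1))) = ξ v • F (k + 1) +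
      (-1 : ℂ) • wd ξ k (ct v k (F (k + 1)))
    rw [ct_wd, neg_one_smul, sub_eq_add_neg]

theorem CT_zero' : CT (0 : H) = 0 := by
  refine LinearMap.ext fun F => ?_
  funext k
  change ct (0 : H) k (F (k + 1)) = 0
  have h := ct_smul (0 : ℂ) (0 : H) k (F (k + 1))
  rw [zero_smul, zero_smul] at h
  exact h

theorem CT_one' (v : H) : CT v one' = 0 := by
  funext k
  change ct v k 0 = 0
  rw [map_zero]

theorem DR_WD (D : Module.End ℂ H) (ξ : H →ₗ[ℂ] ℂ) :
    DR D * WD ξ = WD (ξ ∘ₗ D) + WD ξ * DR D := by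
  refine LinearMap.ext fun F => ?_
  funext k
  match k with
  | 0 =>
    change der D 0 0 = 0 + 0
    rw [map_zero, add_zero]
  | k + 1 => exact der_wd D ξ k (F k)

section FD

variable [FiniteDimensional ℂ H]

theorem LL_WD (z : H →ₗ[ℂ] H →ₗ[ℂ] ℂ) (ξ : H →ₗ[ℂ] ℂ) : WD ξ * LL z = LL z * WD ξ := by
  refine LinearMap.ext fun F => ?_
  funext k
  match k with
  | 0 => rfl
  | 1 => exact map_zero (wd ξ 0)
  | 2 =>
    change wd ξ 1 0 = Lom z 0 0
    rw [map_zero, map_zero]
  | k + 3 => exact wd_Lom ξ z k (F k)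

theorem CT_LL (z : H →ₗ[ℂ] H →ₗ[ℂ] ℂ) (hz : ∀ x, z x x = 0) (v : H) :
    CT v * LL z = (2 : ℂ) • WD (z v) + LL z * CT v := by
  refine LinearMap.ext fun F => ?_
  funext k
  match k with
  | 0 =>
    change ct v 0 0 = (2 : ℂ) • (0 : AForm H 0) + 0
    rw [map_zero, smul_zero, add_zero]
  | 1 =>
    change ct v 1 (Lom z 0 (F 0)) = (2 : ℂ) • wd (z v) 0 (F 0) + 0
    rw [ct_Lom_zero z hz, add_zero]
  | k + 2 => exact ct_Lom z hz v k (F (k + 1))

/-- Contraction of a power of a two form. -/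
theorem CT_LL_pow (z : H →ₗ[ℂ] H →ₗ[ℂ] ℂ) (hz : ∀ x, z x x = 0) (v : H) (p : ℕ) :
    CT v ((LL z ^ p) one') = (2 * (p : ℂ)) • WD (z v) ((LL z ^ (p - 1)) one') := by
  induction p with
  | zero =>
    rw [pow_zero, Module.End.one_apply, CT_one', Nat.cast_zero, mul_zero, zero_smul]
  | succ p ih =>
    rw [pow_succ', Module.End.mul_apply, ← Module.End.mul_apply, CT_LL z hz, LinearMap.add_apply,
      Module.End.mul_apply, ih, map_smul, ← Module.End.mul_apply (LL z), ← LL_WD,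
      Module.End.mul_apply, ← Module.End.mul_apply (LL z), ← pow_succ', LinearMap.smul_apply,
      Nat.add_sub_cancel]
    rcases Nat.eq_zero_or_pos p with rfl | hp
    · simp
    · rw [Nat.sub_add_cancel hp, ← add_smul]
      congr 1
      push_cast
      ring

end FD

/-! ### Products of covectors -/

/-- The product of the covectors. -/
noncomputable def WDn : (d : ℕ) → (Fin d → (H →ₗ[ℂ] ℂ)) → Module.End ℂ (∀ k, AForm H k)
  | 0, _ => 1
  | d + 1, ξ => WD (ξ 0) * WDn d (Fin.tail ξ)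

/-- The composition of the contractions. -/
noncomputable def CTn : (d : ℕ) → (Fin d → H) → Module.End ℂ (∀ k, AForm H k)
  | 0, _ => 1
  | d + 1, u => CTn d (Fin.tail u) * CT (u 0)

theorem WDn_succ (d : ℕ) (ξ : Fin (d + 1) → (H →ₗ[ℂ] ℂ)) :
    WDn (d + 1) ξ = WD (ξ 0) * WDn d (Fin.tail ξ) := rfl

theorem CTn_succ (d : ℕ) (u : Fin (d + 1) → H) :
    CTn (d + 1) u = CTn d (Fin.tail u) * CT (u 0) := rfl

/-- The product is linear in each covector. -/
theorem WDn_lin (d : ℕ) (ξ : Fin d → (H →ₗ[ℂ] ℂ)) (i : Fin d) :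
    ∃ L : (H →ₗ[ℂ] ℂ) →ₗ[ℂ] Module.End ℂ (∀ k, AForm H k),
      ∀ ζ, L ζ = WDn d (Function.update ξ i ζ) := by
  induction d with
  | zero => exact i.elim0
  | succ d ih =>
    refine Fin.cases ?_ (fun i => ?_) i
    · refine ⟨(LinearMap.mulRight ℂ (WDn d (Fin.tail ξ))) ∘ₗ WDL H, fun ζ => ?_⟩
      rw [WDn_succ, Fin.tail_update_zero, Function.update_self]
      rfl
    · obtain ⟨L, hL⟩ := ih (Fin.tail ξ) i
      refine ⟨(LinearMap.mulLeft ℂ (WD (ξ 0))) ∘ₗ L, fun ζ => ?_⟩
      rw [WDn_succ, Fin.tail_update_succ, Function.update_of_ne (Fin.succ_ne_zero i).symm,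
        LinearMap.comp_apply, hL]
      rfl

/-- The covector commutes with the product up to sign. -/
theorem WD_WDn (d : ℕ) (ξ : Fin d → (H →ₗ[ℂ] ℂ)) (ζ : H →ₗ[ℂ] ℂ) :
    WD ζ * WDn d ξ = (-1 : ℂ) ^ d • (WDn d ξ * WD ζ) := by
  induction d with
  | zero => simp [WDn]
  | succ d ih =>
    rw [WDn_succ, ← mul_assoc, WD_anti, smul_mul_assoc, mul_assoc, ih, mul_smul_comm, smul_smul,
      ← pow_succ', mul_assoc]

theorem WD_WDn_mem (d : ℕ) (ξ : Fin d → (H →ₗ[ℂ] ℂ)) (i : Fin d) : WD (ξ i) * WDn d ξ = 0 := by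
  induction d with
  | zero => exact i.elim0
  | succ d ih =>
    rw [WDn_succ, ← mul_assoc]
    refine Fin.cases ?_ (fun i => ?_) i
    · rw [WD_self, zero_mul]
    · have h := ih (Fin.tail ξ) i
      change WD (ξ i.succ) * _ = 0 at h
      rw [WD_anti, smul_mul_assoc, mul_assoc, h, mul_zero, smul_zero]

/-- The product of repeated covectors is zero. -/
theorem WDn_rep (d : ℕ) (ξ : Fin d → (H →ₗ[ℂ] ℂ)) (i j : Fin d) (hij : i ≠ j) (h : ξ i = ξ j) :
    WDn d ξ = 0 := by
  induction d with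
  | zero => exact i.elim0
  | succ d ih =>
    rw [WDn_succ]
    induction i using Fin.cases with
    | zero =>
      induction j using Fin.cases with
      | zero => exact absurd rfl hij
      | succ j =>
        rw [h]
        exact WD_WDn_mem d (Fin.tail ξ) j
    | succ i =>
      induction j using Fin.cases with
      | zero =>
        rw [← h]
        exact WD_WDn_mem d (Fin.tail ξ) i
      | succ j =>
        rw [ih (Fin.tail ξ) i j (fun h' => hij (by rw [h'])) h, mul_zero]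

/-- The derivation of the product. -/
theorem DR_WDn (D : Module.End ℂ H) (d : ℕ) (ξ : Fin d → (H →ₗ[ℂ] ℂ)) :
    DR D * WDn d ξ = WDn d ξ * DR D + ∑ i, WDn d (Function.update ξ i (ξ i ∘ₗ D)) := by
  induction d with
  | zero => simp [WDn]
  | succ d ih =>
    rw [WDn_succ, ← mul_assoc, DR_WD, add_mul, mul_assoc, ih, Fin.sum_univ_succ, mul_add,
      mul_assoc, Finset.mul_sum]
    have h1 : WDn (d + 1) (Function.update ξ 0 (ξ 0 ∘ₗ D)) =
        WD (ξ 0 ∘ₗ D) * WDn d (Fin.tail ξ) := by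
      rw [WDn_succ, Fin.tail_update_zero, Function.update_self]
    have h2 : ∀ i : Fin d, WDn (d + 1) (Function.update ξ i.succ (ξ i.succ ∘ₗ D)) =
        WD (ξ 0) * WDn d (Function.update (Fin.tail ξ) i (Fin.tail ξ i ∘ₗ D)) := by
      intro i
      rw [WDn_succ, Fin.tail_update_succ, Function.update_of_ne (Fin.succ_ne_zero i).symm]
      rfl
    rw [h1]
    simp only [h2]
    abel

/-- Contractions and products. -/
theorem CT_WDn (d : ℕ) (ξ : Fin d → (H →ₗ[ℂ] ℂ)) (v : H) (h : ∀ i, ξ i v = 0) :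
    CT v * WDn d ξ = (-1 : ℂ) ^ d • (WDn d ξ * CT v) := by
  induction d with
  | zero => simp [WDn, CT]
  | succ d ih =>
    rw [WDn_succ, ← mul_assoc, CT_WD, h 0, zero_smul, zero_add, smul_mul_assoc, mul_assoc,
      ih (Fin.tail ξ) fun i => h i.succ, mul_smul_comm, smul_smul, ← pow_succ', mul_assoc]

theorem CTn_WD (d : ℕ) (u : Fin d → H) (ξ : H →ₗ[ℂ] ℂ) (h : ∀ i, ξ (u i) = 0) :
    CTn d u * WD ξ = (-1 : ℂ) ^ d • (WD ξ * CTn d u) := by
  induction d with
  | zero => simp [CTn]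
  | succ d ih =>
    rw [CTn_succ, mul_assoc, CT_WD, h 0, zero_smul, zero_add, mul_smul_comm, ← mul_assoc,
      ih (Fin.tail u) fun i => h i.succ, smul_mul_assoc, smul_smul, ← pow_succ', mul_assoc]

/-- The contractions undo the products. -/
theorem CTn_WDn (d : ℕ) (ξ : Fin d → (H →ₗ[ℂ] ℂ)) (u : Fin d → H) (F : ∀ k, AForm H k)
    (h : ∀ i j, i ≠ j → ξ i (u j) = 0) (hF : ∀ i, CT (u i) F = 0) :
    CTn d u (WDn d ξ F) = (∏ i, ξ i (u i)) • F := by
  induction d with
  | zero => simp [CTn, WDn]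
  | succ d ih =>
    have h0 : ∀ i, (Fin.tail ξ) i (u 0) = 0 := fun i => h _ _ (Fin.succ_ne_zero i)
    rw [CTn_succ, WDn_succ, Module.End.mul_apply, Module.End.mul_apply,
      ← Module.End.mul_apply (CT (u 0)), CT_WD, LinearMap.add_apply, LinearMap.smul_apply,
      LinearMap.smul_apply, Module.End.mul_apply,
      ← Module.End.mul_apply (CT (u 0)), CT_WDn d _ _ h0, LinearMap.smul_apply,
      Module.End.mul_apply, hF, map_zero, smul_zero, map_zero, smul_zero, add_zero,
      Module.End.one_apply, map_smul,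
      ih (Fin.tail ξ) (Fin.tail u) (fun i j hij => h _ _ fun h' => hij (Fin.succ_injective _ h'))
        (fun i => hF i.succ), Fin.prod_univ_succ, smul_smul]
    rfl

/-- The contractions of a power of a two form. -/
theorem CTn_LL_pow [FiniteDimensional ℂ H] (z : H →ₗ[ℂ] H →ₗ[ℂ] ℂ) (hz : ∀ x, z x x = 0) (d : ℕ)
    (u : Fin d → H) (hu : ∀ i j, z (u i) (u j) = 0) (p : ℕ) :
    ∃ c : ℂ, (p < d → c = 0) ∧ CTn d u ((LL z ^ p) one') =
      c • WDn d (fun i => z (u i)) ((LL z ^ (p - d)) one') := by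
  induction d generalizing p with
  | zero => exact ⟨1, fun h => absurd h (Nat.not_lt_zero _), by simp [CTn, WDn]⟩
  | succ d ih =>
    rcases Nat.eq_zero_or_pos p with rfl | hp
    · refine ⟨0, fun _ => rfl, ?_⟩
      rw [CTn_succ, Module.End.mul_apply, pow_zero, Module.End.one_apply, CT_one', map_zero,
        zero_smul]
    · obtain ⟨c, hc0, hc⟩ := ih (Fin.tail u) (fun i j => hu _ _) (p - 1)
      refine ⟨(2 * (p : ℂ)) * ((-1) ^ d * c), fun h => ?_, ?_⟩
      · rw [hc0 (by omega), mul_zero, mul_zero]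
      · rw [CTn_succ, Module.End.mul_apply, CT_LL_pow z hz, map_smul, ← Module.End.mul_apply,
          CTn_WD d (Fin.tail u) (z (u 0)) fun i => hu _ _, LinearMap.smul_apply,
          Module.End.mul_apply, hc, map_smul, smul_smul, smul_smul, WDn_succ,
          Module.End.mul_apply, Nat.sub_sub, add_comm 1 d, mul_assoc]
        rfl

theorem LL_WDn [FiniteDimensional ℂ H] (z : H →ₗ[ℂ] H →ₗ[ℂ] ℂ) (d : ℕ)
    (ξ : Fin d → (H →ₗ[ℂ] ℂ)) : WDn d ξ * LL z = LL z * WDn d ξ := by
  induction d with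
  | zero => simp [WDn]
  | succ d ih => rw [WDn_succ, mul_assoc, ih, ← mul_assoc, LL_WD, mul_assoc]

theorem LL_pow_WDn [FiniteDimensional ℂ H] (z : H →ₗ[ℂ] H →ₗ[ℂ] ℂ) (d p : ℕ)
    (ξ : Fin d → (H →ₗ[ℂ] ℂ)) : WDn d ξ * LL z ^ p = LL z ^ p * WDn d ξ := by
  induction p with
  | zero => simp
  | succ p ih => rw [pow_succ, ← mul_assoc, ih, mul_assoc, LL_WDn, mul_assoc]

end One

section Pull

variable {H : Type u} [AddCommGroup H] [Module ℂ H] {H' : Type v} [AddCommGroup H'] [Module ℂ H']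

/-- The pullback. -/
noncomputable def PB (P : H →ₗ[ℂ] H') : (∀ k, AForm H' k) →ₗ[ℂ] (∀ k, AForm H k) where
  toFun F := fun k => (F k).compLinearMap P
  map_add' F F' := by
    funext k
    rfl
  map_smul' c F := by
    funext k
    rfl

theorem PB_app (P : H →ₗ[ℂ] H') (F : ∀ k, AForm H' k) (k : ℕ) :
    PB P F k = (F k).compLinearMap P := rfl

theorem PB_one' (P : H →ₗ[ℂ] H') : PB P one' = one' := by
  funext k
  match k with
  | 0 => rfl
  | k + 1 => rfl

theorem CT_PB (P : H →ₗ[ℂ] H') (v : H) (F : ∀ k, AForm H' k) :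
    CT v (PB P F) = PB P (CT (P v) F) := by
  funext k
  ext w
  rw [CT_app, PB_app, PB_app, CT_app, AlternatingMap.compLinearMap_apply, ct_apply, ct_apply,
    AlternatingMap.compLinearMap_apply]
  congr 1
  funext i
  refine Fin.cases ?_ (fun i => ?_) i
  · rfl
  · rfl

theorem PB_WD (P : H →ₗ[ℂ] H') (ξ : H' →ₗ[ℂ] ℂ) (F : ∀ k, AForm H' k) :
    PB P (WD ξ F) = WD (ξ ∘ₗ P) (PB P F) := by
  funext k
  match k with
  | 0 => rfl
  | k + 1 => exact wd_pull P ξ k (F k)

theorem PB_WDn (P : H →ₗ[ℂ] H') (d : ℕ) (ξ : Fin d → (H' →ₗ[ℂ] ℂ)) (F : ∀ k, AForm H' k) :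
    PB P (WDn d ξ F) = WDn d (fun i => ξ i ∘ₗ P) (PB P F) := by
  induction d with
  | zero => rfl
  | succ d ih =>
    rw [WDn_succ, WDn_succ, Module.End.mul_apply, Module.End.mul_apply, PB_WD, ih]
    rfl

theorem PB_LL [FiniteDimensional ℂ H] [FiniteDimensional ℂ H'] (P : H →ₗ[ℂ] H')
    (z : H' →ₗ[ℂ] H' →ₗ[ℂ] ℂ) (F : ∀ k, AForm H' k) :
    PB P (LL z F) = LL (z.compl₁₂ P P) (PB P F) := by
  funext k
  match k with
  | 0 => rfl
  | 1 => rfl
  | k + 2 => exact Lom_pull P z k (F k)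

theorem PB_LL_pow [FiniteDimensional ℂ H] [FiniteDimensional ℂ H'] (P : H →ₗ[ℂ] H')
    (z : H' →ₗ[ℂ] H' →ₗ[ℂ] ℂ) (p : ℕ) (F : ∀ k, AForm H' k) :
    PB P ((LL z ^ p) F) = (LL (z.compl₁₂ P P) ^ p) (PB P F) := by
  induction p with
  | zero => rfl
  | succ p ih =>
    rw [pow_succ', pow_succ', Module.End.mul_apply, Module.End.mul_apply, PB_LL, ih]

theorem DR_PB (P : H →ₗ[ℂ] H') (D : Module.End ℂ H) (D' : Module.End ℂ H')
    (h : ∀ x, P (D x) = D' (P x)) (F : ∀ k, AForm H' k) :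
    DR D (PB P F) = PB P (DR D' F) := by
  funext k
  ext w
  rw [DR_app, PB_app, PB_app, DR_app, AlternatingMap.compLinearMap_apply, der_apply, der_apply]
  refine Finset.sum_congr rfl fun i _ => ?_
  rw [AlternatingMap.compLinearMap_apply]
  congr 1
  funext j
  by_cases hj : j = i
  · subst hj
    rw [Function.update_self, Function.update_self, h]
  · rw [Function.update_of_ne hj, Function.update_of_ne hj]

end Pull

end Pool.Agent.TateOdd
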