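import Pool.Agent.TateOdd.E2
import Pool.Agent.TateOdd.W3

/-!
# The structure of simultaneous eigenvectors
-/

set_option autoImplicit false
set_option linter.unusedSectionVars false

universe u

namespace Pool.Agent.TateOdd

open Pool.Agent.OddRank (Stable Irreducible Semisimple Equiv Iso exists_proj exists_family schur
  lieSpan subset_lieSpan lieSpan_lie lieSpan_le stable_span comm_span simil_span stable_of_comm
  comm_of_equiv FormOn)
open Pool.Agent.TypeIV (derivedSpan pair_irr)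
open Pool.Agent.TypeIV.MX (rst rst_apply rst_mul KSp KSl commutant_mixed)
open Pool.Agent.GHCFull (AForm der der_apply der_add der_smul der_one der_der Idx finite_aform
  wd ct)

section Supp

variable {H : Type u} [AddCommGroup H] [Module ℂ H]

theorem WD_supp (ξ : H →ₗ[ℂ] ℂ) (F : ∀ k, AForm H k) (k : ℕ) (hF : ∀ k', k' ≠ k → F k' = 0) :
    ∀ k', k' ≠ k + 1 → WD ξ F k' = 0 := by
  intro k' hk'
  match k' with
  | 0 => rfl
  | k' + 1 =>
    rw [WD_succ, hF k' (by omega), map_zero]

theorem WDn_supp (d : ℕ) (ξ : Fin d → (H →ₗ[ℂ] ℂ)) (F : ∀ k, AForm H k) (k : ℕ)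
    (hF : ∀ k', k' ≠ k → F k' = 0) : ∀ k', k' ≠ k + d → WDn d ξ F k' = 0 := by
  induction d with
  | zero => exact hF
  | succ d ih =>
    intro k' hk'
    rw [WDn_succ, Module.End.mul_apply]
    exact WD_supp (ξ 0) (WDn d (Fin.tail ξ) F) (k + d) (ih (Fin.tail ξ)) k' (by omega)

theorem LL_supp (z : H →ₗ[ℂ] H →ₗ[ℂ] ℂ) (F : ∀ k, AForm H k) (k : ℕ)
    (hF : ∀ k', k' ≠ k → F k' = 0) : ∀ k', k' ≠ k + 2 → LL z F k' = 0 := by
  intro k' hk'
  match k' with
  | 0 => rfl
  | 1 => rfl
  | k' + 2 =>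
    change Lom z k' (F k') = 0
    rw [hF k' (by omega), map_zero]

theorem LL_pow_supp (z : H →ₗ[ℂ] H →ₗ[ℂ] ℂ) (F : ∀ k, AForm H k) (k l : ℕ)
    (hF : ∀ k', k' ≠ k → F k' = 0) : ∀ k', k' ≠ k + 2 * l → (LL z ^ l) F k' = 0 := by
  induction l with
  | zero => exact hF
  | succ l ih =>
    intro k' hk'
    rw [pow_succ', Module.End.mul_apply]
    exact LL_supp z ((LL z ^ l) F) (k + 2 * l) ih k' (by omega)

theorem one'_supp : ∀ k', k' ≠ 0 → (one' : ∀ k, AForm H k) k' = 0 := by
  intro k' hk'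
  match k' with
  | 0 => exact absurd rfl hk'
  | k' + 1 => rfl

theorem single_supp (k : ℕ) (f : AForm H k) : ∀ k', k' ≠ k →
    (Pi.single k f : ∀ k, AForm H k) k' = 0 := fun _ h => Pi.single_eq_of_ne h f

theorem eq_single (F : ∀ k, AForm H k) (k : ℕ) (hF : ∀ k', k' ≠ k → F k' = 0) :
    F = Pi.single k (F k) := by
  funext k'
  by_cases h : k' = k
  · subst h
    rw [Pi.single_eq_same]
  · rw [Pi.single_eq_of_ne h, hF k' h]

theorem LL_pow_one' (z : H →ₗ[ℂ] H →ₗ[ℂ] ℂ) (J : ℕ) :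
    (LL z ^ J) one' = Pi.single (2 * J) (pwk z (2 * J)) := by
  rw [← LL_pow]
  apply eq_single
  have h := LL_pow_supp z one' 0 J one'_supp
  rw [zero_add] at h
  exact h

end Supp

variable {V : Type u} [AddCommGroup V] [Module ℂ V] [FiniteDimensional ℂ V]
  {G : Set (Module.End ℂ V)} {ψ : V →ₗ[ℂ] V →ₗ[ℂ] ℂ}

/-- The invariant two forms. -/
def divs (G : Set (Module.End ℂ V)) : Submodule ℂ (V →ₗ[ℂ] V →ₗ[ℂ] ℂ) where
  carrier := {ω | Div G ω}
  add_mem' := by
    rintro a b ⟨ha, ha'⟩ ⟨hb, hb'⟩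
    refine ⟨fun x => ?_, fun g hg x y => ?_⟩
    · rw [LinearMap.add_apply, LinearMap.add_apply, ha, hb, add_zero]
    · simp only [LinearMap.add_apply]
      linear_combination ha' g hg x y + hb' g hg x y
  zero_mem' := ⟨fun _ => rfl, fun g _ x y => by simp⟩
  smul_mem' := by
    rintro c a ⟨ha, ha'⟩
    refine ⟨fun x => ?_, fun g hg x y => ?_⟩
    · rw [LinearMap.smul_apply, LinearMap.smul_apply, ha, smul_zero]
    · simp only [LinearMap.smul_apply, smul_eq_mul]
      linear_combination c * ha' g hg x y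

/-- Forms of weight zero are combinations of powers of invariant two forms. -/
theorem Su.span_pw (U : Su ψ G) (n J : ℕ) (F : AForm (Fin n → V) (2 * J))
    (hF : ∀ D ∈ Lf ψ G, der (dg n D) (2 * J) F = 0) :
    F ∈ Submodule.span ℂ {η | ∃ z ∈ divs (dg n '' G), η = pwk z (2 * J)} := by
  have hP := prods_le_pw (divs (dg n '' G)) J
  change prods (Div (dg n '' G)) J ≤ _ at hP
  refine hP (fft (sform_alt n U.halt) (sform_nd n U.hnd) (U.hne.image _) ?_ (sform_mult n U.hGψ)
    (semisimple_dg n U.hss) (form_power n U.hsd) J F ?_)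
  · rintro _ ⟨e, he, rfl⟩
    rw [← dg_mul, U.hGe e he]
  · intro D hκ hcomm
    obtain ⟨D', rfl, hD'⟩ := exists_dg n hκ hcomm
    rcases Nat.eq_zero_or_pos n with rfl | hn
    · have h0 : dg 0 D' = 0 := by
        exact LinearMap.ext fun w => funext fun a => a.elim0
      rw [h0]
      exact der_zero' _ F
    exact hF D' (hD' hn)

variable {T : Type} [Fintype T] [DecidableEq T] {I S : T → Type} [∀ t, Fintype (I t)]
  [∀ t, DecidableEq (I t)] [∀ t, Fintype (S t)] [∀ t, DecidableEq (S t)]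
  {sy : T → Bool} {W : T → Bool → Submodule ℂ V} {τ : ∀ t, S t → Bool → Module.End ℂ V}
  {x y : ∀ t, I t → V}

/-- The operators act on the coordinates. -/
theorem Pre.cf_comp (P : Pre ψ G sy W τ x y) (hex : Exp ψ W x y) (U : Su ψ G) {t : T}
    (ht : sy t = false) {D : Module.End ℂ V} (hD : D ∈ Lf ψ G) (ε : Bool) (i : I t) (v : V) :
    cf ψ x y t ε i (D v) = ∑ j, -cf ψ x y t (!ε) j (D (wv x y t (!ε) i)) * cf ψ x y t ε j v := by
  have h1 : ∀ (j : I t) (v : V), cf ψ x y t ε j v =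
      (if ε then 1 else -1) * ψ v (wv x y t (!ε) j) := by
    intro j v
    cases ε with
    | true =>
      rw [if_pos rfl, one_mul]
      rfl
    | false =>
      change -ψ v (x t j) = (if false = true then 1 else -1) * ψ v (x t j)
      rw [if_neg (by simp)]
      ring
  have h2 := P.cf_expand hex ht (U.st hD (P.hirr t (!ε)).1 _ (P.wv_mem t (!ε) i))
  rw [h1, show ψ (D v) (wv x y t (!ε) i) = -ψ v (D (wv x y t (!ε) i)) by
    linear_combination hD.1 v (wv x y t (!ε) i)]
  conv_lhs => rw [h2]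
  rw [map_sum, ← Finset.sum_neg_distrib, Finset.mul_sum]
  refine Finset.sum_congr rfl fun j _ => ?_
  rw [h1, map_smul, smul_eq_mul]
  ring

section Main

variable (ψ x y) {n M : ℕ} (tt : Fin M → T) (ee : Fin M → Bool)

/-- The covectors. -/
noncomputable def xi (n : ℕ) (q : Σ a : Fin M, I (tt a)) : (Fin (n + M) → V) →ₗ[ℂ] ℂ :=
  cf ψ x y (tt q.1) (ee q.1) q.2 ∘ₗ LinearMap.proj (Fin.natAdd n q.1)

/-- The vectors. -/
noncomputable def uu (x y : ∀ t, I t → V) (n : ℕ) (q : Σ a : Fin M, I (tt a)) : Fin (n + M) → V :=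
  Pi.single (Fin.natAdd n q.1) (wv x y (tt q.1) (ee q.1) q.2)

/-- The projection. -/
def prL (V : Type u) [AddCommGroup V] [Module ℂ V] (n M : ℕ) :
    (Fin (n + M) → V) →ₗ[ℂ] (Fin n → V) where
  toFun w := fun a => w (Fin.castAdd M a)
  map_add' _ _ := rfl
  map_smul' _ _ := rfl

/-- The inclusion. -/
def inL (V : Type u) [AddCommGroup V] [Module ℂ V] (n M : ℕ) :
    (Fin n → V) →ₗ[ℂ] (Fin (n + M) → V) where
  toFun w := Fin.addCases w fun _ => 0
  map_add' w w' := by
    funext a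
    refine Fin.addCases (fun a => ?_) (fun a => ?_) a
    · simp
    · simp
  map_smul' c w := by
    funext a
    refine Fin.addCases (fun a => ?_) (fun a => ?_) a
    · simp
    · simp

theorem inL_left (w : Fin n → V) (a : Fin n) : inL V n M w (Fin.castAdd M a) = w a := by
  simp [inL]

theorem inL_right (w : Fin n → V) (a : Fin M) : inL V n M w (Fin.natAdd n a) = 0 := by
  simp [inL]

theorem prL_inL (w : Fin n → V) : prL V n M (inL V n M w) = w := by
  funext a
  exact inL_left w a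

theorem inL_dg (w : Fin n → V) (g : Module.End ℂ V) :
    inL V n M (dg n g w) = dg (n + M) g (inL V n M w) := by
  funext a
  refine Fin.addCases (fun a => ?_) (fun a => ?_) a
  · rw [inL_left, dg_apply, dg_apply, inL_left]
  · rw [inL_right, dg_apply, inL_right, map_zero]

theorem dg_single {N : ℕ} (g : Module.End ℂ V) (a : Fin N) (v : V) :
    dg N g (Pi.single a v) = Pi.single a (g v) := by
  funext b
  rw [dg_apply]
  by_cases hb : b = a
  · subst hb
    rw [Pi.single_eq_same, Pi.single_eq_same]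
  · rw [Pi.single_eq_of_ne hb, Pi.single_eq_of_ne hb, map_zero]

theorem prL_uu (q : Σ a : Fin M, I (tt a)) : prL V n M (uu tt ee x y n q) = 0 := by
  funext a
  change (Pi.single (Fin.natAdd n q.1) (wv x y (tt q.1) (ee q.1) q.2) : Fin (n + M) → V)
    (Fin.castAdd M a) = 0
  rw [Pi.single_eq_of_ne]
  intro h
  have h1 := congrArg Fin.val h
  simp only [Fin.val_castAdd, Fin.val_natAdd] at h1
  omega

variable {ψ x y}

theorem Pre.xi_uu (P : Pre ψ G sy W τ x y) (q q' : Σ a : Fin M, I (tt a)) :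
    xi ψ x y tt ee n q (uu tt ee x y n q') = if q = q' then 1 else 0 := by
  obtain ⟨a, i⟩ := q
  obtain ⟨b, j⟩ := q'
  change cf ψ x y (tt a) (ee a) i ((Pi.single (Fin.natAdd n b) (wv x y (tt b) (ee b) j) :
    Fin (n + M) → V) (Fin.natAdd n a)) = _
  by_cases h : a = b
  · subst h
    rw [Pi.single_eq_same, P.cf_wv]
    by_cases hi : j = i
    · subst hi
      rw [if_pos rfl, if_pos rfl]
    · rw [if_neg hi, if_neg]
      intro h
      exact hi (eq_of_heq (Sigma.mk.inj h).2).symm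
  · rw [Pi.single_eq_of_ne, map_zero, if_neg]
    · intro h'
      exact h (congrArg Sigma.fst h')
    · intro h'
      exact h (Fin.natAdd_injective _ _ h')

/-- The structure of a form of given weight. -/
theorem Pre.main (P : Pre ψ G sy W τ x y) (hex : Exp ψ W x y) (U : Su ψ G)
    (htt : ∀ a, sy (tt a) = false) (hee : ∀ a b, tt a = tt b → ee a = ee b)
    {d : ℕ} (E : Fin (2 * d) ≃ Σ a : Fin M, I (tt a)) (j : ℕ) (f : AForm (Fin n → V) (2 * j))
    (hf : ∀ D ∈ Lf ψ G, der (dg n D) (2 * j) f =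
      (-∑ a, (if ee a then 1 else -1) * trc ψ x y (tt a) D) • f) :
    f ∈ Submodule.span ℂ {η | ∃ z, Div (dg (n + M) '' G) z ∧ ∃ l, 2 * l + 2 * d = 2 * j ∧
      η = ((LL (z.compl₁₂ (inL V n M) (inL V n M)) ^ l)
        (WDn (2 * d) (fun r => z (uu tt ee x y n (E r)) ∘ₗ inL V n M) one')) (2 * j)} := by
  classical
  set ξ : Fin (2 * d) → ((Fin (n + M) → V) →ₗ[ℂ] ℂ) := fun r => xi ψ x y tt ee n (E r) with hξ
  set u : Fin (2 * d) → (Fin (n + M) → V) := fun r => uu tt ee x y n (E r) with hu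
  set Φ : ∀ k, AForm (Fin (n + M) → V) k := PB (prL V n M) (Pi.single (2 * j) f) with hΦ
  set F : ∀ k, AForm (Fin (n + M) → V) k := WDn (2 * d) ξ Φ with hF
  have hξu : ∀ r s, ξ r (u s) = if r = s then 1 else 0 := by
    intro r s
    rw [hξ, hu]
    simp only
    rw [P.xi_uu]
    by_cases h : r = s
    · rw [if_pos h, if_pos (by rw [h])]
    · rw [if_neg h, if_neg fun h' => h (E.injective h')]
  -- the weight of `F`
  have hDF : ∀ D ∈ Lf ψ G, DR (dg (n + M) D) F = 0 := by
    intro D hD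
    have h1 : DR (dg (n + M) D) Φ =
        (-∑ a, (if ee a then 1 else -1) * trc ψ x y (tt a) D) • Φ := by
      rw [hΦ, DR_PB (prL V n M) (dg (n + M) D) (dg n D) (fun w => rfl), ← map_smul]
      congr 1
      funext k
      rw [DR_app, Pi.smul_apply]
      by_cases hk : k = 2 * j
      · subst hk
        rw [Pi.single_eq_same]
        exact hf D hD
      · rw [Pi.single_eq_of_ne hk, map_zero, smul_zero]
    have h2 : ∀ r, WDn (2 * d) (Function.update ξ r (ξ r ∘ₗ dg (n + M) D)) =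
        (-cf ψ x y (tt (E r).1) (!(ee (E r).1)) (E r).2
          (D (wv x y (tt (E r).1) (!(ee (E r).1)) (E r).2))) • WDn (2 * d) ξ := by
      intro r
      obtain ⟨L, hL⟩ := WDn_lin (2 * d) ξ r
      have h3 : ξ r ∘ₗ dg (n + M) D = ∑ i : I (tt (E r).1),
          (-cf ψ x y (tt (E r).1) (!(ee (E r).1)) i
            (D (wv x y (tt (E r).1) (!(ee (E r).1)) (E r).2))) • xi ψ x y tt ee n ⟨(E r).1, i⟩ := by
        refine LinearMap.ext fun w => ?_
        rw [LinearMap.sum_apply]
        exact P.cf_comp hex U (htt _) hD _ _ _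
      rw [← hL, h3, map_sum, Finset.sum_eq_single (E r).2]
      · rw [map_smul, hL]
        congr 1
        have h4 : xi ψ x y tt ee n ⟨(E r).1, (E r).2⟩ = ξ r := rfl
        rw [h4, Function.update_eq_self]
      · intro i _ hi
        rw [map_smul, hL]
        have h4 : xi ψ x y tt ee n ⟨(E r).1, i⟩ = ξ (E.symm ⟨(E r).1, i⟩) := by
          rw [hξ]
          simp only
          rw [E.apply_symm_apply]
        have h5 : r ≠ E.symm ⟨(E r).1, i⟩ := by
          intro h
          have h6 : E r = ⟨(E r).1, i⟩ := by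
            conv_lhs => rw [h, E.apply_symm_apply]
          have h7 : (⟨(E r).1, (E r).2⟩ : Σ a : Fin M, I (tt a)) = ⟨(E r).1, i⟩ := h6
          exact hi (eq_of_heq (Sigma.mk.inj h7).2).symm
        rw [h4, WDn_rep (2 * d) _ r (E.symm ⟨(E r).1, i⟩) h5, smul_zero]
        rw [Function.update_self, Function.update_of_ne (Ne.symm h5)]
      · intro h
        exact absurd (Finset.mem_univ _) h
    have h3 := congrArg (fun X : Module.End ℂ (∀ k, AForm (Fin (n + M) → V) k) => X Φ)
      (DR_WDn (dg (n + M) D) (2 * d) ξ)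
    simp only [Module.End.mul_apply, LinearMap.add_apply, LinearMap.sum_apply, h1, h2,
      LinearMap.smul_apply, map_smul] at h3
    rw [← hF] at h3
    rw [h3, ← Finset.sum_smul, ← add_smul]
    have h4 : ∑ r, -cf ψ x y (tt (E r).1) (!(ee (E r).1)) (E r).2
          (D (wv x y (tt (E r).1) (!(ee (E r).1)) (E r).2)) =
        ∑ a, (if ee a then 1 else -1) * trc ψ x y (tt a) D := by
      rw [Fintype.sum_equiv E _ (fun q : Σ a : Fin M, I (tt a) =>
        -cf ψ x y (tt q.1) (!(ee q.1)) q.2 (D (wv x y (tt q.1) (!(ee q.1)) q.2)))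
        (fun r => rfl), Fintype.sum_sigma]
      refine Finset.sum_congr rfl fun a _ => ?_
      change ∑ i, -cf ψ x y (tt a) (!(ee a)) i (D (wv x y (tt a) (!(ee a)) i)) = _
      rw [Finset.sum_neg_distrib, P.cf_skew hex hD]
      cases ee a <;> simp
    rw [h4, neg_add_cancel, zero_smul]
  -- `F` is a combination of powers
  have hsup : ∀ k', k' ≠ 2 * j → Φ k' = 0 := by
    intro k' hk'
    rw [hΦ, PB_app, Pi.single_eq_of_ne hk']
    rfl
  have hF1 : F = Pi.single (2 * (j + d)) (F (2 * (j + d))) := by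
    apply eq_single
    intro k' hk'
    exact WDn_supp (2 * d) ξ Φ (2 * j) hsup k' (by omega)
  have hF2 : F (2 * (j + d)) ∈ Submodule.span ℂ
      {η | ∃ z ∈ divs (dg (n + M) '' G), η = pwk z (2 * (j + d))} :=
    U.span_pw (n + M) (j + d) _ fun D hD => congrFun (hDF D hD) (2 * (j + d))
  have hF3 : F ∈ Submodule.span ℂ
      {η | ∃ z ∈ divs (dg (n + M) '' G), η = (LL z ^ (j + d)) one'} := by
    rw [hF1]
    have h1 : Submodule.span ℂ {η | ∃ z ∈ divs (dg (n + M) '' G), η = pwk z (2 * (j + d))} ≤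
        (Submodule.span ℂ
          {η | ∃ z ∈ divs (dg (n + M) '' G), η = (LL z ^ (j + d)) one'}).comap
            (LinearMap.single ℂ (fun k => AForm (Fin (n + M) → V) k) (2 * (j + d))) := by
      rw [Submodule.span_le]
      rintro _ ⟨z, hz, rfl⟩
      refine Submodule.subset_span ⟨z, hz, ?_⟩
      rw [LL_pow_one']
      rfl
    exact h1 hF2
  -- contraction
  have hct : CTn (2 * d) u F = Φ := by
    rw [hF, CTn_WDn (2 * d) ξ u Φ (fun r s h => by rw [hξu, if_neg h])]
    · rw [Finset.prod_eq_one fun r _ => by rw [hξu, if_pos rfl], one_smul]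
    · intro r
      rw [hΦ, CT_PB, hu]
      simp only
      rw [prL_uu, CT_zero', LinearMap.zero_apply, map_zero]
  have hpb : PB (inL V n M) Φ (2 * j) = f := by
    rw [hΦ, PB_app, PB_app, Pi.single_eq_same]
    ext w
    rw [AlternatingMap.compLinearMap_apply, AlternatingMap.compLinearMap_apply]
    congr 1
    funext r
    exact prL_inL _
  -- the linear map
  let Θ : (∀ k, AForm (Fin (n + M) → V) k) →ₗ[ℂ] AForm (Fin n → V) (2 * j) :=
    LinearMap.proj (2 * j) ∘ₗ PB (inL V n M) ∘ₗ CTn (2 * d) u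
  have hΘ : Θ F = f := by
    change PB (inL V n M) (CTn (2 * d) u F) (2 * j) = f
    rw [hct, hpb]
  rw [← hΘ]
  have h1 : Submodule.span ℂ {η | ∃ z ∈ divs (dg (n + M) '' G), η = (LL z ^ (j + d)) one'} ≤
      (Submodule.span ℂ {η | ∃ z, Div (dg (n + M) '' G) z ∧ ∃ l, 2 * l + 2 * d = 2 * j ∧
      η = ((LL (z.compl₁₂ (inL V n M) (inL V n M)) ^ l)
        (WDn (2 * d) (fun r => z (uu tt ee x y n (E r)) ∘ₗ inL V n M) one')) (2 * j)}).comap
          Θ := by
    rw [Submodule.span_le]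
    rintro _ ⟨z, hz, rfl⟩
    have hzu : ∀ r s, z (u r) (u s) = 0 := by
      intro r s
      by_contra hcon
      have h2 : Paired G (W (tt (E r).1) (ee (E r).1)) (W (tt (E s).1) (ee (E s).1)) := by
        refine ⟨z.compl₁₂ (LinearMap.single ℂ (fun _ => V) (Fin.natAdd n (E r).1))
          (LinearMap.single ℂ (fun _ => V) (Fin.natAdd n (E s).1)), ?_, _,
          P.wv_mem _ _ (E r).2, _, P.wv_mem _ _ (E s).2, hcon⟩
        intro g hg a _ b _
        have h3 := hz.2 _ ⟨g, hg, rfl⟩ (Pi.single (Fin.natAdd n (E r).1) a)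
          (Pi.single (Fin.natAdd n (E s).1) b)
        rw [dg_single, dg_single] at h3
        exact h3
      obtain ⟨h3, h4⟩ := P.hpair _ _ _ _ h2
      have h5 := h4 (htt _)
      rw [hee _ _ h3] at h5
      revert h5
      cases ee (E s).1 <;> simp
    obtain ⟨c, hc0, hc⟩ := CTn_LL_pow z hz.1 (2 * d) u hzu (j + d)
    rw [SetLike.mem_coe, Submodule.mem_comap]
    change PB (inL V n M) (CTn (2 * d) u ((LL z ^ (j + d)) one')) (2 * j) ∈ _
    by_cases hjd : j + d < 2 * d
    · rw [hc, hc0 hjd, zero_smul, map_zero]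
      exact Submodule.zero_mem _
    · rw [hc, map_smul, Pi.smul_apply]
      refine Submodule.smul_mem _ _ (Submodule.subset_span ⟨z, hz, j + d - 2 * d, by omega, ?_⟩)
      rw [PB_WDn, PB_LL_pow, PB_one', ← Module.End.mul_apply, LL_pow_WDn, Module.End.mul_apply]
  exact h1 hF3

end Main

end Pool.Agent.TateOdd
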