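import Pool.Agent.TateOdd.E3
import Pool.Agent.TateOdd.Dir2

/-!
# The structure of Tate classes
-/

set_option autoImplicit false
set_option linter.unusedSectionVars false

universe u v

namespace Pool.Agent.TateOdd

open Pool.Agent.OddRank (Stable Irreducible Semisimple Equiv Iso exists_proj exists_family schur
  lieSpan subset_lieSpan lieSpan_lie lieSpan_le stable_span comm_span simil_span stable_of_comm
  comm_of_equiv FormOn)
open Pool.Agent.TypeIV (derivedSpan pair_irr)
open Pool.Agent.TypeIV.MX (rst rst_apply rst_mul KSp KSl commutant_mixed)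
open Pool.Agent.GHCFull (AForm der der_apply der_add der_smul der_one der_der Idx finite_aform
  wd ct)

section LLn

variable {H : Type u} [AddCommGroup H] [Module ℂ H]

/-- The product with several two forms. -/
noncomputable def LLn : (l : ℕ) → (Fin l → (H →ₗ[ℂ] H →ₗ[ℂ] ℂ)) → Module.End ℂ (∀ k, AForm H k)
  | 0, _ => 1
  | l + 1, ω => LL (ω 0) * LLn l (Fin.tail ω)

theorem LLn_const (l : ℕ) (z : H →ₗ[ℂ] H →ₗ[ℂ] ℂ) : LLn l (fun _ => z) = LL z ^ l := by
  induction l with
  | zero => rfl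
  | succ l ih =>
    rw [pow_succ', ← ih]
    rfl

theorem LLn_altf [FiniteDimensional ℂ H] (l : ℕ) (ω : Fin l → (H →ₗ[ℂ] H →ₗ[ℂ] ℂ)) (d : ℕ)
    (Φ : ∀ k, AForm H k) (g : (Fin d → H) → ℂ) (h : ∀ v, Φ d v = altf g v)
    (v : Fin (d + 2 * l) → H) :
    LLn l ω Φ (d + 2 * l) v = altf (fun w : Fin (d + 2 * l) → H =>
      (∏ q : Fin l, ω q (w ⟨2 * q, by omega⟩) (w ⟨2 * q + 1, by omega⟩)) *
        g fun i : Fin d => w ⟨2 * l + i, by omega⟩) v := by
  induction l with
  | zero =>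
    change Φ d v = _
    rw [h]
    congr 1
    funext w
    rw [Finset.univ_eq_empty, Finset.prod_empty, one_mul]
    congr 1
    funext i
    congr 1
    exact Fin.ext (by simp)
  | succ l ih =>
    change Lom (ω 0) (d + 2 * l) (LLn l (Fin.tail ω) Φ (d + 2 * l)) v = _
    rw [Lom_altf (ω 0) (d + 2 * l) _ _ (ih (Fin.tail ω)) v]
    congr 1
    funext w
    rw [Fin.prod_univ_succ, mul_assoc]
    congr 2
    congr 1
    funext i
    refine congrArg w (Fin.ext ?_)
    change 2 * l + (i : ℕ) + 1 + 1 = 2 * (l + 1) + i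
    omega

/-- The derivative of a two form. -/
noncomputable def dl (D : Module.End ℂ H) (ω : H →ₗ[ℂ] H →ₗ[ℂ] ℂ) : H →ₗ[ℂ] H →ₗ[ℂ] ℂ :=
  ω ∘ₗ D + ω.compl₂ D

theorem der_Lom [FiniteDimensional ℂ H] (D : Module.End ℂ H) (ω : H →ₗ[ℂ] H →ₗ[ℂ] ℂ) (k : ℕ)
    (η : AForm H k) :
    der D (k + 2) (Lom ω k η) = Lom (dl D ω) k η + Lom ω k (der D k η) := by
  have b := Module.finBasis ℂ H
  have h1 : ∑ α, wd (b.coord α ∘ₗ D) (k + 1) (wd (ω (b α)) k η) =
      ∑ α, wd (b.coord α) (k + 1) (wd (ω (D (b α))) k η) := by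
    have h2 : ∀ α, b.coord α ∘ₗ D = ∑ β, b.coord α (D (b β)) • b.coord β := by
      intro α
      refine b.ext fun γ => ?_
      rw [LinearMap.sum_apply, Finset.sum_eq_single γ]
      · rw [LinearMap.smul_apply, Module.Basis.coord_apply, Module.Basis.coord_apply,
          Module.Basis.repr_self, Finsupp.single_eq_same, smul_eq_mul, mul_one]
        rfl
      · intro β _ hβ
        rw [LinearMap.smul_apply, Module.Basis.coord_apply b β, Module.Basis.repr_self,
          Finsupp.single_eq_of_ne (Ne.symm hβ).symm, smul_zero]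
      · intro h
        exact absurd (Finset.mem_univ _) h
    have h3 : ∀ β, ω (D (b β)) = ∑ α, b.coord α (D (b β)) • ω (b α) := by
      intro β
      conv_lhs => rw [← b.sum_repr (D (b β))]
      rw [map_sum]
      refine Finset.sum_congr rfl fun α _ => ?_
      rw [map_smul]
      rfl
    have h4 : ∀ (α : Fin (Module.finrank ℂ H)) (ζ : AForm H (k + 1)),
        wd (b.coord α ∘ₗ D) (k + 1) ζ = ∑ β, b.coord α (D (b β)) • wd (b.coord β) (k + 1) ζ := by
      intro α ζ
      rw [h2, ← wdL_apply, map_sum, LinearMap.sum_apply]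
      refine Finset.sum_congr rfl fun β _ => ?_
      rw [map_smul, LinearMap.smul_apply, wdL_apply]
    have h5 : ∀ β, wd (ω (D (b β))) k η = ∑ α, b.coord α (D (b β)) • wd (ω (b α)) k η := by
      intro β
      rw [h3, ← wdL_apply, map_sum, LinearMap.sum_apply]
      refine Finset.sum_congr rfl fun α _ => ?_
      rw [map_smul, LinearMap.smul_apply, wdL_apply]
    simp only [h4, h5, map_sum, map_smul]
    exact Finset.sum_comm
  rw [Lom_basis b, Lom_basis b, Lom_basis b, map_sum, ← Finset.sum_add_distrib]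
  have h6 : ∀ α, der D (k + 2) (wd (b.coord α) (k + 1) (wd (ω (b α)) k η)) =
      wd (b.coord α ∘ₗ D) (k + 1) (wd (ω (b α)) k η) +
        (wd (b.coord α) (k + 1) (wd (ω (b α) ∘ₗ D) k η) +
          wd (b.coord α) (k + 1) (wd (ω (b α)) k (der D k η))) := by
    intro α
    rw [der_wd, der_wd, map_add]
  simp only [h6]
  rw [Finset.sum_add_distrib, h1, ← Finset.sum_add_distrib]
  refine Finset.sum_congr rfl fun α _ => ?_
  have h7 : wd (dl D ω (b α)) k η = wd (ω (D (b α))) k η + wd (ω (b α) ∘ₗ D) k η := by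
    have h8 : dl D ω (b α) = ω (D (b α)) + ω (b α) ∘ₗ D := rfl
    rw [h8, ← wdL_apply, map_add, LinearMap.add_apply, wdL_apply, wdL_apply]
  rw [h7, map_add]
  abel

theorem DR_LL [FiniteDimensional ℂ H] (D : Module.End ℂ H) (ω : H →ₗ[ℂ] H →ₗ[ℂ] ℂ)
    (F : ∀ k, AForm H k) : DR D (LL ω F) = LL (dl D ω) F + LL ω (DR D F) := by
  funext k
  match k with
  | 0 =>
    change der D 0 0 = 0 + 0
    rw [map_zero, add_zero]
  | 1 =>
    change der D 1 0 = 0 + 0
    rw [map_zero, add_zero]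
  | k + 2 => exact der_Lom D ω k (F k)

/-- Products of invariant two forms with an eigenvector. -/
theorem DR_LLn [FiniteDimensional ℂ H] {G : Set (Module.End ℂ H)} {g : Module.End ℂ H}
    (hg : g ∈ G) (l : ℕ) (ω : Fin l → (H →ₗ[ℂ] H →ₗ[ℂ] ℂ)) (hω : ∀ q, Div G (ω q))
    (F : ∀ k, AForm H k) (c : ℂ) (hF : DR g F = c • F) :
    DR g (LLn l ω F) = (c + l) • LLn l ω F := by
  induction l with
  | zero =>
    change DR g F = (c + ((0 : ℕ) : ℂ)) • F
    rw [hF, Nat.cast_zero, add_zero]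
  | succ l ih =>
    change DR g (LL (ω 0) (LLn l (Fin.tail ω) F)) = _ • LL (ω 0) (LLn l (Fin.tail ω) F)
    have h1 : dl g (ω 0) = ω 0 := by
      refine LinearMap.ext fun x => LinearMap.ext fun y => ?_
      exact (hω 0).2 g hg x y
    rw [DR_LL, h1, ih (Fin.tail ω) fun q => hω _, map_smul]
    rw [show ((l + 1 : ℕ) : ℂ) = (l : ℂ) + 1 by push_cast; rfl, ← add_assoc, add_smul _ (1 : ℂ),
      one_smul, add_comm]

end LLn

section Rho

variable {K V : Type*} [Field K] [AddCommGroup V] [Module K V] [FiniteDimensional K V]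
variable {G : Set (Module.End K V)} {W W' : Submodule K V} {φ : V →ₗ[K] V →ₗ[K] K}

/-- A perfect pairing represents all other pairings. -/
theorem exists_rho2 {X : Type*} [AddCommGroup X] [Module K X] (hφ : Inv2 G W W' φ)
    (hW : Irreducible G W) (hW' : Irreducible G W')
    (h0 : ∃ x ∈ W, ∃ y ∈ W', φ x y ≠ 0) (φ' : V →ₗ[K] X →ₗ[K] K) :
    ∃ ρ : X →ₗ[K] V, (∀ v, ρ v ∈ W') ∧ ∀ x ∈ W, ∀ v, φ' x v = φ x (ρ v) := by
  let A : W' →ₗ[K] Module.Dual K W := (φ.compl₁₂ W.subtype W'.subtype).flip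
  have hA : ∀ (y : W') (x : W), A y x = φ x y := fun y x => rfl
  have hAinj : Function.Injective A := by
    rw [injective_iff_map_eq_zero]
    intro y hy
    apply Subtype.ext
    refine hφ.nd_right hW.1 hW' h0 y y.2 fun x hx => ?_
    rw [← hA y ⟨x, hx⟩, hy, LinearMap.zero_apply]
  let B : W →ₗ[K] Module.Dual K W' := φ.compl₁₂ W.subtype W'.subtype
  have hB : ∀ (x : W) (y : W'), B x y = φ x y := fun y x => rfl
  have hBinj : Function.Injective B := by
    rw [injective_iff_map_eq_zero]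
    intro x hx
    apply Subtype.ext
    refine hφ.nd hW hW'.1 h0 x x.2 fun y hy => ?_
    rw [← hB x ⟨y, hy⟩, hx, LinearMap.zero_apply]
  have hrk : Module.finrank K W' = Module.finrank K (Module.Dual K W) := by
    apply le_antisymm
    · exact LinearMap.finrank_le_finrank_of_injective hAinj
    · rw [Subspace.dual_finrank_eq]
      have := LinearMap.finrank_le_finrank_of_injective hBinj
      rwa [Subspace.dual_finrank_eq] at this
  let E : W' ≃ₗ[K] Module.Dual K W := LinearEquiv.ofInjectiveOfFinrankEq A hAinj hrk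
  let C : X →ₗ[K] Module.Dual K W := (φ'.comp W.subtype).flip
  have hC : ∀ (v : X) (w : W), C v w = φ' w v := fun v w => rfl
  refine ⟨W'.subtype ∘ₗ E.symm.toLinearMap ∘ₗ C, fun v => (E.symm (C v)).2, fun x hx v => ?_⟩
  have h1 : A (E.symm (C v)) = C v := E.apply_symm_apply (C v)
  have h2 := LinearMap.congr_fun h1 ⟨x, hx⟩
  rw [hA, hC] at h2
  exact h2.symm

end Rho

variable {V : Type u} [AddCommGroup V] [Module ℂ V] [FiniteDimensional ℂ V]
  {G : Set (Module.End ℂ V)} {ψ : V →ₗ[ℂ] V →ₗ[ℂ] ℂ}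

/-- The product of `l` invariant two forms and a Weil form: the pullback of an alternating form on
`V ^ m` by an equivariant map into `∏ W a`, where the `W a` are irreducible, no two of them dual,
the degree of the form is the sum of the dimensions and every generator has the mean rank. -/
def WeilTerm (G : Set (Module.End ℂ V)) (n k : ℕ) (η : AForm (Fin n → V) k) : Prop :=
  ∃ (l m d : ℕ) (hk : 2 * l + d = k) (ω : Fin l → ((Fin n → V) →ₗ[ℂ] (Fin n → V) →ₗ[ℂ] ℂ))
    (W : Fin m → Submodule ℂ V) (h : (Fin n → V) →ₗ[ℂ] (Fin m → V)) (θ : AForm (Fin m → V) d),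
    (∀ q, Div (dg n '' G) (ω q)) ∧ (∀ a, Irreducible G (W a)) ∧
    (∀ a b, ¬ Paired G (W a) (W b)) ∧ d = ∑ a, Module.finrank ℂ (W a) ∧
    (∀ e ∈ G, 2 * ∑ a, Module.finrank ℂ ((W a).map e) = ∑ a, Module.finrank ℂ (W a)) ∧
    (∀ w a, h w a ∈ W a) ∧ (∀ e ∈ G, ∀ w, h (dg n e w) = dg m e (h w)) ∧
    ∀ v, η v = ∑ σ : Equiv.Perm (Fin k), ((Equiv.Perm.sign σ : ℤ) : ℂ) *
      ((∏ q : Fin l, ω q (v (σ ⟨2 * q, by omega⟩)) (v (σ ⟨2 * q + 1, by omega⟩))) *
        θ fun i : Fin d => h (v (σ ⟨2 * l + i, by omega⟩)))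

/-- The form in terms of operators. -/
theorem weil_family {n l m d : ℕ} (ω : Fin l → ((Fin n → V) →ₗ[ℂ] (Fin n → V) →ₗ[ℂ] ℂ))
    (h : (Fin n → V) →ₗ[ℂ] (Fin m → V)) (θ : AForm (Fin m → V) d) (k : ℕ) (hk : 2 * l + d = k)
    (v : Fin k → Fin n → V) :
    LLn l ω (PB h (Pi.single d (((d.factorial : ℕ) : ℂ) • θ))) k v =
      ∑ σ : Equiv.Perm (Fin k), ((Equiv.Perm.sign σ : ℤ) : ℂ) *
      ((∏ q : Fin l, ω q (v (σ ⟨2 * q, by omega⟩)) (v (σ ⟨2 * q + 1, by omega⟩))) *
        θ fun i : Fin d => h (v (σ ⟨2 * l + i, by omega⟩))) := by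
  obtain rfl : k = d + 2 * l := by omega
  have h1 := LLn_altf l ω d (PB h (Pi.single d (((d.factorial : ℕ) : ℂ) • θ)))
    (fun w => θ fun i => h (w i)) (fun v => ?_) v
  · exact h1
  · rw [exists_altf d _ v]
    congr 1
    funext w
    rw [PB_app, Pi.single_eq_same, AlternatingMap.compLinearMap_apply, AlternatingMap.smul_apply,
      smul_eq_mul, ← mul_assoc, inv_mul_cancel₀ (by exact_mod_cast d.factorial_ne_zero), one_mul]

/-- Products of invariant two forms and Weil forms are Tate classes. -/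
theorem tate_of_term (hGe : ∀ e ∈ G, e * e = e) (hss : Semisimple G) {n j : ℕ}
    {η : AForm (Fin n → V) (2 * j)} (h : WeilTerm G n (2 * j) η) :
    ∀ e ∈ G, der (dg n e) (2 * j) η = (j : ℂ) • η := by
  classical
  obtain ⟨l, m, d, hk, ω, W, h, θ, hω, hW, -, hd, hrel, hhW, hhe, hη⟩ := h
  intro e he
  choose p hp hpe using fun a => exists_proj hss (hW a).1
  have hd' : Module.finrank ℂ (∀ a, W a) = d := by
    rw [Module.finrank_pi_fintype, hd]
  let b : Module.Basis (Fin d) ℂ (∀ a, W a) := Module.finBasisOfFinrankEq ℂ _ hd'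
  let ι : (∀ a, W a) →ₗ[ℂ] (Fin m → V) := LinearMap.pi fun a => (W a).subtype ∘ₗ LinearMap.proj a
  let P : (Fin n → V) →ₗ[ℂ] (∀ a, W a) := LinearMap.pi fun a => p a ∘ₗ LinearMap.proj a ∘ₗ h
  have hPh : ∀ w, ι (P w) = h w := by
    intro w
    funext a
    exact congrArg Subtype.val (hp a ⟨h w a, hhW w a⟩)
  let E : Module.End ℂ (∀ a, W a) := LinearMap.pi fun a => rst (p a) e ∘ₗ LinearMap.proj a
  have hPE : ∀ w, P (dg n e w) = E (P w) := by
    intro w
    funext a
    apply Subtype.ext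
    change (p a (h (dg n e w) a) : V) = (rst (p a) e (p a (h w a)) : V)
    rw [rst_apply (hp a) ((hW a).1 e he), hhe e he, dg_apply, hpe a e he]
  have htr : LinearMap.trace ℂ _ E = (d : ℂ) / 2 := by
    rw [trace_pi]
    have h1 : ∀ a, LinearMap.trace ℂ _ (rst (p a) e) =
        (Module.finrank ℂ ((W a).map e) : ℂ) := fun a =>
      trace_rst_idem (hp a) (hGe e he) ((hW a).1 e he)
    simp only [h1]
    have h2 := hrel e he
    rw [← hd] at h2
    have h3 : ((2 * ∑ a, Module.finrank ℂ ((W a).map e) : ℕ) : ℂ) = (d : ℂ) := by rw [h2]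
    push_cast at h3
    rw [← h3]
    ring
  set Θ : ∀ k, AForm (Fin n → V) k := PB h (Pi.single d (((d.factorial : ℕ) : ℂ) • θ)) with hΘ
  have h1 : DR (dg n e) Θ = ((d : ℂ) / 2) • Θ := by
    have h2 : Θ = PB P (PB ι (Pi.single d (((d.factorial : ℕ) : ℂ) • θ))) := by
      rw [hΘ]
      funext k
      rw [PB_app, PB_app, PB_app]
      ext w
      rw [AlternatingMap.compLinearMap_apply, AlternatingMap.compLinearMap_apply,
        AlternatingMap.compLinearMap_apply]
      congr 1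
      funext i
      exact (hPh _).symm
    rw [h2, DR_PB P (dg n e) E hPE, ← map_smul]
    congr 1
    funext k
    rw [DR_app, Pi.smul_apply, PB_app]
    by_cases hkd : k = d
    · subst hkd
      rw [Pi.single_eq_same]
      set θ' : AForm (∀ a, W a) k := ((((k.factorial : ℕ) : ℂ) • θ).compLinearMap ι) with hθ'
      rw [θ'.eq_smul_basis_det b, map_smul, der_det, htr, smul_comm]
    · rw [Pi.single_eq_of_ne hkd]
      have h3 : (0 : AForm (Fin m → V) k).compLinearMap ι = 0 := rfl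
      rw [h3, map_zero, smul_zero]
  have hg : dg n e ∈ dg n '' G := ⟨e, he, rfl⟩
  have h2 : DR (dg n e) (LLn l ω Θ) = ((d : ℂ) / 2 + l) • LLn l ω Θ :=
    DR_LLn hg l ω hω Θ ((d : ℂ) / 2) h1
  have h3 : η = LLn l ω Θ (2 * j) := by
    ext v
    rw [hη, hΘ, weil_family ω h θ (2 * j) hk v]
  rw [h3]
  have h4 := congrFun h2 (2 * j)
  rw [DR_app, Pi.smul_apply] at h4
  rw [h4]
  congr 1
  have h5 : ((2 * l + d : ℕ) : ℂ) = ((2 * j : ℕ) : ℂ) := by rw [hk]
  push_cast at h5
  linear_combination (1 / 2 : ℂ) * h5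

end Pool.Agent.TateOdd
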