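import Pool.Agent.GHCFull.C2

/-!
# Invariants in a Fock space

The Fock space is built on `⊕ W_t ⊗ M_t`, where `W_t` is a symplectic space (if `sy t` is true), or
the sum of a space and its dual. Vectors which are invariant under the symplectic Lie algebras
and the general linear Lie algebras are sums of products of invariant two forms.
-/

set_option autoImplicit false
set_option linter.unusedSectionVars false

namespace Pool.Agent.TateOdd

open Pool.Agent.GHCFull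
open scoped InnerProductSpace

variable {F : ℕ → Type*} [∀ k, NormedAddCommGroup (F k)] [∀ k, InnerProductSpace ℂ (F k)]

section General

variable {K : Type*} [DecidableEq K] (Φ : Fock F K)

theorem hop_cc (α β γ δ : K) (k : ℕ) (x : F k) :
    Φ.hop α β (k + 2) (Φ.c γ (k + 1) (Φ.c δ k x)) =
      Φ.c γ (k + 1) (Φ.c δ k (Φ.hop α β k x)) + (if β = δ then Φ.c γ (k + 1) (Φ.c α k x) else 0) +
        (if β = γ then Φ.c α (k + 1) (Φ.c δ k x) else 0) := by
  have h1 := Φ.hop_c α β γ (k + 1) (Φ.c δ k x)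
  have h2 := Φ.hop_c α β δ k x
  rw [h1, h2, map_add]
  congr 2
  split_ifs <;> simp

theorem hop_succ (α β : K) (k : ℕ) (x : F (k + 1)) : Φ.hop α β (k + 1) x = Φ.c α k (Φ.d β k x) :=
  rfl

theorem inner_hop (α : K) (k : ℕ) (x : F (k + 1)) :
    ⟪Φ.hop α α (k + 1) x, x⟫_ℂ = ⟪Φ.d α k x, Φ.d α k x⟫_ℂ := by
  rw [hop_succ, Φ.adj]

end General

variable {T : Type} [Fintype T] [DecidableEq T] {I S : T → Type} [∀ t, Fintype (I t)]
  [∀ t, DecidableEq (I t)] [∀ t, Fintype (S t)] [∀ t, DecidableEq (S t)] (Φ : Fock F (Idx I S))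

/-- The operators of the general linear Lie algebra. -/
def Ee (t : T) (i j : I t) (k : ℕ) : F k →ₗ[ℂ] F k :=
  ∑ s : S t, (Φ.hop ⟨t, i, s, true⟩ ⟨t, j, s, true⟩ k - Φ.hop ⟨t, j, s, false⟩ ⟨t, i, s, false⟩ k)

/-- The products with the invariant two forms of the general linear Lie algebra. -/
def LN (t : T) (s s' : S t) (k : ℕ) : F k →ₗ[ℂ] F (k + 2) :=
  ∑ i : I t, Φ.c ⟨t, i, s, true⟩ (k + 1) ∘ₗ Φ.c ⟨t, i, s', false⟩ k

/-- The contractions. -/
def LamN (t : T) (s s' : S t) (k : ℕ) : F (k + 2) →ₗ[ℂ] F k :=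
  ∑ i : I t, Φ.d ⟨t, i, s', false⟩ k ∘ₗ Φ.d ⟨t, i, s, true⟩ (k + 1)

/-- The basic operators. -/
def Aop (t : T) (ε ε' : Bool) (i j : I t) (k : ℕ) : F k →ₗ[ℂ] F k :=
  ∑ s : S t, Φ.hop ⟨t, i, s, ε⟩ ⟨t, j, s, ε'⟩ k

theorem Ee_eq (t : T) (i j : I t) (k : ℕ) :
    Ee Φ t i j k = Aop Φ t true true i j k - Aop Φ t false false j i k := by
  unfold Ee Aop
  rw [Finset.sum_sub_distrib]

theorem Y_eq (t : T) (i j : I t) (k : ℕ) :
    Φ.Y t i j k = Aop Φ t false true j i k + Aop Φ t false true i j k := by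
  unfold Fock.Y Aop
  rw [Finset.sum_add_distrib]

theorem Aop_adj (t : T) (ε ε' : Bool) (i j : I t) (k : ℕ) (x y : F k) :
    ⟪Aop Φ t ε ε' i j k x, y⟫_ℂ = ⟪x, Aop Φ t ε' ε j i k y⟫_ℂ := by
  simp only [Aop, LinearMap.sum_apply, sum_inner, inner_sum, Φ.hop_adj]

theorem Ee_adj (t : T) (i j : I t) (k : ℕ) (x y : F k) :
    ⟪Ee Φ t i j k x, y⟫_ℂ = ⟪x, Ee Φ t j i k y⟫_ℂ := by
  rw [Ee_eq, Ee_eq, LinearMap.sub_apply, LinearMap.sub_apply, inner_sub_left, inner_sub_right,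
    Aop_adj, Aop_adj]

theorem LN_adj (t : T) (s s' : S t) (k : ℕ) (x : F k) (y : F (k + 2)) :
    ⟪LN Φ t s s' k x, y⟫_ℂ = ⟪x, LamN Φ t s s' k y⟫_ℂ := by
  simp only [LN, LamN, LinearMap.sum_apply, LinearMap.comp_apply, sum_inner, inner_sum, Φ.adj]

theorem L_eq (t : T) (s s' : S t) (k : ℕ) : Φ.L t s s' k = LN Φ t s s' k + LN Φ t s' s k := by
  unfold Fock.L LN
  rw [Finset.sum_add_distrib]

theorem Lam_eq (t : T) (s s' : S t) (k : ℕ) :
    Φ.Lam t s s' k = LamN Φ t s s' k + LamN Φ t s' s k := by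
  unfold Fock.Lam LamN
  rw [Finset.sum_add_distrib]

theorem hop_LN_ne (t t' : T) (h : t ≠ t') (α : Idx I S) (j : I t) (r : S t) (e : Bool)
    (s s' : S t') (k : ℕ) (x : F k) :
    Φ.hop α ⟨t, j, r, e⟩ (k + 2) (LN Φ t' s s' k x) =
      LN Φ t' s s' k (Φ.hop α ⟨t, j, r, e⟩ k x) := by
  simp only [LN, LinearMap.sum_apply, LinearMap.comp_apply, map_sum, hop_cc]
  refine Finset.sum_congr rfl fun l _ => ?_
  have hh : ∀ (a : I t × S t × Bool) (b : I t' × S t' × Bool),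
      ¬ ((⟨t, a⟩ : Idx I S) = ⟨t', b⟩) := fun a b h' => h (congrArg Sigma.fst h')
  rw [if_neg (hh _ _), if_neg (hh _ _), add_zero, add_zero]

theorem Ee_LN (t : T) (i j : I t) (t' : T) (s s' : S t') (k : ℕ) (x : F k) :
    Ee Φ t i j (k + 2) (LN Φ t' s s' k x) = LN Φ t' s s' k (Ee Φ t i j k x) := by
  rcases eq_or_ne t t' with rfl | h
  · have h1 : ∀ r : S t, Φ.hop ⟨t, i, r, true⟩ ⟨t, j, r, true⟩ (k + 2) (LN Φ t s s' k x) =
        LN Φ t s s' k (Φ.hop ⟨t, i, r, true⟩ ⟨t, j, r, true⟩ k x) +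
          if r = s then Φ.c ⟨t, i, r, true⟩ (k + 1) (Φ.c ⟨t, j, s', false⟩ k x) else 0 := by
      intro r
      simp only [LN, LinearMap.sum_apply, LinearMap.comp_apply, map_sum, hop_cc,
        Sigma.mk.injEq, heq_eq_eq, Prod.mk.injEq, true_and, and_true, Bool.true_eq_false,
        and_false, if_false, add_zero, Finset.sum_add_distrib]
      congr 1
      rw [Finset.sum_eq_single j]
      · simp
      · intro l _ hl
        rw [if_neg]
        exact fun h => hl h.1.symm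
      · intro h
        exact absurd (Finset.mem_univ _) h
    have h2 : ∀ r : S t, Φ.hop ⟨t, j, r, false⟩ ⟨t, i, r, false⟩ (k + 2) (LN Φ t s s' k x) =
        LN Φ t s s' k (Φ.hop ⟨t, j, r, false⟩ ⟨t, i, r, false⟩ k x) +
          if r = s' then Φ.c ⟨t, i, s, true⟩ (k + 1) (Φ.c ⟨t, j, r, false⟩ k x) else 0 := by
      intro r
      simp only [LN, LinearMap.sum_apply, LinearMap.comp_apply, map_sum, hop_cc,
        Sigma.mk.injEq, heq_eq_eq, Prod.mk.injEq, true_and, and_true, Bool.false_eq_true,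
        and_false, if_false, add_zero, Finset.sum_add_distrib]
      congr 1
      rw [Finset.sum_eq_single i]
      · simp
      · intro l _ hl
        rw [if_neg]
        exact fun h => hl h.1.symm
      · intro h
        exact absurd (Finset.mem_univ _) h
    simp only [Ee, LinearMap.sum_apply, LinearMap.sub_apply, map_sum, map_sub, h1, h2]
    rw [Finset.sum_sub_distrib, Finset.sum_sub_distrib, Finset.sum_add_distrib,
      Finset.sum_add_distrib, Finset.sum_ite_eq', Finset.sum_ite_eq', if_pos (Finset.mem_univ _),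
      if_pos (Finset.mem_univ _)]
    abel
  · simp only [Ee, LinearMap.sum_apply, LinearMap.sub_apply, map_sum, map_sub,
      hop_LN_ne Φ _ _ h]

theorem Ee_L (t : T) (i j : I t) (t' : T) (s s' : S t') (k : ℕ) (x : F k) :
    Ee Φ t i j (k + 2) (Φ.L t' s s' k x) = Φ.L t' s s' k (Ee Φ t i j k x) := by
  rw [L_eq, LinearMap.add_apply, LinearMap.add_apply, map_add, Ee_LN, Ee_LN]

theorem X_LN (t : T) (i j : I t) (t' : T) (h : t ≠ t') (s s' : S t') (k : ℕ) (x : F k) :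
    Φ.X t i j (k + 2) (LN Φ t' s s' k x) = LN Φ t' s s' k (Φ.X t i j k x) := by
  simp only [Fock.X, LinearMap.sum_apply, LinearMap.add_apply, map_sum, map_add,
    hop_LN_ne Φ _ _ h]

theorem Y_LN (t : T) (i j : I t) (t' : T) (h : t ≠ t') (s s' : S t') (k : ℕ) (x : F k) :
    Φ.Y t i j (k + 2) (LN Φ t' s s' k x) = LN Φ t' s s' k (Φ.Y t i j k x) := by
  simp only [Fock.Y, LinearMap.sum_apply, LinearMap.add_apply, map_sum, map_add,
    hop_LN_ne Φ _ _ h]

theorem Y_adj (t : T) (i j : I t) (k : ℕ) (x y : F k) :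
    ⟪Φ.Y t i j k x, y⟫_ℂ = ⟪x, Φ.X t i j k y⟫_ℂ := by
  rw [← inner_conj_symm, ← Φ.X_adj, inner_conj_symm]

/-- The invariant two forms: of the symplectic Lie algebra if `sy t`, and of the general linear
Lie algebra otherwise. -/
def L' (sy : T → Bool) (t : T) (s s' : S t) (k : ℕ) : F k →ₗ[ℂ] F (k + 2) :=
  if sy t then Φ.L t s s' k else LN Φ t s s' k

/-- The contractions. -/
def Lam' (sy : T → Bool) (t : T) (s s' : S t) (k : ℕ) : F (k + 2) →ₗ[ℂ] F k :=
  if sy t then Φ.Lam t s s' k else LamN Φ t s s' k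

theorem L'_adj (sy : T → Bool) (t : T) (s s' : S t) (k : ℕ) (x : F k) (y : F (k + 2)) :
    ⟪L' Φ sy t s s' k x, y⟫_ℂ = ⟪x, Lam' Φ sy t s s' k y⟫_ℂ := by
  unfold L' Lam'
  split_ifs
  · exact Φ.L_adj t s s' k x y
  · exact LN_adj Φ t s s' k x y

/-- The invariant vectors. -/
def Inv (sy : T → Bool) (k : ℕ) : Submodule ℂ (F k) where
  carrier := {f | (∀ t i j, Ee Φ t i j k f = 0) ∧
    ∀ t, sy t = true → ∀ i j, Φ.X t i j k f = 0 ∧ Φ.Y t i j k f = 0}
  add_mem' := fun {a b} ha hb => ⟨fun t i j => by rw [map_add, ha.1, hb.1, add_zero],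
    fun t ht i j => ⟨by rw [map_add, (ha.2 t ht i j).1, (hb.2 t ht i j).1, add_zero],
      by rw [map_add, (ha.2 t ht i j).2, (hb.2 t ht i j).2, add_zero]⟩⟩
  zero_mem' := ⟨fun t i j => map_zero _, fun t _ i j => ⟨map_zero _, map_zero _⟩⟩
  smul_mem' := fun c a ha => ⟨fun t i j => by rw [map_smul, ha.1, smul_zero],
    fun t ht i j => ⟨by rw [map_smul, (ha.2 t ht i j).1, smul_zero],
      by rw [map_smul, (ha.2 t ht i j).2, smul_zero]⟩⟩

theorem L'_mem (sy : T → Bool) (t' : T) (s s' : S t') (k : ℕ) {x : F k} (hx : x ∈ Inv Φ sy k) :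
    L' Φ sy t' s s' k x ∈ Inv Φ sy (k + 2) := by
  unfold L'
  split_ifs with ht'
  · refine ⟨fun t i j => ?_, fun t ht i j => ⟨?_, ?_⟩⟩
    · rw [Ee_L, hx.1, map_zero]
    · rw [Φ.X_L, (hx.2 t ht i j).1, map_zero]
    · rw [Φ.Y_L, (hx.2 t ht i j).2, map_zero]
  · have hne : ∀ t, sy t = true → t ≠ t' := by
      rintro t ht rfl
      exact ht' ht
    refine ⟨fun t i j => ?_, fun t ht i j => ⟨?_, ?_⟩⟩
    · rw [Ee_LN, hx.1, map_zero]
    · rw [X_LN Φ t i j t' (hne t ht), (hx.2 t ht i j).1, map_zero]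
    · rw [Y_LN Φ t i j t' (hne t ht), (hx.2 t ht i j).2, map_zero]

theorem Lam'_mem (sy : T → Bool) (t' : T) (s s' : S t') (k : ℕ) {x : F (k + 2)}
    (hx : x ∈ Inv Φ sy (k + 2)) : Lam' Φ sy t' s s' k x ∈ Inv Φ sy k := by
  have hL : ∀ (A B : ∀ k, F k →ₗ[ℂ] F k), (∀ k x y, ⟪B k x, y⟫_ℂ = ⟪x, A k y⟫_ℂ) →
      (∀ x, B (k + 2) (L' Φ sy t' s s' k x) = L' Φ sy t' s s' k (B k x)) → A (k + 2) x = 0 →
      A k (Lam' Φ sy t' s s' k x) = 0 := by
    intro A B hAB hB h0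
    refine ext_inner_left ℂ fun z => ?_
    rw [← hAB, ← L'_adj, ← hB, hAB, h0, inner_zero_right, inner_zero_right]
  refine ⟨fun t i j => ?_, fun t ht i j => ⟨?_, ?_⟩⟩
  · refine hL (Ee Φ t i j) (Ee Φ t j i) (fun k => Ee_adj Φ t j i k) (fun x => ?_) (hx.1 t i j)
    unfold L'
    split_ifs
    · rw [Ee_L]
    · rw [Ee_LN]
  · refine hL (Φ.X t i j) (Φ.Y t i j) (fun k => Y_adj Φ t i j k) (fun x => ?_) (hx.2 t ht i j).1
    unfold L'
    split_ifs with ht'
    · rw [Φ.Y_L]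
    · rw [Y_LN Φ t i j t' (by rintro rfl; exact ht' ht)]
  · refine hL (Φ.Y t i j) (Φ.X t i j) (fun k => Φ.X_adj t i j k) (fun x => ?_) (hx.2 t ht i j).2
    unfold L'
    split_ifs with ht'
    · rw [Φ.X_L]
    · rw [X_LN Φ t i j t' (by rintro rfl; exact ht' ht)]

theorem sum_four {α β M : Type*} [Fintype α] [Fintype β] [AddCommMonoid M]
    (g : α → α → β → β → M) :
    ∑ s, ∑ s', ∑ i, ∑ j, g s s' i j = ∑ i, ∑ j, ∑ s, ∑ s', g s s' i j := by
  calc _ = ∑ s, ∑ i, ∑ s', ∑ j, g s s' i j := Finset.sum_congr rfl fun s _ => Finset.sum_comm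
    _ = ∑ i, ∑ s, ∑ s', ∑ j, g s s' i j := Finset.sum_comm
    _ = ∑ i, ∑ s, ∑ j, ∑ s', g s s' i j :=
      Finset.sum_congr rfl fun i _ => Finset.sum_congr rfl fun s _ => Finset.sum_comm
    _ = _ := Finset.sum_congr rfl fun i _ => Finset.sum_comm

/-- First identity. -/
theorem sum_one (t : T) (k : ℕ) (f : F (k + 2)) :
    ∑ s, ∑ s', LN Φ t s s' k (LamN Φ t s s' k f) =
      ∑ i, ∑ j, Aop Φ t true true i j (k + 2) (Aop Φ t false false i j (k + 2) f) := by
  have h1 : ∀ s s', LN Φ t s s' k (LamN Φ t s s' k f) = ∑ i, ∑ j,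
      Φ.hop ⟨t, i, s, true⟩ ⟨t, j, s, true⟩ (k + 2)
        (Φ.hop ⟨t, i, s', false⟩ ⟨t, j, s', false⟩ (k + 2) f) := by
    intro s s'
    simp only [LN, LamN, LinearMap.sum_apply, LinearMap.comp_apply, map_sum]
    rw [Finset.sum_comm]
    refine Finset.sum_congr rfl fun i _ => Finset.sum_congr rfl fun j _ => ?_
    have h2 := Φ.hop_d ⟨t, i, s', false⟩ ⟨t, j, s', false⟩ ⟨t, j, s, true⟩ (k + 1) f
    rw [if_neg (by simp), sub_zero] at h2
    rw [hop_succ Φ _ _ (k + 1), ← h2]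
    rfl
  simp only [h1, Aop, LinearMap.sum_apply, map_sum]
  rw [sum_four]
  exact Finset.sum_congr rfl fun i _ => Finset.sum_congr rfl fun j _ => Finset.sum_comm

/-- Second identity. -/
theorem sum_two (t : T) (k : ℕ) (f : F (k + 2)) :
    ∑ s, ∑ s', LN Φ t s s' k (LamN Φ t s' s k f) =
      (∑ i, Aop Φ t true true i i (k + 2) f) -
      ∑ i, ∑ j, Aop Φ t true false i j (k + 2) (Aop Φ t false true i j (k + 2) f) := by
  have h1 : ∀ s s', LN Φ t s s' k (LamN Φ t s' s k f) = ∑ i, ∑ j,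
      ((if (⟨t, j, s, false⟩ : Idx I S) = ⟨t, i, s', false⟩ then
        Φ.hop ⟨t, i, s, true⟩ ⟨t, j, s', true⟩ (k + 2) f else 0) -
      Φ.hop ⟨t, i, s, true⟩ ⟨t, j, s, false⟩ (k + 2)
        (Φ.hop ⟨t, i, s', false⟩ ⟨t, j, s', true⟩ (k + 2) f)) := by
    intro s s'
    simp only [LN, LamN, LinearMap.sum_apply, LinearMap.comp_apply, map_sum]
    rw [Finset.sum_comm]
    refine Finset.sum_congr rfl fun i _ => Finset.sum_congr rfl fun j _ => ?_
    have h2 := Φ.hop_d ⟨t, i, s', false⟩ ⟨t, j, s', true⟩ ⟨t, j, s, false⟩ (k + 1) f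
    have h3 : Φ.hop ⟨t, i, s', false⟩ ⟨t, j, s', true⟩ (k + 1)
        (Φ.d ⟨t, j, s, false⟩ (k + 1) f) =
        -(Φ.c ⟨t, i, s', false⟩ k (Φ.d ⟨t, j, s, false⟩ k (Φ.d ⟨t, j, s', true⟩ (k + 1) f))) := by
      rw [hop_succ, Φ.dd, map_neg]
    rw [h3] at h2
    have h4 := congrArg (Φ.c ⟨t, i, s, true⟩ (k + 1)) h2
    rw [map_neg, map_sub] at h4
    rw [← neg_neg (Φ.c ⟨t, i, s, true⟩ (k + 1) (Φ.c ⟨t, i, s', false⟩ k
      (Φ.d ⟨t, j, s, false⟩ k (Φ.d ⟨t, j, s', true⟩ (k + 1) f)))), h4, neg_sub]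
    congr 1
    split_ifs
    · rfl
    · exact map_zero _
  simp only [h1, Aop, LinearMap.sum_apply, map_sum]
  rw [sum_four]
  simp only [Finset.sum_sub_distrib]
  congr 1
  · refine Finset.sum_congr rfl fun i _ => ?_
    rw [Finset.sum_eq_single i]
    · refine Finset.sum_congr rfl fun s _ => ?_
      rw [Finset.sum_eq_single s]
      · simp
      · intro s' _ hs'
        rw [if_neg]
        simp only [Sigma.mk.injEq, heq_eq_eq, Prod.mk.injEq, true_and, and_true]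
        exact fun h => hs' h.symm
      · intro h
        exact absurd (Finset.mem_univ _) h
    · intro j _ hj
      refine Finset.sum_eq_zero fun s _ => Finset.sum_eq_zero fun s' _ => ?_
      rw [if_neg]
      simp only [Sigma.mk.injEq, heq_eq_eq, Prod.mk.injEq, true_and, and_true]
      exact fun h => hj h.1
    · intro h
      exact absurd (Finset.mem_univ _) h
  · exact Finset.sum_congr rfl fun i _ => Finset.sum_congr rfl fun j _ => Finset.sum_comm

theorem inner_Aop (t : T) (e : Bool) (i : I t) (k : ℕ) (f : F (k + 1)) :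
    ⟪Aop Φ t e e i i (k + 1) f, f⟫_ℂ =
      ((∑ s, ‖Φ.d ⟨t, i, s, e⟩ k f‖ ^ 2 : ℝ) : ℂ) := by
  simp only [Aop, LinearMap.sum_apply, sum_inner, inner_hop, inner_self_eq_norm_sq_to_K]
  push_cast
  rfl

theorem d_zero_of_Aop (t : T) (e : Bool) (i : I t) (k : ℕ) (f : F (k + 1))
    (h : ⟪Aop Φ t e e i i (k + 1) f, f⟫_ℂ = 0) (s : S t) : Φ.d ⟨t, i, s, e⟩ k f = 0 := by
  rw [inner_Aop] at h
  have h1 : (∑ s, ‖Φ.d ⟨t, i, s, e⟩ k f‖ ^ 2 : ℝ) = 0 := by exact_mod_cast h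
  rw [Finset.sum_eq_zero_iff_of_nonneg fun _ _ => sq_nonneg _] at h1
  have h2 := h1 s (Finset.mem_univ _)
  exact norm_eq_zero.1 (pow_eq_zero_iff two_ne_zero |>.1 h2)

/-- Harmonic invariant vectors are killed by all the contractions. -/
theorem harmonic (sy : T → Bool) (k : ℕ) (f : F (k + 2)) (hf : f ∈ Inv Φ sy (k + 2))
    (hL : ∀ t s s', Lam' Φ sy t s s' k f = 0) (α : Idx I S) : Φ.d α (k + 1) f = 0 := by
  obtain ⟨t, i, s, e⟩ := α
  have hE : ∀ i j, Aop Φ t true true i j (k + 2) f = Aop Φ t false false j i (k + 2) f := by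
    intro i j
    have := hf.1 t i j
    rw [Ee_eq, LinearMap.sub_apply, sub_eq_zero] at this
    exact this
  have hsuff : ⟪Aop Φ t true true i i (k + 2) f, f⟫_ℂ = 0 → Φ.d ⟨t, i, s, e⟩ (k + 1) f = 0 := by
    intro h
    cases e with
    | true => exact d_zero_of_Aop Φ t true i (k + 1) f h s
    | false =>
      rw [hE] at h
      exact d_zero_of_Aop Φ t false i (k + 1) f h s
  by_cases hsy : sy t = true
  · have hL1 : ∀ s s', LamN Φ t s' s k f = -LamN Φ t s s' k f := by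
      intro s s'
      have := hL t s' s
      unfold Lam' at this
      rw [if_pos hsy, Lam_eq, LinearMap.add_apply] at this
      exact eq_neg_of_add_eq_zero_left this
    have hY : ∀ i j, Aop Φ t false true j i (k + 2) f = -Aop Φ t false true i j (k + 2) f := by
      intro i j
      have := (hf.2 t hsy i j).2
      rw [Y_eq, LinearMap.add_apply] at this
      exact eq_neg_of_add_eq_zero_left this
    have h2 := congrArg (fun z => ⟪z, f⟫_ℂ) (sum_two Φ t k f)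
    have h3 : ∀ s s', ⟪LamN Φ t s' s k f, LamN Φ t s s' k f⟫_ℂ =
        -((‖LamN Φ t s s' k f‖ ^ 2 : ℝ) : ℂ) := by
      intro s s'
      rw [hL1, inner_neg_left, inner_self_eq_norm_sq_to_K]
      push_cast
      rfl
    have h4 : ∀ i j, ⟪Aop Φ t true false i j (k + 2) (Aop Φ t false true i j (k + 2) f), f⟫_ℂ =
        -((‖Aop Φ t false true i j (k + 2) f‖ ^ 2 : ℝ) : ℂ) := by
      intro i j
      rw [Aop_adj, hY i j, inner_neg_right, inner_self_eq_norm_sq_to_K]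
      push_cast
      rfl
    simp only [sum_inner, inner_sub_left, LN_adj, h3, h4, inner_Aop] at h2
    have h6 : -(∑ s, ∑ s', ‖LamN Φ t s s' k f‖ ^ 2) =
        (∑ i, ∑ s, ‖Φ.d ⟨t, i, s, true⟩ (k + 1) f‖ ^ 2) +
          ∑ i, ∑ j, ‖Aop Φ t false true i j (k + 2) f‖ ^ 2 := by
      have h7 : ((-(∑ s, ∑ s', ‖LamN Φ t s s' k f‖ ^ 2) : ℝ) : ℂ) =
        (((∑ i, ∑ s, ‖Φ.d ⟨t, i, s, true⟩ (k + 1) f‖ ^ 2) +
          ∑ i, ∑ j, ‖Aop Φ t false true i j (k + 2) f‖ ^ 2 : ℝ) : ℂ) := by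
        push_cast
        simp only [Finset.sum_neg_distrib, sub_neg_eq_add] at h2
        push_cast at h2
        exact h2
      exact_mod_cast h7
    have h8 : 0 ≤ ∑ s, ∑ s', ‖LamN Φ t s s' k f‖ ^ 2 :=
      Finset.sum_nonneg fun _ _ => Finset.sum_nonneg fun _ _ => sq_nonneg _
    have h9 : 0 ≤ ∑ i, ∑ j, ‖Aop Φ t false true i j (k + 2) f‖ ^ 2 :=
      Finset.sum_nonneg fun _ _ => Finset.sum_nonneg fun _ _ => sq_nonneg _
    have h10 : 0 ≤ ∑ i, ∑ s, ‖Φ.d ⟨t, i, s, true⟩ (k + 1) f‖ ^ 2 :=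
      Finset.sum_nonneg fun _ _ => Finset.sum_nonneg fun _ _ => sq_nonneg _
    have h11 : ∑ i, ∑ s, ‖Φ.d ⟨t, i, s, true⟩ (k + 1) f‖ ^ 2 = 0 := by linarith
    rw [Finset.sum_eq_zero_iff_of_nonneg fun _ _ => Finset.sum_nonneg fun _ _ => sq_nonneg _]
      at h11
    apply hsuff
    rw [inner_Aop, h11 i (Finset.mem_univ _)]
    simp
  · have hL1 : ∀ s s', LamN Φ t s s' k f = 0 := by
      intro s s'
      have := hL t s s'
      unfold Lam' at this
      rwa [if_neg hsy] at this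
    have h2 := congrArg (fun z => ⟪z, f⟫_ℂ) (sum_one Φ t k f)
    have h3 : ∀ i j, ⟪Aop Φ t true true i j (k + 2) (Aop Φ t false false i j (k + 2) f), f⟫_ℂ =
        ((‖Aop Φ t true true j i (k + 2) f‖ ^ 2 : ℝ) : ℂ) := by
      intro i j
      rw [Aop_adj, ← hE j i, inner_self_eq_norm_sq_to_K]
      push_cast
      rfl
    simp only [hL1, map_zero, Finset.sum_const_zero, inner_zero_left, sum_inner, h3] at h2
    have h4 : ∑ i, ∑ j, ‖Aop Φ t true true j i (k + 2) f‖ ^ 2 = 0 := by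
      have h5 : ((∑ i, ∑ j, ‖Aop Φ t true true j i (k + 2) f‖ ^ 2 : ℝ) : ℂ) = 0 := by
        push_cast
        push_cast at h2
        exact h2.symm
      exact_mod_cast h5
    rw [Finset.sum_eq_zero_iff_of_nonneg fun _ _ => Finset.sum_nonneg fun _ _ => sq_nonneg _]
      at h4
    have h5 := h4 i (Finset.mem_univ _)
    rw [Finset.sum_eq_zero_iff_of_nonneg fun _ _ => sq_nonneg _] at h5
    have h6 := h5 i (Finset.mem_univ _)
    apply hsuff
    rw [norm_eq_zero.1 (pow_eq_zero_iff two_ne_zero |>.1 h6), inner_zero_left]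

/-- Invariant vectors are sums of products of an invariant vector with an invariant two form. -/
theorem Inv_le (sy : T → Bool) (hfin : ∀ k, FiniteDimensional ℂ (F k))
    (hvac : ∀ (k : ℕ) (f : F (k + 1)), (∀ α, Φ.d α k f = 0) → f = 0) (k : ℕ) :
    Inv Φ sy (k + 2) ≤ ⨆ t, ⨆ s, ⨆ s', (Inv Φ sy k).map (L' Φ sy t s s' k) := by
  have := hfin (k + 2)
  intro f hf
  set W : Submodule ℂ (F (k + 2)) :=
    ⨆ t, ⨆ s, ⨆ s', (Inv Φ sy k).map (L' Φ sy t s s' k) with hW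
  have hWle : W ≤ Inv Φ sy (k + 2) := by
    rw [hW]
    refine iSup_le fun t => iSup_le fun s => iSup_le fun s' => ?_
    rintro _ ⟨x, hx, rfl⟩
    exact L'_mem Φ sy t s s' k hx
  obtain ⟨w, hw, z, hz, rfl⟩ := W.exists_add_mem_mem_orthogonal f
  have hzI : z ∈ Inv Φ sy (k + 2) := by
    have := Submodule.sub_mem _ hf (hWle hw)
    rwa [add_sub_cancel_left] at this
  have hLz : ∀ t s s', Lam' Φ sy t s s' k z = 0 := by
    intro t s s'
    have h1 : Lam' Φ sy t s s' k z ∈ Inv Φ sy k := Lam'_mem Φ sy t s s' k hzI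
    have h2 : L' Φ sy t s s' k (Lam' Φ sy t s s' k z) ∈ W := by
      rw [hW]
      exact Submodule.mem_iSup_of_mem t (Submodule.mem_iSup_of_mem s
        (Submodule.mem_iSup_of_mem s' ⟨_, h1, rfl⟩))
    have h3 := hz _ h2
    rw [L'_adj, inner_self_eq_zero] at h3
    exact h3
  have hz0 : z = 0 := hvac (k + 1) z fun α => harmonic Φ sy k z hzI hLz α
  rw [hz0, add_zero]
  exact hw

end Pool.Agent.TateOdd
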