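import Pool.Agent.GHCFull.T9
import Pool.Agent.OddRank.CommutantOT

/-!
# Powers of a representation
-/

set_option autoImplicit false

namespace Pool.Agent.TateOdd

open Pool.Agent.OddRank

section Field

variable {K V : Type*} [Field K] [AddCommGroup V] [Module K V]

/-- The diagonal action on the `n`-th power. -/
def dg (n : ℕ) : Module.End K V →ₗ[K] Module.End K (Fin n → V) where
  toFun x :=
    { toFun := fun w a => x (w a)
      map_add' := fun _ _ => funext fun _ => map_add _ _ _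
      map_smul' := fun _ _ => funext fun _ => map_smul _ _ _ }
  map_add' _ _ := rfl
  map_smul' _ _ := rfl

theorem dg_apply (n : ℕ) (x : Module.End K V) (w : Fin n → V) (a : Fin n) :
    dg n x w a = x (w a) := rfl

theorem dg_mul (n : ℕ) (x y : Module.End K V) : dg n (x * y) = dg n x * dg n y := rfl

/-- Semisimplicity of powers. -/
theorem semisimple_dg (n : ℕ) {G : Set (Module.End K V)} (h : Semisimple G) :
    Semisimple (dg n '' G) := by
  let R := Algebra.adjoin K G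
  -- stable subspaces of `V` are submodules over `R`
  have h1 : ∀ U : Submodule K V, Stable G U → ∀ r ∈ R, ∀ u ∈ U, r u ∈ U := by
    intro U hU r hr
    induction hr using Algebra.adjoin_induction with
    | mem x hx => exact hU x hx
    | algebraMap c => exact fun u hu => U.smul_mem c hu
    | add x y _ _ hx hy => exact fun u hu => U.add_mem (hx u hu) (hy u hu)
    | mul x y _ _ hx hy => exact fun u hu => hx _ (hy u hu)
  have h2 : ∀ U : Submodule K (Fin n → V), Stable (dg n '' G) U → ∀ r ∈ R, ∀ u ∈ U,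
      dg n r u ∈ U := by
    intro U hU r hr
    induction hr using Algebra.adjoin_induction with
    | mem x hx => exact hU (dg n x) ⟨x, hx, rfl⟩
    | algebraMap c => exact fun u hu => U.smul_mem c hu
    | add x y _ _ hx hy =>
      intro u hu
      rw [map_add]
      exact U.add_mem (hx u hu) (hy u hu)
    | mul x y _ _ hx hy => exact fun u hu => hx _ (hy u hu)
  have hV : IsSemisimpleModule R V := by
    rw [isSemisimpleModule_iff]
    refine ⟨fun U => ?_⟩
    obtain ⟨U', hU', hc⟩ := h (U.restrictScalars K)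
      (fun e he u hu => U.smul_mem (⟨e, Algebra.subset_adjoin he⟩ : R) hu)
    refine ⟨{ U' with smul_mem' := fun r u hu => h1 U' hU' r.1 r.2 u hu }, ?_⟩
    constructor
    · rw [disjoint_iff, Submodule.eq_bot_iff]
      intro x hx
      have : x ∈ U.restrictScalars K ⊓ U' := hx
      rw [hc.inf_eq_bot] at this
      exact this
    · rw [codisjoint_iff, Submodule.eq_top_iff']
      intro x
      have : x ∈ U.restrictScalars K ⊔ U' := by
        rw [hc.sup_eq_top]
        exact Submodule.mem_top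
      obtain ⟨y, hy, z, hz, rfl⟩ := Submodule.mem_sup.1 this
      exact Submodule.mem_sup.2 ⟨y, hy, z, hz, rfl⟩
  intro U hU
  let UR : Submodule R (Fin n → V) := { U with smul_mem' := fun r u hu => h2 U hU r.1 r.2 u hu }
  obtain ⟨U', hc⟩ := exists_isCompl UR
  refine ⟨U'.restrictScalars K, ?_, ?_⟩
  · rintro _ ⟨e, he, rfl⟩ u hu
    exact U'.smul_mem (⟨e, Algebra.subset_adjoin he⟩ : R) hu
  · constructor
    · rw [disjoint_iff, Submodule.eq_bot_iff]
      intro x hx
      have : x ∈ UR ⊓ U' := hx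
      rw [hc.inf_eq_bot] at this
      exact this
    · rw [codisjoint_iff, Submodule.eq_top_iff']
      intro x
      have : x ∈ UR ⊔ U' := by
        rw [hc.sup_eq_top]
        exact Submodule.mem_top
      obtain ⟨y, hy, z, hz, rfl⟩ := Submodule.mem_sup.1 this
      exact Submodule.mem_sup.2 ⟨y, hy, z, hz, rfl⟩

/-- The diagonal action maps the Lie algebra generated by `G` into the one generated by the image
of `G`. -/
theorem dg_mem_lieSpan (n : ℕ) {G : Set (Module.End K V)} {x : Module.End K V}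
    (hx : x ∈ lieSpan G) : dg n x ∈ lieSpan (dg n '' G) := by
  have h1 : lieSpan G ≤ (lieSpan (dg n '' G)).comap (dg n) := by
    refine lieSpan_le (fun e he => subset_lieSpan _ ⟨e, he, rfl⟩) fun a ha b hb => ?_
    rw [Submodule.mem_comap, map_sub, dg_mul, dg_mul]
    exact lieSpan_lie _ ha _ hb
  exact h1 hx

/-- An irreducible subspace of a power is isomorphic to an irreducible subspace of the
representation via one of the coordinates. -/
theorem exists_coord (n : ℕ) {G : Set (Module.End K V)} {W : Submodule K (Fin n → V)}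
    (hW : Irreducible (dg n '' G) W) : ∃ a : Fin n,
      Irreducible G (W.map (LinearMap.proj a : (Fin n → V) →ₗ[K] V)) ∧
      ∀ w ∈ W, w a = 0 → w = 0 := by
  obtain ⟨w, hw, hw0⟩ := (Submodule.ne_bot_iff W).1 hW.2.1
  obtain ⟨a, ha⟩ := Function.ne_iff.1 hw0
  have hinj : ∀ w ∈ W, w a = 0 → w = 0 := by
    have h1 : Stable (dg n '' G) (W ⊓ LinearMap.ker (LinearMap.proj a : (Fin n → V) →ₗ[K] V)) := by
      rintro _ ⟨e, he, rfl⟩ u ⟨hu, hu'⟩
      refine ⟨hW.1 _ ⟨e, he, rfl⟩ u hu, ?_⟩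
      change u a = 0 at hu'
      change e (u a) = 0
      rw [hu', map_zero]
    rcases hW.2.2 _ h1 inf_le_left with h2 | h2
    · intro u hu hu'
      have : u ∈ W ⊓ LinearMap.ker (LinearMap.proj a : (Fin n → V) →ₗ[K] V) := ⟨hu, hu'⟩
      rw [h2] at this
      exact this
    · rw [inf_eq_left] at h2
      exact absurd (LinearMap.mem_ker.1 (h2 hw)) ha
  refine ⟨a, ⟨?_, ?_, ?_⟩, hinj⟩
  · rintro e he _ ⟨u, hu, rfl⟩
    exact ⟨dg n e u, hW.1 _ ⟨e, he, rfl⟩ u hu, rfl⟩
  · intro h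
    exact ha ((Submodule.eq_bot_iff _).1 h _ ⟨w, hw, rfl⟩)
  · intro U hU hUW
    have h1 : Stable (dg n '' G) (W ⊓ U.comap (LinearMap.proj a : (Fin n → V) →ₗ[K] V)) := by
      rintro _ ⟨e, he, rfl⟩ u ⟨hu, hu'⟩
      exact ⟨hW.1 _ ⟨e, he, rfl⟩ u hu, hU e he _ hu'⟩
    rcases hW.2.2 _ h1 inf_le_left with h2 | h2
    · left
      rw [Submodule.eq_bot_iff]
      intro x hx
      obtain ⟨u, hu, rfl⟩ := hUW hx
      have : u ∈ W ⊓ U.comap (LinearMap.proj a : (Fin n → V) →ₗ[K] V) := ⟨hu, hx⟩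
      rw [h2, Submodule.mem_bot] at this
      rw [this, map_zero]
    · right
      refine le_antisymm hUW ?_
      rintro _ ⟨u, hu, rfl⟩
      rw [← h2] at hu
      exact hu.2

/-- The form induced by a coordinate. -/
def cform (n : ℕ) (a : Fin n) (φ : V →ₗ[K] V →ₗ[K] K) : (Fin n → V) →ₗ[K] (Fin n → V) →ₗ[K] K :=
  φ.compl₁₂ (LinearMap.proj a) (LinearMap.proj a)

theorem cform_apply (n : ℕ) (a : Fin n) (φ : V →ₗ[K] V →ₗ[K] K) (x y : Fin n → V) :
    cform n a φ x y = φ (x a) (y a) := rfl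

/-- The sum of the forms on the coordinates. -/
def sform (n : ℕ) (φ : V →ₗ[K] V →ₗ[K] K) : (Fin n → V) →ₗ[K] (Fin n → V) →ₗ[K] K :=
  ∑ a, cform n a φ

theorem sform_apply (n : ℕ) (φ : V →ₗ[K] V →ₗ[K] K) (x y : Fin n → V) :
    sform n φ x y = ∑ a, φ (x a) (y a) := by
  unfold sform
  rw [LinearMap.sum_apply, LinearMap.sum_apply]
  rfl

theorem sform_alt (n : ℕ) {φ : V →ₗ[K] V →ₗ[K] K} (h : ∀ x, φ x x = 0) (x : Fin n → V) :
    sform n φ x x = 0 := by
  rw [sform_apply]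
  exact Finset.sum_eq_zero fun a _ => h _

theorem sform_nd (n : ℕ) {φ : V →ₗ[K] V →ₗ[K] K} (h : ∀ x, (∀ y, φ x y = 0) → x = 0)
    (x : Fin n → V) (hx : ∀ y, sform n φ x y = 0) : x = 0 := by
  classical
  funext a
  refine h _ fun y => ?_
  have h1 := hx (Pi.single a y)
  rw [sform_apply, Finset.sum_eq_single a] at h1
  · rwa [Pi.single_eq_same] at h1
  · intro b _ hb
    rw [Pi.single_eq_of_ne hb, map_zero]
  · intro ha
    exact absurd (Finset.mem_univ _) ha

theorem sform_mult (n : ℕ) {φ : V →ₗ[K] V →ₗ[K] K} {G : Set (Module.End K V)}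
    (h : ∀ e ∈ G, ∀ x y, φ (e x) y + φ x (e y) = φ x y) :
    ∀ e ∈ dg n '' G, ∀ x y, sform n φ (e x) y + sform n φ x (e y) = sform n φ x y := by
  rintro _ ⟨e, he, rfl⟩ x y
  rw [sform_apply, sform_apply, sform_apply, ← Finset.sum_add_distrib]
  exact Finset.sum_congr rfl fun a _ => h e he _ _

theorem finrank_map_dg (n : ℕ) {W : Submodule K (Fin n → V)} (a : Fin n)
    (hinj : ∀ w ∈ W, w a = 0 → w = 0) {N : Module.End K V} (hN : ∀ w ∈ W, dg n N w ∈ W) :
    Module.finrank K (W.map (dg n N)) =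
      Module.finrank K ((W.map (LinearMap.proj a : (Fin n → V) →ₗ[K] V)).map N) := by
  have h1 : (W.map (LinearMap.proj a : (Fin n → V) →ₗ[K] V)).map N =
      (W.map (dg n N)).map (LinearMap.proj a : (Fin n → V) →ₗ[K] V) := by
    rw [← Submodule.map_comp, ← Submodule.map_comp]
    rfl
  rw [h1]
  have h2 : (W.map (dg n N)).map (LinearMap.proj a : (Fin n → V) →ₗ[K] V) =
      LinearMap.range ((LinearMap.proj a : (Fin n → V) →ₗ[K] V) ∘ₗ (W.map (dg n N)).subtype) := by
    rw [LinearMap.range_comp, Submodule.range_subtype]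
  rw [h2]
  refine (LinearMap.finrank_range_of_inj ?_).symm
  rw [injective_iff_map_eq_zero]
  rintro ⟨_, u, hu, rfl⟩ h3
  exact Subtype.ext (hinj _ (hN u hu) h3)

end Field

section Complex

variable {V : Type*} [AddCommGroup V] [Module ℂ V] [FiniteDimensional ℂ V]

/-- The hypothesis on the irreducible subspaces is inherited by powers. -/
theorem power_hyp (n : ℕ) {G : Set (Module.End ℂ V)}
    (h : ∀ W, Irreducible G W → ∃ φ : V →ₗ[ℂ] V →ₗ[ℂ] ℂ,
      (∀ x ∈ W, (∀ y ∈ W, φ x y = 0) → x = 0) ∧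
      (∀ e ∈ G, ∀ x ∈ W, ∀ y ∈ W, φ (e x) y + φ x (e y) = φ x y) ∧
      ∃ N ∈ lieSpan G, N * N = 0 ∧ (Odd (Module.finrank ℂ (W.map N)) ∨
        Module.finrank ℂ (W.map N) = 2 ∧ ∀ x ∈ W, φ x x = 0))
    (W : Submodule ℂ (Fin n → V)) (hW : Irreducible (dg n '' G) W) :
    ∃ φ : (Fin n → V) →ₗ[ℂ] (Fin n → V) →ₗ[ℂ] ℂ,
      (∀ x ∈ W, (∀ y ∈ W, φ x y = 0) → x = 0) ∧
      (∀ e ∈ dg n '' G, ∀ x ∈ W, ∀ y ∈ W, φ (e x) y + φ x (e y) = φ x y) ∧
      ∃ N ∈ lieSpan (dg n '' G), N * N = 0 ∧ (Odd (Module.finrank ℂ (W.map N)) ∨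
        Module.finrank ℂ (W.map N) = 2 ∧ ∀ x ∈ W, φ x x = 0) := by
  obtain ⟨a, ha, hinj⟩ := exists_coord n hW
  obtain ⟨φ, h1, h2, N, hN, hNN, h3⟩ := h _ ha
  refine ⟨cform n a φ, ?_, ?_, dg n N, dg_mem_lieSpan n hN, ?_, ?_⟩
  · intro x hx hy
    refine hinj x hx (h1 _ ⟨x, hx, rfl⟩ ?_)
    rintro _ ⟨y, hyW, rfl⟩
    exact hy y hyW
  · rintro _ ⟨e, he, rfl⟩ x hx y hy
    exact h2 e he _ ⟨x, hx, rfl⟩ _ ⟨y, hy, rfl⟩
  · rw [← dg_mul, hNN, map_zero]
  · have h4 : ∀ w ∈ W, dg n N w ∈ W := stable_span hW.1 _ (dg_mem_lieSpan n hN)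
    rw [finrank_map_dg n a hinj h4]
    exact h3.imp id fun h5 => ⟨h5.1, fun x hx => h5.2 _ ⟨x, hx, rfl⟩⟩

end Complex

end Pool.Agent.TateOdd
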