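import Pool.Agent.TateOdd.Prod
import Pool.Agent.TateOdd.Power
import Pool.Agent.GHCFull.AltMain
import Pool.Agent.GHCFull.S3
import Pool.Agent.GHCFull.S4

/-!
# Tate classes are sums of products of divisor classes
-/

set_option autoImplicit false

universe u

namespace Pool.Agent.TateOdd

open Module Pool.Agent.GHCFull Pool.Agent.OddRank

/-- A space of forms stable under the generators is stable under the Lie algebra. -/
theorem der_lieSpan {H : Type u} [AddCommGroup H] [Module ℂ H] {G : Set (Module.End ℂ H)} {k : ℕ}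
    {W : Submodule ℂ (AForm H k)} (hW : ∀ g ∈ G, ∀ ω ∈ W, der g k ω ∈ W) :
    ∀ x ∈ lieSpan G, ∀ ω ∈ W, der x k ω ∈ W := by
  let g : Submodule ℂ (Module.End ℂ H) :=
    { carrier := {x | ∀ ω ∈ W, der x k ω ∈ W}
      add_mem' := fun {x y} hx hy ω hω => by
        rw [der_add]
        exact W.add_mem (hx ω hω) (hy ω hω)
      zero_mem' := fun ω _ => by
        have h := der_smul (0 : ℂ) (0 : Module.End ℂ H) k ω
        rw [zero_smul, zero_smul] at h
        rw [h]
        exact W.zero_mem
      smul_mem' := fun c x hx ω hω => by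
        rw [der_smul]
        exact W.smul_mem c (hx ω hω) }
  refine fun x hx => (lieSpan_le (g := g) hW fun x hx y hy ω hω => ?_) hx
  rw [der_der]
  exact W.sub_mem (hy _ (hx ω hω)) (hx _ (hy ω hω))

variable {H : Type u} [AddCommGroup H] [Module ℂ H] [FiniteDimensional ℂ H]

/-- The alternating forms in two arguments on which the idempotents in `G` have multiplier one. -/
def Div (G : Set (Module.End ℂ H)) (ω : H →ₗ[ℂ] H →ₗ[ℂ] ℂ) : Prop :=
  (∀ x, ω x x = 0) ∧ ∀ e ∈ G, ∀ x y, ω (e x) y + ω x (e y) = ω x y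

omit [FiniteDimensional ℂ H] in
theorem zero_mem_prods (P : (H →ₗ[ℂ] H →ₗ[ℂ] ℂ) → Prop) (η : AForm H (2 * 0)) :
    η ∈ prods P 0 := by
  have hE : IsEmpty (Fin (2 * 0)) := (inferInstance : IsEmpty (Fin 0))
  have h1 : η = η 0 • AlternatingMap.constOfIsEmpty ℂ H (Fin (2 * 0)) (1 : ℂ) := by
    ext v
    rw [AlternatingMap.smul_apply, AlternatingMap.constOfIsEmpty_apply, smul_eq_mul,
      Function.const_apply, mul_one]
    congr 1
    exact Subsingleton.elim _ _
  rw [h1]
  refine Submodule.smul_mem _ _ (Submodule.subset_span ⟨Fin.elim0, fun i => i.elim0, fun w => ?_⟩)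
  simp

/-- Tate classes are sums of products of Tate classes of degree two. -/
theorem tate_general {ψ : H →ₗ[ℂ] H →ₗ[ℂ] ℂ} (halt : ∀ x, ψ x x = 0)
    (hnd : ∀ x, (∀ y, ψ x y = 0) → x = 0) {G : Set (Module.End ℂ H)} (hG : ∀ e ∈ G, e * e = e)
    (hψ : ∀ e ∈ G, ∀ x y, ψ (e x) y + ψ x (e y) = ψ x y) (hss : Semisimple G)
    (h : ∀ W, Irreducible G W → ∃ φ : H →ₗ[ℂ] H →ₗ[ℂ] ℂ,
      (∀ x ∈ W, (∀ y ∈ W, φ x y = 0) → x = 0) ∧
      (∀ e ∈ G, ∀ x ∈ W, ∀ y ∈ W, φ (e x) y + φ x (e y) = φ x y) ∧
      ∃ N ∈ lieSpan G, N * N = 0 ∧ (Odd (Module.finrank ℂ (W.map N)) ∨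
        Module.finrank ℂ (W.map N) = 2 ∧ ∀ x ∈ W, φ x x = 0))
    (j : ℕ) (f : AForm H (2 * j)) (hf : ∀ e ∈ G, der e (2 * j) f = (j : ℂ) • f) :
    f ∈ prods (Div G) j := by
  rcases G.eq_empty_or_nonempty with hE | ⟨e, he⟩
  · -- no generators: the space is zero
    subst hE
    have hbot : ∀ x : H, x = 0 := by
      by_contra hcon
      push Not at hcon
      obtain ⟨x, hx⟩ := hcon
      have hI : Irreducible (∅ : Set (Module.End ℂ H)) (ℂ ∙ x) := by
        refine ⟨fun e he => absurd he (Set.notMem_empty _), ?_, fun U _ hU => ?_⟩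
        · rw [Ne, Submodule.span_singleton_eq_bot]
          exact hx
        · by_cases hU0 : U = ⊥
          · exact Or.inl hU0
          · right
            refine le_antisymm hU ?_
            obtain ⟨y, hy, hy0⟩ := (Submodule.ne_bot_iff U).1 hU0
            obtain ⟨c, rfl⟩ := Submodule.mem_span_singleton.1 (hU hy)
            have hc : c ≠ 0 := fun h => hy0 (by rw [h, zero_smul])
            rw [Submodule.span_singleton_le_iff_mem]
            have := U.smul_mem c⁻¹ hy
            rwa [smul_smul, inv_mul_cancel₀ hc, one_smul] at this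
      obtain ⟨φ, _, _, N, hN, _, h3⟩ := h _ hI
      have hN0 : N = 0 := by
        have : lieSpan (∅ : Set (Module.End ℂ H)) ≤ ⊥ :=
          lieSpan_le (fun e he => absurd he (Set.notMem_empty _)) fun a ha b hb => by
            rw [Submodule.mem_bot] at ha hb ⊢
            rw [ha, hb]
            simp
        exact (Submodule.mem_bot ℂ).1 (this hN)
      rw [hN0] at h3
      have h4 : Module.finrank ℂ ((ℂ ∙ x).map (0 : Module.End ℂ H)) = 0 := by
        rw [Submodule.map_zero, finrank_bot]
      rw [h4] at h3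
      rcases h3 with h3 | ⟨h3, _⟩
      · exact absurd h3 (by decide)
      · exact absurd h3 (by decide)
    match j, f with
    | 0, f => exact zero_mem_prods _ f
    | j + 1, f =>
      have h1 : f = 0 := by
        ext v
        exact f.map_coord_zero (m := v) (0 : Fin (2 * j + 2)) (hbot _)
      rw [h1]
      exact Submodule.zero_mem _
  · have hform : ∀ W, Irreducible G W → ∃ φ, FormOn G W φ := by
      intro W hW
      obtain ⟨φ, h1, h2, N, hN, hNN, hNo | ⟨_, hφ⟩⟩ := h W hW
      · exact formOn_of_odd hW h1 h2 hN hNN hNo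
      · exact ⟨φ, hφ, h1, h2⟩
    have hrank : ∀ W, Irreducible G W → ∃ N ∈ lieSpan G, N * N = 0 ∧
        (Odd (Module.finrank ℂ (W.map N)) ∨ Module.finrank ℂ (W.map N) = 2) := by
      intro W hW
      obtain ⟨φ, _, _, N, hN, hNN, hNo⟩ := h W hW
      exact ⟨N, hN, hNN, hNo.imp id And.left⟩
    have hfull : ∀ D : Module.End ℂ H, (∀ x y, ψ (D x) y + ψ x (D y) = 0) →
        (∀ z : Module.End ℂ H, (∀ e ∈ G, e * z = z * e) → D * z = z * D) → D ∈ lieSpan G := by
      intro D hD hz
      exact (OT.commutant_full hnd hG hψ hss hform hrank D).mpr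
        ⟨⟨0, fun x y => by rw [hD, zero_mul]⟩, hz⟩
    obtain ⟨T, _, _, I, S, _, _, _, _, b, A⟩ := exists_adapted halt hnd hG hψ hss hform he
    let W : Submodule ℂ (AForm H (2 * j)) := ℂ ∙ f
    have hfW : f ∈ W := Submodule.mem_span_singleton_self f
    have hW : ∀ e ∈ G, ∀ ω ∈ W, der e (2 * j) ω = (j : ℂ) • ω := by
      intro e he ω hω
      obtain ⟨c, rfl⟩ := Submodule.mem_span_singleton.1 hω
      rw [map_smul, hf e he, smul_comm]
    have hst := der_lieSpan (W := W) fun e he ω hω => by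
      rw [hW e he ω hω]
      exact W.smul_mem _ hω
    have hpm : ∀ ω ∈ W, der (pm b) (2 * j) ω = (j : ℂ) • ω := by
      intro ω hω
      rw [A.pm_eq, sub_eq_add_neg, ← neg_one_smul ℂ, der_add, der_smul, der_one, hW e he ω hω,
        smul_smul, ← add_smul]
      congr 1
      push_cast
      ring
    have hle := le_Jfil b j (2 * j) W (fun t i i' => hst _ (A.dn_mem halt hfull t i i'))
      (fun t i i' => hst _ (A.up_mem halt hfull t i i'))
      (fun ω hω => by rw [hpm ω hω]; exact W.smul_mem _ hω) [j] (by simp) (fun ω hω => by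
        simp only [List.map_cons, List.map_nil, List.prod_cons, List.prod_nil, mul_one]
        rw [LinearMap.sub_apply, hpm ω hω, LinearMap.smul_apply, Module.End.one_apply, sub_self])
    exact Jfil_le_prods b (P := Div G)
      (fun t s s' => ⟨th_alt b t s s', A.th_inv halt hψ t s s'⟩) j (hle hfW)

end Pool.Agent.TateOdd
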