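import Pool.Agent.TateOdd.Exist
import Pool.Agent.TateOdd.FFT
import Pool.Agent.TateOdd.Main

/-!
# The first fundamental theorem for mixed types
-/

set_option autoImplicit false
set_option linter.unusedSectionVars false

universe u

namespace Pool.Agent.TateOdd

open Pool.Agent.OddRank
open Pool.Agent.GHCFull (NdOn Idx AForm wd ct der der_apply der_add der_smul der_eq_sum altFock core
  finite_aform dn up th th_alt Fock ct_smul Lw)

variable {H : Type u} [AddCommGroup H] [Module ℂ H] [FiniteDimensional ℂ H]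
variable {T : Type} [Fintype T] [DecidableEq T] {I S : T → Type} [∀ t, Fintype (I t)]
  [∀ t, DecidableEq (I t)] [∀ t, Fintype (S t)] [∀ t, DecidableEq (S t)]

section Coord

variable {ψ : H →ₗ[ℂ] H →ₗ[ℂ] ℂ} {G : Set (Module.End ℂ H)} {sy : T → Bool}
  {b : Module.Basis (Idx I S) ℂ H}

theorem coord_self (b : Module.Basis (Idx I S) ℂ H) (α β : Idx I S) :
    b.coord α (b β) = if β = α then 1 else 0 := by
  rw [Module.Basis.coord_apply, Module.Basis.repr_self, Finsupp.single_apply]

namespace Ad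

variable (A : Ad ψ G sy b)

include A

theorem psi_right_false (t : T) (i : I t) (s : S t) (x : H) :
    ψ x (b ⟨t, i, s, false⟩) = b.coord ⟨t, i, s, true⟩ x := by
  have h : ψ.flip (b ⟨t, i, s, false⟩) = b.coord ⟨t, i, s, true⟩ := by
    refine b.ext fun α => ?_
    obtain ⟨t', i', s', ε⟩ := α
    rw [LinearMap.flip_apply, coord_self]
    cases ε with
    | false =>
      rw [A.ψ_ff, if_neg]
      intro h
      have := congrArg (fun q : Idx I S => q.2.2.2) h
      simp at this
    | true =>
      by_cases h : (⟨t', i', s', true⟩ : Idx I S) = ⟨t, i, s, true⟩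
      · rw [if_pos h]
        rw [h]
        exact A.ψ_tf t i s
      · rw [if_neg h]
        exact A.ψ_ne _ _ _ _ _ _ h
  exact LinearMap.congr_fun h x

theorem psi_left_true (t : T) (i : I t) (s : S t) (x : H) :
    ψ (b ⟨t, i, s, true⟩) x = b.coord ⟨t, i, s, false⟩ x := by
  have h : ψ (b ⟨t, i, s, true⟩) = b.coord ⟨t, i, s, false⟩ := by
    refine b.ext fun α => ?_
    obtain ⟨t', i', s', ε⟩ := α
    rw [coord_self]
    cases ε with
    | true =>
      rw [A.ψ_tt, if_neg]
      intro h
      have := congrArg (fun q : Idx I S => q.2.2.2) h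
      simp at this
    | false =>
      by_cases h : (⟨t', i', s', false⟩ : Idx I S) = ⟨t, i, s, false⟩
      · rw [if_pos h, h]
        exact A.ψ_tf t i s
      · rw [if_neg h]
        refine A.ψ_ne _ _ _ _ _ _ fun h' => h ?_
        have h1 := congrArg (fun q : Idx I S => (⟨q.1, q.2.1, q.2.2.1, false⟩ : Idx I S)) h'
        exact h1.symm
  exact LinearMap.congr_fun h x

theorem psi_left_false (halt : ∀ x, ψ x x = 0) (t : T) (i : I t)
    (s : S t) (x : H) : ψ (b ⟨t, i, s, false⟩) x = -b.coord ⟨t, i, s, true⟩ x := by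
  rw [skew_of_alt halt, A.psi_right_false]

theorem psi_right_true (halt : ∀ x, ψ x x = 0) (t : T) (i : I t)
    (s : S t) (x : H) : ψ x (b ⟨t, i, s, true⟩) = -b.coord ⟨t, i, s, false⟩ x := by
  rw [skew_of_alt halt, A.psi_left_true]

end Ad

/-- the operator `b ⟨t, i, s, ε⟩ ↦ b ⟨t, j, s, ε'⟩`, for all `s` -/
noncomputable def el (b : Module.Basis (Idx I S) ℂ H) (t : T) (i j : I t) (ε ε' : Bool) :
    Module.End ℂ H :=
  ∑ s : S t, (b.coord ⟨t, i, s, ε⟩).smulRight (b ⟨t, j, s, ε'⟩)

theorem el_ne (b : Module.Basis (Idx I S) ℂ H) (t : T) (i j : I t) (ε ε' : Bool)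
    (t' : T) (h : t' ≠ t) (i' : I t') (s' : S t') (δ : Bool) :
    el b t i j ε ε' (b ⟨t', i', s', δ⟩) = 0 := by
  simp only [el, LinearMap.sum_apply, LinearMap.smulRight_apply]
  refine Finset.sum_eq_zero fun s _ => ?_
  rw [coord_self, if_neg, zero_smul]
  intro h'
  exact h (congrArg Sigma.fst h')

theorem el_eq (b : Module.Basis (Idx I S) ℂ H) (t : T) (i j : I t) (ε ε' : Bool)
    (i' : I t) (s' : S t) (δ : Bool) :
    el b t i j ε ε' (b ⟨t, i', s', δ⟩) =
      if i' = i ∧ δ = ε then b ⟨t, j, s', ε'⟩ else 0 := by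
  simp only [el, LinearMap.sum_apply, LinearMap.smulRight_apply]
  rw [Finset.sum_eq_single s']
  · rw [coord_self]
    by_cases h : i' = i ∧ δ = ε
    · rw [if_pos h, if_pos, one_smul]
      rw [h.1, h.2]
    · rw [if_neg h, if_neg, zero_smul]
      intro h'
      have h1 := eq_of_heq (Sigma.mk.inj h').2
      simp only [Prod.mk.injEq] at h1
      exact h ⟨h1.1, h1.2.2⟩
  · intro s _ hs
    rw [coord_self, if_neg, zero_smul]
    intro h'
    have h1 := eq_of_heq (Sigma.mk.inj h').2
    simp only [Prod.mk.injEq] at h1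
    exact hs h1.2.1.symm
  · intro h
    exact absurd (Finset.mem_univ _) h

/-- the operator `b ⟨t, i, s, ε⟩ ↦ b ⟨t, i, s', ε⟩`, for all `i` -/
noncomputable def sw (b : Module.Basis (Idx I S) ℂ H) (t : T) (s s' : S t) (ε : Bool) :
    Module.End ℂ H :=
  ∑ i : I t, (b.coord ⟨t, i, s, ε⟩).smulRight (b ⟨t, i, s', ε⟩)

theorem sw_ne (b : Module.Basis (Idx I S) ℂ H) (t : T) (s s' : S t) (ε : Bool)
    (t' : T) (h : t' ≠ t) (i₁ : I t') (s₁ : S t') (δ : Bool) :
    sw b t s s' ε (b ⟨t', i₁, s₁, δ⟩) = 0 := by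
  simp only [sw, LinearMap.sum_apply, LinearMap.smulRight_apply]
  refine Finset.sum_eq_zero fun i _ => ?_
  rw [coord_self, if_neg, zero_smul]
  intro h'
  exact h (congrArg Sigma.fst h')

theorem sw_eq (b : Module.Basis (Idx I S) ℂ H) (t : T) (s s' : S t) (ε : Bool)
    (i₁ : I t) (s₁ : S t) (δ : Bool) :
    sw b t s s' ε (b ⟨t, i₁, s₁, δ⟩) = if s₁ = s ∧ δ = ε then b ⟨t, i₁, s', ε⟩ else 0 := by
  simp only [sw, LinearMap.sum_apply, LinearMap.smulRight_apply]
  rw [Finset.sum_eq_single i₁]
  · rw [coord_self]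
    by_cases h : s₁ = s ∧ δ = ε
    · rw [if_pos h, if_pos, one_smul]
      rw [h.1, h.2]
    · rw [if_neg h, if_neg, zero_smul]
      intro h'
      have h1 := eq_of_heq (Sigma.mk.inj h').2
      simp only [Prod.mk.injEq] at h1
      exact h ⟨h1.2.1, h1.2.2⟩
  · intro i _ hi
    rw [coord_self, if_neg, zero_smul]
    intro h'
    have h1 := eq_of_heq (Sigma.mk.inj h').2
    simp only [Prod.mk.injEq] at h1
    exact hi h1.1.symm
  · intro h
    exact absurd (Finset.mem_univ _) h

/-- The invariant two forms of the general linear Lie algebra. -/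
noncomputable def thN (b : Module.Basis (Idx I S) ℂ H) (t : T) (s s' : S t) :
    H →ₗ[ℂ] H →ₗ[ℂ] ℂ :=
  ∑ i : I t, ((b.coord ⟨t, i, s, true⟩).smulRight (b.coord ⟨t, i, s', false⟩) -
    (b.coord ⟨t, i, s', false⟩).smulRight (b.coord ⟨t, i, s, true⟩))

/-- The general linear Lie algebra. -/
noncomputable def en (b : Module.Basis (Idx I S) ℂ H) (t : T) (i j : I t) : Module.End ℂ H :=
  el b t i j true true - el b t j i false false

theorem dn_eq (b : Module.Basis (Idx I S) ℂ H) (t : T) (i j : I t) :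
    dn b t i j = el b t i j true false + el b t j i true false := by
  rw [dn, el, el, Finset.sum_add_distrib]

theorem up_eq (b : Module.Basis (Idx I S) ℂ H) (t : T) (i j : I t) :
    up b t i j = el b t j i false true + el b t i j false true := by
  rw [up, el, el, Finset.sum_add_distrib]

theorem thN_alt (b : Module.Basis (Idx I S) ℂ H) (t : T) (s s' : S t) (x : H) :
    thN b t s s' x x = 0 := by
  simp only [thN, LinearMap.sum_apply, LinearMap.sub_apply,
    LinearMap.smulRight_apply, LinearMap.smul_apply, smul_eq_mul]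
  refine Finset.sum_eq_zero fun i _ => ?_
  ring

/-- An endomorphism commuting with `G` defines an invariant two form. -/
theorem inv_of_comm (hψ : ∀ e ∈ G, ∀ x y, ψ (e x) y + ψ x (e y) = ψ x y) {P : Module.End ℂ H}
    (hP : ∀ g ∈ G, P * g = g * P) : ∀ g ∈ G, ∀ x y,
    (ψ (P (g x)) y + ψ (g x) (P y)) + (ψ (P x) (g y) + ψ x (P (g y))) =
      ψ (P x) y + ψ x (P y) := by
  intro g hg x y
  have h1 : ∀ v, P (g v) = g (P v) := fun v => LinearMap.congr_fun (hP g hg) v
  rw [h1, h1]
  have h2 := hψ g hg (P x) y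
  have h3 := hψ g hg x (P y)
  linear_combination h2 + h3

namespace Ad

variable (A : Ad ψ G sy b)

include A

theorem el_comm (t : T) (i j : I t) (ε ε' : Bool) (h : ε = ε' ∨ sy t = true)
    (z : Module.End ℂ H) (hz : ∀ g ∈ G, g * z = z * g) :
    el b t i j ε ε' * z = z * el b t i j ε ε' := by
  refine b.ext fun α => ?_
  obtain ⟨t', i', s', δ⟩ := α
  obtain ⟨ζ, hζ1, hζ⟩ := A.comm z hz t'
  simp only [Module.End.mul_apply]
  rw [hζ, map_sum]
  simp only [map_smul]
  by_cases h' : t' = t
  · subst h'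
    simp only [el_eq]
    by_cases h2 : i' = i ∧ δ = ε
    · simp only [if_pos h2, hζ]
      refine Finset.sum_congr rfl fun s _ => ?_
      have h3 : ζ δ = ζ ε' := by
        rw [h2.2]
        rcases h with rfl | h
        · rfl
        · have := hζ1 h
          cases ε <;> cases ε' <;> simp [this]
      rw [h3]
    · simp only [if_neg h2, smul_zero, Finset.sum_const_zero, map_zero]
  · simp only [el_ne b t i j ε ε' t' h', smul_zero, Finset.sum_const_zero, map_zero]

theorem en_skew (halt : ∀ x, ψ x x = 0) (t : T) (i j : I t) (x y : H) :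
    ψ (en b t i j x) y + ψ x (en b t i j y) = 0 := by
  simp only [en, el, LinearMap.sum_apply, LinearMap.sub_apply, LinearMap.smulRight_apply, map_sum,
    map_sub, map_smul, LinearMap.smul_apply, smul_eq_mul, A.psi_right_false,
    A.psi_left_false halt, A.psi_left_true, A.psi_right_true halt]
  rw [← Finset.sum_sub_distrib, ← Finset.sum_sub_distrib, ← Finset.sum_add_distrib]
  refine Finset.sum_eq_zero fun s _ => ?_
  ring

theorem dn_skew (halt : ∀ x, ψ x x = 0) (t : T) (i j : I t) (x y : H) :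
    ψ (dn b t i j x) y + ψ x (dn b t i j y) = 0 := by
  simp only [dn, LinearMap.sum_apply, LinearMap.add_apply, LinearMap.smulRight_apply, map_sum,
    map_add, map_smul, LinearMap.smul_apply, smul_eq_mul, A.psi_right_false,
    A.psi_left_false halt]
  rw [← Finset.sum_add_distrib]
  refine Finset.sum_eq_zero fun s _ => ?_
  ring

theorem up_skew (halt : ∀ x, ψ x x = 0) (t : T) (i j : I t) (x y : H) :
    ψ (up b t i j x) y + ψ x (up b t i j y) = 0 := by
  simp only [up, LinearMap.sum_apply, LinearMap.add_apply, LinearMap.smulRight_apply, map_sum,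
    map_add, map_smul, LinearMap.smul_apply, smul_eq_mul, A.psi_left_true,
    A.psi_right_true halt]
  rw [← Finset.sum_add_distrib]
  refine Finset.sum_eq_zero fun s _ => ?_
  ring

theorem en_comm (t : T) (i j : I t) (z : Module.End ℂ H) (hz : ∀ g ∈ G, g * z = z * g) :
    en b t i j * z = z * en b t i j := by
  rw [en, sub_mul, mul_sub, A.el_comm _ _ _ _ _ (Or.inl rfl) z hz,
    A.el_comm _ _ _ _ _ (Or.inl rfl) z hz]

theorem dn_comm {t : T} (ht : sy t = true) (i j : I t) (z : Module.End ℂ H)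
    (hz : ∀ g ∈ G, g * z = z * g) : dn b t i j * z = z * dn b t i j := by
  rw [dn_eq, add_mul, mul_add, A.el_comm _ _ _ _ _ (Or.inr ht) z hz,
    A.el_comm _ _ _ _ _ (Or.inr ht) z hz]

theorem up_comm {t : T} (ht : sy t = true) (i j : I t) (z : Module.End ℂ H)
    (hz : ∀ g ∈ G, g * z = z * g) : up b t i j * z = z * up b t i j := by
  rw [up_eq, add_mul, mul_add, A.el_comm _ _ _ _ _ (Or.inr ht) z hz,
    A.el_comm _ _ _ _ _ (Or.inr ht) z hz]

/-- For the components of linear type the sides are preserved. -/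
theorem sw_comm {t : T} (ht : sy t = false) (s s' : S t) (ε : Bool) :
    ∀ g ∈ G, sw b t s s' ε * g = g * sw b t s s' ε := by
  intro g hg
  refine b.ext fun α => ?_
  obtain ⟨t', i₁, s₁, δ⟩ := α
  obtain ⟨m, hm0, hm⟩ := A.mul g hg t'
  simp only [Module.End.mul_apply]
  rw [hm, map_sum]
  simp only [map_smul]
  by_cases h : t' = t
  · subst h
    simp only [sw_eq]
    by_cases h2 : s₁ = s ∧ δ = ε
    · rw [if_pos h2, hm]
      refine Finset.sum_congr rfl fun q _ => ?_
      obtain ⟨j, δ'⟩ := q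
      by_cases h3 : δ' = ε
      · rw [if_pos ⟨h2.1, h3⟩, h2.2, h3]
      · have h4 : m (j, δ') (i₁, δ) = 0 := hm0 ht j i₁ δ' δ fun h => h3 (by rw [h, h2.2])
        have h5 : m (j, δ') (i₁, ε) = 0 := hm0 ht j i₁ δ' ε h3
        rw [h4, h5, zero_smul, zero_smul]
    · rw [if_neg h2, map_zero]
      refine Finset.sum_eq_zero fun q _ => ?_
      obtain ⟨j, δ'⟩ := q
      by_cases h3 : s₁ = s ∧ δ' = ε
      · have h4 : m (j, δ') (i₁, δ) = 0 := hm0 ht j i₁ δ' δ fun h => h2 ⟨h3.1, by rw [← h, h3.2]⟩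
        rw [h4, zero_smul]
      · rw [if_neg h3, smul_zero]
  · simp only [sw_ne b t s s' ε t' h, smul_zero, Finset.sum_const_zero, map_zero]

/-- For the components of symplectic type the sum over the two sides commutes with `G`. -/
theorem sw_comm' (t : T) (s s' : S t) :
    ∀ g ∈ G, (sw b t s s' true + sw b t s s' false) * g =
      g * (sw b t s s' true + sw b t s s' false) := by
  intro g hg
  refine b.ext fun α => ?_
  obtain ⟨t', i₁, s₁, δ⟩ := α
  obtain ⟨m, -, hm⟩ := A.mul g hg t'
  simp only [Module.End.mul_apply]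
  rw [hm, map_sum]
  simp only [map_smul]
  by_cases h : t' = t
  · subst h
    have h1 : ∀ (i : I t') (δ : Bool),
        (sw b t' s s' true + sw b t' s s' false) (b ⟨t', i, s₁, δ⟩) =
          if s₁ = s then b ⟨t', i, s', δ⟩ else 0 := by
      intro i δ
      rw [LinearMap.add_apply, sw_eq, sw_eq]
      cases δ <;> by_cases h2 : s₁ = s <;> simp [h2]
    simp only [h1]
    by_cases h2 : s₁ = s
    · simp only [if_pos h2, hm]
    · simp only [if_neg h2, smul_zero, Finset.sum_const_zero, map_zero]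
  · simp only [LinearMap.add_apply, sw_ne b t s s' _ t' h, add_zero, smul_zero,
      Finset.sum_const_zero, map_zero]

theorem thN_eq (halt : ∀ x, ψ x x = 0) (t : T) (s s' : S t) (x y : H) :
    thN b t s s' x y = ψ (sw b t s s' true x) y + ψ x (sw b t s s' true y) := by
  simp only [thN, sw, LinearMap.sum_apply, LinearMap.sub_apply,
    LinearMap.smulRight_apply, map_sum, map_smul, LinearMap.smul_apply, smul_eq_mul,
    A.psi_left_true, A.psi_right_true halt]
  rw [← Finset.sum_add_distrib]
  refine Finset.sum_congr rfl fun i _ => ?_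
  ring

theorem th_eq' (halt : ∀ x, ψ x x = 0) (t : T) (s s' : S t) (x y : H) :
    th b t s s' x y = ψ ((sw b t s s' true + sw b t s s' false) x) y +
      ψ x ((sw b t s s' true + sw b t s s' false) y) := by
  simp only [th, sw, LinearMap.sum_apply, LinearMap.add_apply, LinearMap.sub_apply,
    LinearMap.smulRight_apply, map_sum, map_add, map_smul, LinearMap.smul_apply, smul_eq_mul,
    A.psi_left_true, A.psi_left_false halt, A.psi_right_true halt, A.psi_right_false]
  rw [← Finset.sum_add_distrib, ← Finset.sum_add_distrib, ← Finset.sum_add_distrib]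
  refine Finset.sum_congr rfl fun i _ => ?_
  ring

theorem thN_div (halt : ∀ x, ψ x x = 0)
    (hψ : ∀ e ∈ G, ∀ x y, ψ (e x) y + ψ x (e y) = ψ x y) {t : T} (ht : sy t = false)
    (s s' : S t) : Div G (thN b t s s') := by
  refine ⟨thN_alt b t s s', fun g hg x y => ?_⟩
  rw [A.thN_eq halt, A.thN_eq halt, A.thN_eq halt]
  exact inv_of_comm hψ (A.sw_comm ht s s' true) g hg x y

theorem th_div (halt : ∀ x, ψ x x = 0)
    (hψ : ∀ e ∈ G, ∀ x y, ψ (e x) y + ψ x (e y) = ψ x y) (t : T) (s s' : S t) :
    Div G (th b t s s') := by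
  refine ⟨th_alt b t s s', fun g hg x y => ?_⟩
  rw [A.th_eq' halt, A.th_eq' halt, A.th_eq' halt]
  exact inv_of_comm hψ (A.sw_comm' t s s') g hg x y

end Ad

end Coord

end Pool.Agent.TateOdd
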