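import Pool.Agent.GHCFull.Alt2
import Pool.Agent.GHCFull.Adapted

/-!
# Products of two forms
-/

set_option autoImplicit false

universe u

namespace Pool.Agent.TateOdd

open Pool.Agent.GHCFull

section Alt

variable {H : Type u}

/-- The alternation of a function of `k` vectors. -/
noncomputable def altf {k : ℕ} (g : (Fin k → H) → ℂ) (v : Fin k → H) : ℂ :=
  ∑ σ : Equiv.Perm (Fin k), ((Equiv.Perm.sign σ : ℤ) : ℂ) * g fun i => v (σ i)

theorem altf_add {k : ℕ} (g g' : (Fin k → H) → ℂ) (v : Fin k → H) :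
    altf (fun w => g w + g' w) v = altf g v + altf g' v := by
  unfold altf
  rw [← Finset.sum_add_distrib]
  exact Finset.sum_congr rfl fun σ _ => mul_add _ _ _

theorem altf_sum {k : ℕ} {α : Type*} (s : Finset α) (g : α → (Fin k → H) → ℂ) (v : Fin k → H) :
    altf (fun w => ∑ a ∈ s, g a w) v = ∑ a ∈ s, altf (g a) v := by
  unfold altf
  rw [Finset.sum_comm]
  exact Finset.sum_congr rfl fun σ _ => Finset.mul_sum _ _ _

theorem altf_neg {k : ℕ} (g : (Fin k → H) → ℂ) (v : Fin k → H) :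
    altf (fun w => -g w) v = -altf g v := by
  unfold altf
  rw [← Finset.sum_neg_distrib]
  exact Finset.sum_congr rfl fun σ _ => mul_neg _ _

theorem altf_perm {k : ℕ} (g : (Fin k → H) → ℂ) (π : Equiv.Perm (Fin k)) (v : Fin k → H) :
    altf (fun w => g fun i => w (π i)) v = ((Equiv.Perm.sign π : ℤ) : ℂ) * altf g v := by
  unfold altf
  rw [Finset.mul_sum]
  refine Fintype.sum_equiv (Equiv.mulRight π) _ _ fun σ => ?_
  rw [Equiv.coe_mulRight, Equiv.Perm.sign_mul]
  have h1 : ((Equiv.Perm.sign π : ℤ) : ℂ) * ((Equiv.Perm.sign π : ℤ) : ℂ) = 1 := by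
    rw [← Int.cast_mul, ← Units.val_mul, Int.units_mul_self]
    simp
  have h2 : (fun i => v ((σ * π) i)) = fun i => v (σ (π i)) := rfl
  rw [h2]
  push_cast
  linear_combination (-(((Equiv.Perm.sign σ : ℤ) : ℂ) * g fun i => v (σ (π i)))) * h1

end Alt

variable {H : Type u} [AddCommGroup H] [Module ℂ H]

/-- The product of a covector with the alternation of a function. -/
theorem wd_altf (ξ : H →ₗ[ℂ] ℂ) (k : ℕ) (η : AForm H k) (g : (Fin k → H) → ℂ)
    (h : ∀ v, η v = altf g v) (v : Fin (k + 1) → H) :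
    wd ξ k η v = altf (fun w => ξ (w 0) * g fun i => w i.succ) v := by
  rw [wd_apply]
  unfold altf
  rw [Finset.univ_perm_fin_succ, Finset.sum_map, ← Finset.univ_product_univ, Finset.sum_product]
  refine Finset.sum_congr rfl fun p _ => ?_
  simp only [Equiv.toEmbedding_apply, Equiv.Perm.decomposeFin_symm_apply_zero,
    Equiv.Perm.decomposeFin.symm_sign, Equiv.Perm.decomposeFin_symm_apply_succ]
  refine Fin.cases ?_ (fun q => ?_) p
  · simp only [if_true, Equiv.swap_self, Equiv.refl_apply, one_mul, Fin.val_zero, pow_zero]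
    rw [h, Fin.removeNth_zero]
    unfold altf
    rw [Finset.mul_sum]
    exact Finset.sum_congr rfl fun σ _ => mul_left_comm _ _ _
  · have h1 : ∀ j : Fin k, q.succ.succAbove (q.cycleRange j) = Equiv.swap 0 q.succ j.succ :=
      fun j => Fin.succAbove_cycleRange q j
    have h2 : η (fun j => v (Equiv.swap 0 q.succ j.succ)) =
        (-1 : ℂ) ^ (q : ℕ) * η (q.succ.removeNth v) := by
      have h3 : (fun j => v (Equiv.swap 0 q.succ j.succ)) = (q.succ.removeNth v) ∘ q.cycleRange := by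
        funext j
        rw [← h1]
        rfl
      rw [h3, AlternatingMap.map_perm, Fin.sign_cycleRange]
      simp [Units.smul_def]
    simp only [Fin.succ_ne_zero, if_false]
    rw [Fin.val_succ, pow_succ]
    have h4 : ∑ σ : Equiv.Perm (Fin k), ((((-1 * Equiv.Perm.sign σ : ℤˣ)) : ℤ) : ℂ) *
        (ξ (v q.succ) * g fun i => v (Equiv.swap 0 q.succ (σ i).succ)) =
        -(ξ (v q.succ) * η (fun j => v (Equiv.swap 0 q.succ j.succ))) := by
      rw [h]
      unfold altf
      rw [Finset.mul_sum, ← Finset.sum_neg_distrib]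
      refine Finset.sum_congr rfl fun σ _ => ?_
      push_cast
      ring
    rw [h4, h2]
    ring

theorem wd_wd_altf (ξ ζ : H →ₗ[ℂ] ℂ) (k : ℕ) (η : AForm H k) (g : (Fin k → H) → ℂ)
    (h : ∀ v, η v = altf g v) (v : Fin (k + 2) → H) :
    wd ξ (k + 1) (wd ζ k η) v =
      altf (fun w => ξ (w 0) * ζ (w 1) * g fun i => w i.succ.succ) v := by
  rw [wd_altf ξ (k + 1) (wd ζ k η) _ (wd_altf ζ k η g h)]
  congr 1
  funext w
  rw [mul_assoc]
  rfl

theorem altf_swap (ξ ζ : H →ₗ[ℂ] ℂ) (k : ℕ) (g : (Fin k → H) → ℂ) (v : Fin (k + 2) → H) :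
    altf (fun w => ζ (w 0) * ξ (w 1) * g fun i => w i.succ.succ) v =
      -altf (fun w => ξ (w 0) * ζ (w 1) * g fun i => w i.succ.succ) v := by
  have h := altf_perm (fun w : Fin (k + 2) → H => ξ (w 0) * ζ (w 1) * g fun i => w i.succ.succ)
    (Equiv.swap 0 1) v
  rw [Equiv.Perm.sign_swap (by simp)] at h
  have h1 : (fun w : Fin (k + 2) → H => ξ (w (Equiv.swap 0 1 0)) * ζ (w (Equiv.swap 0 1 1)) *
      g fun i => w (Equiv.swap 0 1 i.succ.succ)) =
      fun w => ζ (w 0) * ξ (w 1) * g fun i => w i.succ.succ := by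
    funext w
    rw [Equiv.swap_apply_left, Equiv.swap_apply_right, mul_comm (ξ (w 1))]
    congr 2
  rw [h1] at h
  rw [h]
  push_cast
  ring

variable {T : Type} [Fintype T] [DecidableEq T] {I S : T → Type} [∀ t, Fintype (I t)]
  [∀ t, DecidableEq (I t)] [∀ t, Fintype (S t)] [∀ t, DecidableEq (S t)]
  (b : Module.Basis (Idx I S) ℂ H)

omit [Fintype T] [DecidableEq T] [∀ t, Fintype (I t)] [∀ t, DecidableEq (I t)]
  [∀ t, Fintype (S t)] [∀ t, DecidableEq (S t)] in
theorem alt_sum_apply {α : Type*} {k : ℕ} (s : Finset α) (f : α → AForm H k) (v : Fin k → H) :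
    (∑ a ∈ s, f a) v = ∑ a ∈ s, f a v := by
  classical
  induction s using Finset.induction_on with
  | empty => rfl
  | insert a s ha ih =>
    rw [Finset.sum_insert ha, Finset.sum_insert ha, AlternatingMap.add_apply, ih]

omit [Fintype T] [DecidableEq T] [∀ t, DecidableEq (I t)]
  [∀ t, Fintype (S t)] [∀ t, DecidableEq (S t)] in
theorem Lw_altf (t : T) (s s' : S t) (k : ℕ) (η : AForm H k) (g : (Fin k → H) → ℂ)
    (h : ∀ v, η v = altf g v) (v : Fin (k + 2) → H) :
    2 * Lw b t s s' k η v =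
      altf (fun w => th b t s s' (w 0) (w 1) * g fun i => w i.succ.succ) v := by
  have h1 : (fun w : Fin (k + 2) → H => th b t s s' (w 0) (w 1) * g fun i => w i.succ.succ) =
      fun w => ∑ i : I t,
        (((b.coord ⟨t, i, s, true⟩ (w 0) * b.coord ⟨t, i, s', false⟩ (w 1) *
            g fun i => w i.succ.succ) +
          -(b.coord ⟨t, i, s', false⟩ (w 0) * b.coord ⟨t, i, s, true⟩ (w 1) *
            g fun i => w i.succ.succ)) +
        ((b.coord ⟨t, i, s', true⟩ (w 0) * b.coord ⟨t, i, s, false⟩ (w 1) *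
            g fun i => w i.succ.succ) +
          -(b.coord ⟨t, i, s, false⟩ (w 0) * b.coord ⟨t, i, s', true⟩ (w 1) *
            g fun i => w i.succ.succ))) := by
    funext w
    unfold th
    rw [LinearMap.sum_apply, LinearMap.sum_apply, Finset.sum_mul]
    refine Finset.sum_congr rfl fun i _ => ?_
    simp only [LinearMap.sub_apply, LinearMap.add_apply, LinearMap.smulRight_apply,
      LinearMap.smul_apply, smul_eq_mul]
    ring
  rw [h1, altf_sum]
  unfold Lw
  rw [LinearMap.sum_apply, alt_sum_apply, Finset.mul_sum]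
  refine Finset.sum_congr rfl fun i _ => ?_
  rw [altf_add, altf_add, altf_add, altf_neg, altf_neg,
    altf_swap (b.coord ⟨t, i, s, true⟩) (b.coord ⟨t, i, s', false⟩),
    altf_swap (b.coord ⟨t, i, s', true⟩) (b.coord ⟨t, i, s, false⟩)]
  rw [LinearMap.add_apply, AlternatingMap.add_apply, LinearMap.comp_apply, LinearMap.comp_apply,
    wd_wd_altf _ _ k η g h, wd_wd_altf _ _ k η g h]
  ring

/-- The linear combinations of products of `j` bilinear forms with the property `P`. -/
def prods (P : (H →ₗ[ℂ] H →ₗ[ℂ] ℂ) → Prop) (j : ℕ) : Submodule ℂ (AForm H (2 * j)) :=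
  Submodule.span ℂ {η | ∃ ω : Fin j → H →ₗ[ℂ] H →ₗ[ℂ] ℂ, (∀ i, P (ω i)) ∧
    ∀ w : Fin (2 * j) → H, η w = ∑ σ : Equiv.Perm (Fin (2 * j)),
      ((Equiv.Perm.sign σ : ℤ) : ℂ) * ∏ i : Fin j, ω i (w (σ ⟨2 * i, by omega⟩))
        (w (σ ⟨2 * i + 1, by omega⟩))}

omit [Fintype T] [DecidableEq T] [∀ t, DecidableEq (I t)]
  [∀ t, Fintype (S t)] [∀ t, DecidableEq (S t)] in
theorem Jfil_le_prods {P : (H →ₗ[ℂ] H →ₗ[ℂ] ℂ) → Prop} (hP : ∀ t s s', P (th b t s s')) (j : ℕ) :
    Jfil b j (2 * j) ≤ prods P j := by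
  induction j with
  | zero =>
    intro η _
    have hE : IsEmpty (Fin (2 * 0)) := (inferInstance : IsEmpty (Fin 0))
    have h1 : η = η 0 • AlternatingMap.constOfIsEmpty ℂ H (Fin (2 * 0)) (1 : ℂ) := by
      ext v
      rw [AlternatingMap.smul_apply, AlternatingMap.constOfIsEmpty_apply, smul_eq_mul,
        Function.const_apply, mul_one]
      congr 1
      exact Subsingleton.elim _ _
    rw [h1]
    refine Submodule.smul_mem _ _ (Submodule.subset_span ⟨Fin.elim0, fun i => i.elim0, fun w => ?_⟩)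
    simp
  | succ j ih =>
    change (⨆ t : T, ⨆ s : S t, ⨆ s' : S t, (Jfil b j (2 * j)).map (Lw b t s s' (2 * j))) ≤ _
    refine iSup_le fun t => iSup_le fun s => iSup_le fun s' => ?_
    refine (Submodule.map_mono ih).trans ?_
    unfold prods
    rw [Submodule.map_span_le]
    rintro η ⟨ω, hω, hη⟩
    have h1 := Lw_altf b t s s' (2 * j) η (fun w => ∏ i : Fin j, ω i (w ⟨2 * i, by omega⟩)
        (w ⟨2 * i + 1, by omega⟩)) hη
    have h2 : Lw b t s s' (2 * j) η = (1 / 2 : ℂ) • ((2 : ℂ) • Lw b t s s' (2 * j) η) := by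
      rw [smul_smul]
      norm_num
    rw [h2]
    refine Submodule.smul_mem _ _ (Submodule.subset_span
      ⟨Fin.cons (th b t s s') ω, fun i => ?_, fun w => ?_⟩)
    · refine Fin.cases ?_ (fun i => ?_) i
      · exact hP t s s'
      · exact hω i
    · rw [AlternatingMap.smul_apply, smul_eq_mul, h1 w]
      unfold altf
      refine Finset.sum_congr rfl fun σ _ => ?_
      rw [Fin.prod_univ_succ]
      rfl

end Pool.Agent.TateOdd
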