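import Pool.Agent.TateOdd.Fund

/-!
# Calculus of products with covectors and two forms
-/

set_option autoImplicit false
set_option linter.unusedSectionVars false

universe u v

namespace Pool.Agent.TateOdd

open Pool.Agent.GHCFull (AForm wd wd_apply ct der der_apply der_add der_smul der_one der_der ct_wd
  ct_wd_zero ct_ct ct_apply ct_add ct_smul finite_aform)

variable {H : Type u} [AddCommGroup H] [Module ℂ H]

/-- The product with a covector, as a bilinear map. -/
noncomputable def wdL (H : Type u) [AddCommGroup H] [Module ℂ H] (k : ℕ) :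
    (H →ₗ[ℂ] ℂ) →ₗ[ℂ] AForm H k →ₗ[ℂ] AForm H (k + 1) where
  toFun ξ := wd ξ k
  map_add' ξ ζ := by
    ext η v
    rw [LinearMap.add_apply, AlternatingMap.add_apply, wd_apply, wd_apply, wd_apply,
      ← Finset.sum_add_distrib]
    refine Finset.sum_congr rfl fun i _ => ?_
    rw [LinearMap.add_apply]
    ring
  map_smul' c ξ := by
    ext η v
    rw [RingHom.id_apply, LinearMap.smul_apply, AlternatingMap.smul_apply, wd_apply, wd_apply,
      smul_eq_mul, Finset.mul_sum]
    refine Finset.sum_congr rfl fun i _ => ?_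
    rw [LinearMap.smul_apply, smul_eq_mul]
    ring

theorem wdL_apply (k : ℕ) (ξ : H →ₗ[ℂ] ℂ) (η : AForm H k) : wdL H k ξ η = wd ξ k η := rfl

/-- The product with a two form. -/
noncomputable def Lom (ω : H →ₗ[ℂ] H →ₗ[ℂ] ℂ) (k : ℕ) : AForm H k →ₗ[ℂ] AForm H (k + 2) where
  toFun η := AlternatingMap.alternatizeUncurryFinLM ((wdL H k).flip η ∘ₗ ω)
  map_add' η η' := by
    rw [map_add, LinearMap.add_comp, map_add]
  map_smul' c η := by
    rw [map_smul, LinearMap.smul_comp, map_smul, RingHom.id_apply]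

theorem Lom_add (ω ω' : H →ₗ[ℂ] H →ₗ[ℂ] ℂ) (k : ℕ) (η : AForm H k) :
    Lom (ω + ω') k η = Lom ω k η + Lom ω' k η := by
  change AlternatingMap.alternatizeUncurryFinLM ((wdL H k).flip η ∘ₗ (ω + ω')) = _
  rw [LinearMap.comp_add, map_add]
  rfl

theorem Lom_smul (c : ℂ) (ω : H →ₗ[ℂ] H →ₗ[ℂ] ℂ) (k : ℕ) (η : AForm H k) :
    Lom (c • ω) k η = c • Lom ω k η := by
  change AlternatingMap.alternatizeUncurryFinLM ((wdL H k).flip η ∘ₗ (c • ω)) = _
  rw [LinearMap.comp_smul, map_smul]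
  rfl

/-- The product with a two form in terms of a basis. -/
theorem Lom_basis {K : Type*} [Fintype K] (b : Module.Basis K ℂ H) (ω : H →ₗ[ℂ] H →ₗ[ℂ] ℂ)
    (k : ℕ) (η : AForm H k) :
    Lom ω k η = ∑ α, wd (b.coord α) (k + 1) (wd (ω (b α)) k η) := by
  classical
  have h1 : (wdL H k).flip η ∘ₗ ω = ∑ α, (b.coord α).smulRight (wd (ω (b α)) k η) := by
    refine b.ext fun γ => ?_
    rw [LinearMap.sum_apply, Finset.sum_eq_single γ]
    · rw [LinearMap.smulRight_apply, Module.Basis.coord_apply, Module.Basis.repr_self,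
        Finsupp.single_eq_same, one_smul]
      rfl
    · intro β _ hβ
      rw [LinearMap.smulRight_apply, Module.Basis.coord_apply, Module.Basis.repr_self,
        Finsupp.single_eq_of_ne hβ, zero_smul]
    · intro h
      exact (h (Finset.mem_univ _)).elim
  change AlternatingMap.alternatizeUncurryFinLM ((wdL H k).flip η ∘ₗ ω) = _
  rw [h1, map_sum]
  rfl

theorem exists_altf (k : ℕ) (η : AForm H k) : ∀ v, η v = altf (fun w => (k.factorial : ℂ)⁻¹ * η w) v := by
  intro v
  unfold altf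
  have h1 : ∀ σ : Equiv.Perm (Fin k), ((Equiv.Perm.sign σ : ℤ) : ℂ) *
      ((k.factorial : ℂ)⁻¹ * η fun i => v (σ i)) = (k.factorial : ℂ)⁻¹ * η v := by
    intro σ
    have h2 : (η fun i => v (σ i)) = ((Equiv.Perm.sign σ : ℤ) : ℂ) * η v := by
      have := η.map_perm v σ
      rw [show (fun i => v (σ i)) = v ∘ σ from rfl, this, Units.smul_def, zsmul_eq_mul]
    rw [h2]
    have h3 : ((Equiv.Perm.sign σ : ℤ) : ℂ) * ((Equiv.Perm.sign σ : ℤ) : ℂ) = 1 := by
      rw [← Int.cast_mul, ← Units.val_mul, Int.units_mul_self]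
      simp
    linear_combination (k.factorial : ℂ)⁻¹ * η v * h3
  rw [Finset.sum_congr rfl fun σ _ => h1 σ, Finset.sum_const, Finset.card_univ,
    Fintype.card_perm, Fintype.card_fin, nsmul_eq_mul, ← mul_assoc, mul_inv_cancel₀, one_mul]
  exact_mod_cast k.factorial_ne_zero

theorem wd_anti (ξ ζ : H →ₗ[ℂ] ℂ) (k : ℕ) (η : AForm H k) :
    wd ξ (k + 1) (wd ζ k η) = -wd ζ (k + 1) (wd ξ k η) := by
  ext v
  rw [AlternatingMap.neg_apply, wd_wd_altf ξ ζ k η _ (exists_altf k η),
    wd_wd_altf ζ ξ k η _ (exists_altf k η)]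
  exact altf_swap ζ ξ k (fun w => (k.factorial : ℂ)⁻¹ * η w) v

theorem wd_self (ξ : H →ₗ[ℂ] ℂ) (k : ℕ) (η : AForm H k) : wd ξ (k + 1) (wd ξ k η) = 0 := by
  have h := wd_anti ξ ξ k η
  have h2 : (2 : ℂ) • wd ξ (k + 1) (wd ξ k η) = 0 := by
    rw [two_smul]
    nth_rewrite 1 [h]
    exact neg_add_cancel _
  rcases smul_eq_zero.1 h2 with h3 | h3
  · norm_num at h3
  · exact h3

theorem Lom_altf (ω : H →ₗ[ℂ] H →ₗ[ℂ] ℂ) [FiniteDimensional ℂ H] (k : ℕ) (η : AForm H k)
    (g : (Fin k → H) → ℂ) (h : ∀ v, η v = altf g v) (v : Fin (k + 2) → H) :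
    Lom ω k η v = altf (fun w => ω (w 0) (w 1) * g fun i => w i.succ.succ) v := by
  have b := Module.finBasis ℂ H
  rw [Lom_basis b, alt_sum_apply]
  have h1 : (fun w : Fin (k + 2) → H => ω (w 0) (w 1) * g fun i => w i.succ.succ) =
      fun w => ∑ α, (b.coord α (w 0) * ω (b α) (w 1) * g fun i => w i.succ.succ) := by
    funext w
    rw [← Finset.sum_mul]
    congr 1
    conv_lhs => rw [← b.sum_repr (w 0)]
    rw [map_sum, LinearMap.sum_apply]
    refine Finset.sum_congr rfl fun α _ => ?_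
    rw [map_smul, LinearMap.smul_apply, smul_eq_mul]
    rfl
  rw [h1, altf_sum]
  exact Finset.sum_congr rfl fun α _ => wd_wd_altf _ _ k η g h v

section Fin

variable [FiniteDimensional ℂ H]

theorem wd_Lom (ξ : H →ₗ[ℂ] ℂ) (ω : H →ₗ[ℂ] H →ₗ[ℂ] ℂ) (k : ℕ) (η : AForm H k) :
    wd ξ (k + 2) (Lom ω k η) = Lom ω (k + 1) (wd ξ k η) := by
  have b := Module.finBasis ℂ H
  rw [Lom_basis b, Lom_basis b, map_sum]
  refine Finset.sum_congr rfl fun α _ => ?_
  rw [wd_anti ξ _ (k + 1), wd_anti ξ _ k, map_neg, neg_neg]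

theorem Lom_comm (ω ω' : H →ₗ[ℂ] H →ₗ[ℂ] ℂ) (k : ℕ) (η : AForm H k) :
    Lom ω (k + 2) (Lom ω' k η) = Lom ω' (k + 2) (Lom ω k η) := by
  have b := Module.finBasis ℂ H
  rw [Lom_basis b ω (k + 2), Lom_basis b ω k, map_sum]
  refine Finset.sum_congr rfl fun α _ => ?_
  rw [wd_Lom, wd_Lom]

theorem ct_Lom_zero (ω : H →ₗ[ℂ] H →ₗ[ℂ] ℂ) (hω : ∀ x, ω x x = 0) (v : H) (η : AForm H 0) :
    ct v 1 (Lom ω 0 η) = (2 : ℂ) • wd (ω v) 0 η := by
  have b := Module.finBasis ℂ H
  have hs : ∀ x y, ω x y = -ω y x := skew_of_alt hω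
  have h1 : ω v = ∑ α, b.coord α v • ω (b α) := by
    conv_lhs => rw [← b.sum_repr v]
    rw [map_sum]
    exact Finset.sum_congr rfl fun α _ => map_smul _ _ _
  have h2 : ω v = -∑ α, ω (b α) v • b.coord α := by
    refine LinearMap.ext fun y => ?_
    rw [LinearMap.neg_apply, LinearMap.sum_apply]
    conv_lhs => rw [← b.sum_repr y]
    rw [map_sum, ← Finset.sum_neg_distrib]
    refine Finset.sum_congr rfl fun α _ => ?_
    rw [map_smul, LinearMap.smul_apply, smul_eq_mul, smul_eq_mul, hs v]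
    change b.coord α y * _ = _
    ring
  rw [Lom_basis b, map_sum]
  have h3 : ∀ α, ct v 1 (wd (b.coord α) 1 (wd (ω (b α)) 0 η)) =
      wdL H 0 (b.coord α v • ω (b α)) η - wdL H 0 (ω (b α) v • b.coord α) η := by
    intro α
    rw [ct_wd, ct_wd_zero, map_smul, map_smul, map_smul, LinearMap.smul_apply,
      LinearMap.smul_apply]
    rfl
  simp only [h3, Finset.sum_sub_distrib]
  rw [← LinearMap.sum_apply, ← map_sum, ← LinearMap.sum_apply, ← map_sum, ← h1]
  have h4 : ∑ α, ω (b α) v • b.coord α = -ω v := by rw [h2, neg_neg]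
  rw [h4, map_neg, LinearMap.neg_apply, sub_neg_eq_add, wdL_apply, two_smul]

theorem ct_Lom (ω : H →ₗ[ℂ] H →ₗ[ℂ] ℂ) (hω : ∀ x, ω x x = 0) (v : H) (k : ℕ)
    (η : AForm H (k + 1)) :
    ct v (k + 2) (Lom ω (k + 1) η) = (2 : ℂ) • wd (ω v) (k + 1) η + Lom ω k (ct v k η) := by
  have b := Module.finBasis ℂ H
  have hs : ∀ x y, ω x y = -ω y x := skew_of_alt hω
  have h1 : ω v = ∑ α, b.coord α v • ω (b α) := by
    conv_lhs => rw [← b.sum_repr v]
    rw [map_sum]
    exact Finset.sum_congr rfl fun α _ => map_smul _ _ _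
  have h2 : ω v = -∑ α, ω (b α) v • b.coord α := by
    refine LinearMap.ext fun y => ?_
    rw [LinearMap.neg_apply, LinearMap.sum_apply]
    conv_lhs => rw [← b.sum_repr y]
    rw [map_sum, ← Finset.sum_neg_distrib]
    refine Finset.sum_congr rfl fun α _ => ?_
    rw [map_smul, LinearMap.smul_apply, smul_eq_mul, smul_eq_mul, hs v]
    change b.coord α y * _ = _
    ring
  rw [Lom_basis b, map_sum, Lom_basis b ω k]
  have h3 : ∀ α, ct v (k + 2) (wd (b.coord α) (k + 2) (wd (ω (b α)) (k + 1) η)) =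
      (wdL H (k + 1) (b.coord α v • ω (b α)) η - wdL H (k + 1) (ω (b α) v • b.coord α) η) +
        wd (b.coord α) (k + 1) (wd (ω (b α)) k (ct v k η)) := by
    intro α
    rw [ct_wd, ct_wd, map_smul, map_smul, map_sub, map_smul, LinearMap.smul_apply,
      LinearMap.smul_apply, wdL_apply, wdL_apply]
    abel
  simp only [h3, Finset.sum_add_distrib, Finset.sum_sub_distrib]
  rw [← LinearMap.sum_apply, ← map_sum, ← LinearMap.sum_apply, ← map_sum, ← h1]
  have h4 : ∑ α, ω (b α) v • b.coord α = -ω v := by rw [h2, neg_neg]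
  rw [h4, map_neg, LinearMap.neg_apply, sub_neg_eq_add, wdL_apply, two_smul]

end Fin

section Pull

variable {H' : Type v} [AddCommGroup H'] [Module ℂ H'] (g : H' →ₗ[ℂ] H)

theorem wd_pull (ξ : H →ₗ[ℂ] ℂ) (k : ℕ) (η : AForm H k) :
    (wd ξ k η).compLinearMap g = wd (ξ ∘ₗ g) k (η.compLinearMap g) := by
  ext v
  rw [AlternatingMap.compLinearMap_apply, wd_apply, wd_apply]
  rfl

theorem Lom_pull [FiniteDimensional ℂ H] [FiniteDimensional ℂ H'] (ω : H →ₗ[ℂ] H →ₗ[ℂ] ℂ)
    (k : ℕ) (η : AForm H k) :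
    (Lom ω k η).compLinearMap g = Lom (ω.compl₁₂ g g) k (η.compLinearMap g) := by
  ext v
  rw [AlternatingMap.compLinearMap_apply, Lom_altf ω k η _ (exists_altf k η),
    Lom_altf _ k (η.compLinearMap g) (fun w => (k.factorial : ℂ)⁻¹ * η fun i => g (w i))
      (exists_altf k (η.compLinearMap g))]
  rfl

end Pull

/-- A derivation of a product with a covector. -/
theorem der_wd (D : Module.End ℂ H) (ξ : H →ₗ[ℂ] ℂ) (k : ℕ) (η : AForm H k) :
    der D (k + 1) (wd ξ k η) = wd (ξ ∘ₗ D) k η + wd ξ k (der D k η) := by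
  ext v
  rw [AlternatingMap.add_apply, der_apply, wd_apply, wd_apply]
  simp only [wd_apply, der_apply]
  rw [Finset.sum_comm, ← Finset.sum_add_distrib]
  refine Finset.sum_congr rfl fun i _ => ?_
  rw [Fin.sum_univ_succAbove _ i]
  rw [Function.update_self]
  have h1 : i.removeNth (Function.update v i (D (v i))) = i.removeNth v := by
    funext l
    rw [Fin.removeNth_apply, Fin.removeNth_apply, Function.update_of_ne (Fin.succAbove_ne i l)]
  rw [h1]
  have h2 : ∀ l : Fin k, (-1 : ℂ) ^ (i : ℕ) *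
      (ξ (Function.update v (i.succAbove l) (D (v (i.succAbove l))) i) *
        η (i.removeNth (Function.update v (i.succAbove l) (D (v (i.succAbove l)))))) =
      (-1 : ℂ) ^ (i : ℕ) * (ξ (v i) * η (Function.update (i.removeNth v) l
        (D (i.removeNth v l)))) := by
    intro l
    rw [Function.update_of_ne (Fin.succAbove_ne i l).symm]
    congr 3
    funext m
    rw [Fin.removeNth_apply]
    by_cases hm : m = l
    · subst hm
      rw [Function.update_self, Function.update_self, Fin.removeNth_apply]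
    · rw [Function.update_of_ne hm, Function.update_of_ne, Fin.removeNth_apply]
      exact fun h => hm (Fin.succAbove_right_injective h)
  simp only [h2]
  rw [← Finset.mul_sum, ← Finset.mul_sum]
  rfl

end Pool.Agent.TateOdd
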