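import Pool.Agent.TateOdd.W1

/-!
# Polarisation
-/

set_option autoImplicit false
set_option linter.unusedSectionVars false

universe u v

namespace Pool.Agent.TateOdd

open Pool.Agent.GHCFull (AForm wd wd_apply ct der der_apply der_add der_smul der_one der_der ct_wd
  ct_wd_zero ct_ct ct_apply ct_add ct_smul finite_aform)

/-- The coefficients of a polynomial with values in a submodule. -/
theorem coeff_mem {M : Type*} [AddCommGroup M] [Module ℂ M] (N : Submodule ℂ M) (n : ℕ)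
    (a : ℕ → M) (h : ∀ t : ℂ, ∑ m ∈ Finset.range n, t ^ m • a m ∈ N) : ∀ m < n, a m ∈ N := by
  intro m hm
  by_contra hcon
  obtain ⟨f, hf0, hf⟩ := Submodule.exists_le_ker_of_notMem hcon
  apply hf0
  let p : Polynomial ℂ := ∑ m ∈ Finset.range n, Polynomial.monomial m (f (a m))
  have hp : p = 0 := by
    refine Polynomial.funext fun t => ?_
    rw [Polynomial.eval_zero]
    have h1 := LinearMap.mem_ker.1 (hf (h t))
    rw [map_sum] at h1
    rw [← h1, Polynomial.eval_finsetSum]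
    refine Finset.sum_congr rfl fun m _ => ?_
    rw [Polynomial.eval_monomial, map_smul, smul_eq_mul, mul_comm]
  have h2 : p.coeff m = f (a m) := by
    rw [Polynomial.finsetSum_coeff, Finset.sum_eq_single m]
    · rw [Polynomial.coeff_monomial, if_pos rfl]
    · intro k _ hk
      rw [Polynomial.coeff_monomial, if_neg hk]
    · intro h
      exact absurd (Finset.mem_range.2 hm) h
  rw [← h2, hp, Polynomial.coeff_zero]

variable {H : Type u} [AddCommGroup H] [Module ℂ H]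

/-- The powers of a two form. -/
noncomputable def pwk (ω : H →ₗ[ℂ] H →ₗ[ℂ] ℂ) : (k : ℕ) → AForm H k
  | 0 => AlternatingMap.constOfIsEmpty ℂ H (Fin 0) (1 : ℂ)
  | 1 => 0
  | k + 2 => Lom ω k (pwk ω k)

/-- The product with a two form in all degrees. -/
noncomputable def LL (ω : H →ₗ[ℂ] H →ₗ[ℂ] ℂ) : Module.End ℂ (∀ k, AForm H k) where
  toFun F := fun k => match k with
    | 0 => 0
    | 1 => 0
    | k + 2 => Lom ω k (F k)
  map_add' F F' := by
    funext k
    match k with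
    | 0 => exact (add_zero _).symm
    | 1 => exact (add_zero _).symm
    | k + 2 => exact map_add _ _ _
  map_smul' c F := by
    funext k
    match k with
    | 0 => exact (smul_zero c).symm
    | 1 => exact (smul_zero c).symm
    | k + 2 => exact map_smul (Lom ω k) c (F k)

theorem LL_add (ω ω' : H →ₗ[ℂ] H →ₗ[ℂ] ℂ) : LL (ω + ω') = LL ω + LL ω' := by
  refine LinearMap.ext fun F => ?_
  funext k
  match k with
  | 0 => exact (add_zero _).symm
  | 1 => exact (add_zero _).symm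
  | k + 2 => exact Lom_add _ _ _ _

theorem LL_smul (c : ℂ) (ω : H →ₗ[ℂ] H →ₗ[ℂ] ℂ) : LL (c • ω) = c • LL ω := by
  refine LinearMap.ext fun F => ?_
  funext k
  match k with
  | 0 => exact (smul_zero c).symm
  | 1 => exact (smul_zero c).symm
  | k + 2 => exact Lom_smul _ _ _ _

/-- The constant function in degree zero. -/
noncomputable def one' : ∀ k, AForm H k
  | 0 => AlternatingMap.constOfIsEmpty ℂ H (Fin 0) (1 : ℂ)
  | _ + 1 => 0

theorem LL_pow (ω : H →ₗ[ℂ] H →ₗ[ℂ] ℂ) (J : ℕ) : (LL ω ^ J) one' (2 * J) = pwk ω (2 * J) := by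
  induction J with
  | zero => rfl
  | succ J ih =>
    rw [pow_succ', Module.End.mul_apply]
    change Lom ω (2 * J) ((LL ω ^ J) one' (2 * J)) = Lom ω (2 * J) (pwk ω (2 * J))
    rw [ih]

variable [FiniteDimensional ℂ H]

theorem LL_comm (ω ω' : H →ₗ[ℂ] H →ₗ[ℂ] ℂ) : Commute (LL ω) (LL ω') := by
  refine LinearMap.ext fun F => ?_
  funext k
  match k with
  | 0 => rfl
  | 1 => rfl
  | 2 =>
    change Lom ω 0 0 = Lom ω' 0 0
    rw [map_zero, map_zero]
  | 3 =>
    change Lom ω 1 0 = Lom ω' 1 0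
    rw [map_zero, map_zero]
  | k + 4 => exact Lom_comm ω ω' k (F k)

/-- Polarisation. -/
theorem Lom_pwk_mem (P : Submodule ℂ (H →ₗ[ℂ] H →ₗ[ℂ] ℂ)) {x y : H →ₗ[ℂ] H →ₗ[ℂ] ℂ} (hx : x ∈ P)
    (hy : y ∈ P) (J : ℕ) : Lom y (2 * J) (pwk x (2 * J)) ∈
      Submodule.span ℂ {η | ∃ z ∈ P, η = pwk z (2 * (J + 1))} := by
  let a : ℕ → AForm H (2 * (J + 1)) := fun m =>
    (((J + 1).choose m : ℂ) • (LL y ^ m * LL x ^ (J + 1 - m))) one' (2 * (J + 1))
  have h1 := coeff_mem (Submodule.span ℂ {η | ∃ z ∈ P, η = pwk z (2 * (J + 1))}) (J + 2) a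
    (fun t => ?_) 1 (by omega)
  · have h2 : a 1 = ((J : ℂ) + 1) • Lom y (2 * J) (pwk x (2 * J)) := by
      change (((J + 1).choose 1 : ℂ) • (LL y ^ 1 * LL x ^ (J + 1 - 1))) one' (2 * (J + 1)) = _
      rw [Nat.choose_one_right, pow_one, Nat.add_sub_cancel, LinearMap.smul_apply,
        Module.End.mul_apply]
      change ((J + 1 : ℕ) : ℂ) • Lom y (2 * J) ((LL x ^ J) one' (2 * J)) = _
      rw [LL_pow]
      push_cast
      rfl
    have h3 : ((J : ℂ) + 1) ≠ 0 := by exact_mod_cast Nat.succ_ne_zero J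
    have h4 : Lom y (2 * J) (pwk x (2 * J)) = ((J : ℂ) + 1)⁻¹ • a 1 := by
      rw [h2, smul_smul, inv_mul_cancel₀ h3, one_smul]
    rw [h4]
    exact Submodule.smul_mem _ _ h1
  · have h2 : ∑ m ∈ Finset.range (J + 2), t ^ m • a m = pwk (t • y + x) (2 * (J + 1)) := by
      rw [← LL_pow, LL_add, LL_smul, ((LL_comm y x).smul_left t).add_pow, LinearMap.sum_apply,
        Finset.sum_apply]
      refine Finset.sum_congr rfl fun m _ => ?_
      change t ^ m • (((J + 1).choose m : ℂ) • (LL y ^ m * LL x ^ (J + 1 - m))) one'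
        (2 * (J + 1)) = _
      rw [smul_pow, smul_mul_assoc, ← Nat.cast_commute, ← nsmul_eq_mul]
      rw [LinearMap.smul_apply, ← Nat.cast_smul_eq_nsmul ℂ, LinearMap.smul_apply,
        LinearMap.smul_apply, Pi.smul_apply, Pi.smul_apply, Pi.smul_apply, smul_comm]
    rw [h2]
    exact Submodule.subset_span ⟨_, P.add_mem (P.smul_mem t hy) hx, rfl⟩

/-- The products of two forms. -/
noncomputable def PL : (J : ℕ) → (Fin J → (H →ₗ[ℂ] H →ₗ[ℂ] ℂ)) → AForm H (2 * J)
  | 0, _ => pwk 0 0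
  | J + 1, ω => Lom (ω 0) (2 * J) (PL J (Fin.tail ω))

theorem PL_apply (J : ℕ) (ω : Fin J → (H →ₗ[ℂ] H →ₗ[ℂ] ℂ)) : ∀ v, PL J ω v =
    altf (fun w => ∏ i : Fin J, ω i (w ⟨2 * i, by omega⟩) (w ⟨2 * i + 1, by omega⟩)) v := by
  induction J with
  | zero =>
    intro v
    have : (fun w : Fin (2 * 0) → H => ∏ i : Fin 0, ω i (w ⟨2 * i, by omega⟩)
        (w ⟨2 * i + 1, by omega⟩)) = fun _ => 1 := by
      funext w
      simp
    rw [this]
    unfold altf
    change (1 : ℂ) = _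
    have h0 : Unique (Equiv.Perm (Fin (2 * 0))) := (inferInstance : Unique (Equiv.Perm (Fin 0)))
    rw [Fintype.sum_eq_single (1 : Equiv.Perm (Fin (2 * 0)))]
    · simp
    · intro σ hσ
      exact absurd (h0.eq_default σ ▸ (h0.eq_default 1).symm ▸ rfl) hσ
  | succ J ih =>
    intro v
    change Lom (ω 0) (2 * J) (PL J (Fin.tail ω)) v = _
    rw [Lom_altf (ω 0) (2 * J) _ _ (ih (Fin.tail ω)) v]
    congr 1
    funext w
    rw [Fin.prod_univ_succ]
    rfl

theorem prods_le_pw (P : Submodule ℂ (H →ₗ[ℂ] H →ₗ[ℂ] ℂ)) (J : ℕ) :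
    prods (fun ω => ω ∈ P) J ≤ Submodule.span ℂ {η | ∃ z ∈ P, η = pwk z (2 * J)} := by
  have hPL : ∀ (J : ℕ) (ω : Fin J → (H →ₗ[ℂ] H →ₗ[ℂ] ℂ)), (∀ i, ω i ∈ P) →
      PL J ω ∈ Submodule.span ℂ {η | ∃ z ∈ P, η = pwk z (2 * J)} := by
    intro J
    induction J with
    | zero => exact fun ω _ => Submodule.subset_span ⟨0, P.zero_mem, rfl⟩
    | succ J ih =>
      intro ω hω
      change Lom (ω 0) (2 * J) (PL J (Fin.tail ω)) ∈ _
      have h1 := ih (Fin.tail ω) fun i => hω i.succ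
      have h2 : Submodule.span ℂ {η | ∃ z ∈ P, η = pwk z (2 * J)} ≤
          (Submodule.span ℂ {η | ∃ z ∈ P, η = pwk z (2 * (J + 1))}).comap
            (Lom (ω 0) (2 * J)) := by
        rw [Submodule.span_le]
        rintro _ ⟨z, hz, rfl⟩
        exact Lom_pwk_mem P hz (hω 0) J
      exact h2 h1
  unfold prods
  rw [Submodule.span_le]
  rintro η ⟨ω, hω, hη⟩
  have h1 : η = PL J ω := by
    ext v
    rw [PL_apply, hη]
    rfl
  rw [h1]
  exact hPL J ω hω

end Pool.Agent.TateOdd
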